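import Pool.Agent.J2E.Defs

/-!
# [J2E-A1] cubic characters and the integrand: bounds, continuity, integrability

PROOF. `one`: `k 1 = k 1 ^ 2`, `k 1 ^ 3 = 1`. `neg`: `k (-1) ^ 2 = 1`, `k (-1) ^ 3 = 1`. `sum_zero`: multiplication by the `x` of `non` permutes the classes (`CUL.IsRep.sum_mul`).
`notUnit`: if `F` is a unit then `F ∣ x - 1`, `k x = k 1 = 1`. So for `α` prime to `F`: `F ∤ α`, `α / F` is not in the lattice.
`SF_bound` (model `JL.GX_bound`): only `α` prime to `F` contribute. `u ≥ 1`: `JL.Ak_gap 0` with the gap `δ` of `NAB.a2a_gap` for each `α/F` (finitely many, take the minimum; or use induction over a Finset as in `JGL.KO_bound_SY`). `u ≤ 1`: `NAB.T0_small`: `‖u Ak - 1/A₀‖ ≤ C (1 + u) exp(-κ/u)`, and `∑ k α / A₀ = 0`, so `‖u SF‖ ≤ N(F) 2 C exp(-κ/u)`; `JL.k1_inv`, `JL.k1_small`, `JL.k1_large`.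
`SF_cont`: `JL.k1_cont`. `SF_int`: as `JL.LX_int`.
-/

set_option autoImplicit false

open MeasureTheory Set Filter Topology
open scoped Classical ComplexConjugate

namespace J2E

open CM27 JZ
open CU (la eE)
open CUL (Nl ta rp IsRep zw GalU)
open JGL (GalP)

variable {F : Eis} {k : Eis → ℂ}

theorem Ch.one (h : Ch F k) : k 1 = 1 := by
  have h1 := h.cube 1 isCoprime_one_left
  have h2 := h.mul 1 1
  rw [mul_one] at h2
  have h0 : k 1 ≠ 0 := by
    intro h0
    rw [h0] at h1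
    norm_num at h1
  have h3 : k 1 * 1 = k 1 * k 1 := by rw [mul_one]; exact h2
  exact (mul_left_cancel₀ h0 h3).symm

theorem Ch.neg (h : Ch F k) (x : Eis) : k (-x) = k x := by
  have h1 := h.cube (-1) isCoprime_one_left.neg_left
  have h2 := h.mul (-1) (-1)
  have e : (-1 : Eis) * -1 = 1 := by ring
  rw [e, h.one] at h2
  have h3 : k (-1) = 1 := by
    have : k (-1) ^ 3 = k (-1) * (k (-1) * k (-1)) := by ring
    rw [this, ← h2, mul_one] at h1
    exact h1
  have h4 := h.mul (-1) x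
  rw [h3, one_mul, neg_one_mul] at h4
  exact h4

theorem Ch.ne_zero_iff (h : Ch F k) (x : Eis) : k x ≠ 0 ↔ IsCoprime x F := by
  constructor
  · intro h1
    by_contra h2
    exact h1 (h.zero x h2)
  · intro h1 h0
    have h2 := h.cube x h1
    rw [h0] at h2
    norm_num at h2

theorem Ch.norm (h : Ch F k) {x : Eis} (hx : IsCoprime x F) : ‖k x‖ = 1 := by
  have h1 : ‖k x‖ ^ 3 = 1 := by
    rw [← norm_pow, h.cube x hx, norm_one]
  exact (pow_eq_one_iff_of_nonneg (norm_nonneg _) (by norm_num)).1 h1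

theorem Ch.norm_le (h : Ch F k) (x : Eis) : ‖k x‖ ≤ 1 := by
  by_cases hx : IsCoprime x F
  · exact (h.norm hx).le
  · rw [h.zero x hx, norm_zero]; exact zero_le_one

/-- `k x = 1, w, w²` -/
theorem Ch.cases (h : Ch F k) {x : Eis} (hx : IsCoprime x F) : k x = 1 ∨ k x = w ∨ k x = w ^ 2 := by
  have ht := h.cube x hx
  have hw := CUL.w2
  have hw3 := CUL.w3
  have h1 : (k x - 1) * ((k x - w) * (k x - w ^ 2)) = 0 := by
    linear_combination ht + (-(k x ^ 2) + k x) * hw + (k x - 1) * hw3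
  rcases mul_eq_zero.mp h1 with h2 | h2
  · exact Or.inl (sub_eq_zero.1 h2)
  · rcases mul_eq_zero.mp h2 with h4 | h4
    · exact Or.inr (Or.inl (sub_eq_zero.1 h4))
    · exact Or.inr (Or.inr (sub_eq_zero.1 h4))

theorem Ch.notUnit (h : Ch F k) : ¬ IsUnit F := by
  intro hu
  obtain ⟨x, hx, hx1⟩ := h.non
  apply hx1
  rw [h.per x 1 (hu.dvd), h.one]

theorem Ch.zero' (h : Ch F k) : k 0 = 0 := by
  apply h.zero
  rw [isCoprime_zero_left]
  exact h.notUnit

theorem Ch.sum_zero (h : Ch F k) : ∑ α ∈ rp F, k α = 0 := by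
  obtain ⟨x, hx, hx1⟩ := h.non
  have h1 := CUL.IsRep.sum_mul (CUL.rp_spec h.F0) hx k h.per
  have h2 : ∑ c ∈ rp F, k (x * c) = k x * ∑ c ∈ rp F, k c := by
    rw [Finset.mul_sum]
    exact Finset.sum_congr rfl fun c _ => h.mul x c
  rw [h2] at h1
  have h3 : (k x - 1) * ∑ c ∈ rp F, k c = 0 := by linear_combination h1
  exact (mul_eq_zero.1 h3).resolve_left (sub_ne_zero.2 hx1)

/-- there is `c₁` with `k c₁ = w` -/
theorem Ch.exists_w (h : Ch F k) : ∃ c, IsCoprime c F ∧ k c = w := by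
  obtain ⟨x, hx, hx1⟩ := h.non
  rcases h.cases hx with h1 | h1 | h1
  · exact absurd h1 hx1
  · exact ⟨x, hx, h1⟩
  · refine ⟨x * x, hx.mul_left hx, ?_⟩
    rw [h.mul, h1]
    have hw3 := CUL.w3
    linear_combination w * hw3

theorem Ch.nl (h : Ch F k) {α : Eis} (hα : IsCoprime α F) : Nl (emb α / emb F) := by
  rintro ⟨a, ha⟩
  rw [eq_div_iff (CUL.l2_emb_ne h.F0), ← map_mul] at ha
  have h1 := emb_injective ha
  exact h.notUnit (hα.isUnit_of_dvd' ⟨a, by rw [← h1]; ring⟩ dvd_rfl)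

/-- the character restricted to the classes prime to `F * m` -/
theorem Ch.mono (h : Ch F k) {m : Eis} (hm : m ≠ 0) (hn : ∃ x, IsCoprime x (F * m) ∧ k x ≠ 1) :
    Ch (F * m) (fun x => if IsCoprime x (F * m) then k x else 0) := by
  have hdom := eis_isDomain
  refine ⟨mul_ne_zero h.F0 hm, fun x hx => if_neg hx, fun x hx => ?_, fun x y => ?_, fun x y hxy => ?_, ?_⟩
  · show (if IsCoprime x (F * m) then k x else 0) ^ 3 = 1
    rw [if_pos hx]
    exact h.cube x hx.of_mul_right_left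
  · show (if IsCoprime (x * y) (F * m) then k (x * y) else 0) =
      (if IsCoprime x (F * m) then k x else 0) * (if IsCoprime y (F * m) then k y else 0)
    by_cases hx : IsCoprime x (F * m)
    · by_cases hy : IsCoprime y (F * m)
      · rw [if_pos (hx.mul_left hy), if_pos hx, if_pos hy, h.mul]
      · rw [if_neg hy, if_neg (fun hc => hy hc.of_mul_left_right), mul_zero]
    · rw [if_neg hx, if_neg (fun hc => hx hc.of_mul_left_left), zero_mul]
  · have h1 : IsCoprime x (F * m) ↔ IsCoprime y (F * m) := by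
      obtain ⟨t, ht⟩ := hxy
      have e : x = y + t * (F * m) := by linear_combination ht
      rw [e]
      exact IsCoprime.add_mul_right_left_iff
    show (if IsCoprime x (F * m) then k x else 0) = (if IsCoprime y (F * m) then k y else 0)
    have h2 : k x = k y := h.per x y (dvd_of_mul_right_dvd hxy)
    simp only [h1, h2]
  · obtain ⟨x, hx, hx1⟩ := hn
    refine ⟨x, hx, ?_⟩
    show (if IsCoprime x (F * m) then k x else 0) ≠ 1
    rw [if_pos hx]
    exact hx1

/-! ### [J2E-A1b] -/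

theorem a1b_filter (h : Ch F k) (u : ℝ) : SF F k u =
    ∑ α ∈ (rp F).filter (fun α => IsCoprime α F), k α * ((NAB.Ak 0 u (emb α / emb F) : ℝ) : ℂ) := by
  symm
  refine Finset.sum_subset (Finset.filter_subset _ _) ?_
  intro x hx hx'
  have h1 : ¬ IsCoprime x F := fun hc => hx' (Finset.mem_filter.2 ⟨hx, hc⟩)
  rw [h.zero x h1, zero_mul]

theorem a1b_large (h : Ch F k) : ∃ C κ : ℝ, 0 < C ∧ 0 < κ ∧ ∀ u : ℝ, 1 ≤ u → ‖SF F k u‖ ≤ C * Real.exp (-(κ * u)) := by
  have key : ∀ S : Finset Eis, (∀ α ∈ S, IsCoprime α F) → ∃ C κ : ℝ, 0 < C ∧ 0 < κ ∧ ∀ u : ℝ, 1 ≤ u →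
      ‖∑ α ∈ S, k α * ((NAB.Ak 0 u (emb α / emb F) : ℝ) : ℂ)‖ ≤ C * Real.exp (-(κ * u)) := by
    intro S
    induction S using Finset.induction_on with
    | empty =>
      intro _
      refine ⟨1, 1, one_pos, one_pos, fun u _ => ?_⟩
      rw [Finset.sum_empty, norm_zero]
      positivity
    | insert a S ha ih =>
      intro hS
      obtain ⟨C, κ, hC, hκ, hb⟩ := ih fun α hα => hS α (Finset.mem_insert_of_mem hα)
      obtain ⟨δ, hδ, hg⟩ := NAB.a2a_gap (emb a / emb F) (h.nl (hS a (Finset.mem_insert_self _ _)))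
      obtain ⟨C1, κ1, hC1, hκ1, h1⟩ := JL.Ak_gap 0 hδ
      refine ⟨2 * C1 + C, min κ1 κ, by positivity, lt_min hκ1 hκ, fun u hu => ?_⟩
      have hu0 : 0 < u := by linarith
      have h3 := h1 _ hg u hu0
      have h4 : (1 + 1 / u) ^ (0 + 1) ≤ 2 := by
        have : 1 / u ≤ 1 := by
          rw [div_le_iff₀ hu0]
          linarith
        rw [zero_add, pow_one]
        linarith
      have hE : ∀ κ' : ℝ, min κ1 κ ≤ κ' → Real.exp (-(κ' * u)) ≤ Real.exp (-(min κ1 κ * u)) := by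
        intro κ' hκ'
        apply Real.exp_le_exp.2
        have := mul_le_mul_of_nonneg_right hκ' hu0.le
        linarith
      have e1 := hE κ1 (min_le_left _ _)
      have e2 := hE κ (min_le_right _ _)
      have h5 : NAB.Ak 0 u (emb a / emb F) ≤ 2 * C1 * Real.exp (-(min κ1 κ * u)) := by
        have h6 : C1 * (1 + 1 / u) ^ (0 + 1) ≤ C1 * 2 := mul_le_mul_of_nonneg_left h4 hC1.le
        have h7 := mul_le_mul h6 e1 (Real.exp_pos _).le (by positivity)
        linarith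
      rw [Finset.sum_insert ha, add_mul]
      refine (norm_add_le _ _).trans (add_le_add ?_ ?_)
      · rw [norm_mul, Complex.norm_real, Real.norm_of_nonneg (NAB.Ak_nonneg _ _ _)]
        have h8 := mul_le_mul (h.norm_le a) h5 (NAB.Ak_nonneg _ _ _) zero_le_one
        rwa [one_mul] at h8
      · exact (hb u hu).trans (mul_le_mul_of_nonneg_left e2 hC.le)
  obtain ⟨C, κ, hC, hκ, hb⟩ := key ((rp F).filter (fun α => IsCoprime α F)) fun α hα => (Finset.mem_filter.1 hα).2
  exact ⟨C, κ, hC, hκ, fun u hu => by rw [a1b_filter h]; exact hb u hu⟩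

theorem a1b_small (h : Ch F k) : ∃ C κ : ℝ, 0 < C ∧ 0 < κ ∧ ∀ u : ℝ, 0 < u → u ≤ 1 →
    ‖(u : ℂ) * SF F k u‖ ≤ C * Real.exp (-(κ / u)) := by
  obtain ⟨C2, κ2, hC2, hκ2, h2⟩ := NAB.T0_small
  refine ⟨((rp F).card + 1) * (2 * C2), κ2, by positivity, hκ2, fun u hu hu1 => ?_⟩
  have e1 : (u : ℂ) * SF F k u = ∑ α ∈ rp F, k α * ((u : ℂ) * NAB.Tk 0 u (emb α / emb F) - 1 / (NAB.A0 : ℂ)) := by
    have h3 := h.sum_zero
    unfold SF
    simp only [mul_sub, Finset.sum_sub_distrib]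
    rw [← Finset.sum_mul, h3, zero_mul, sub_zero, Finset.mul_sum]
    refine Finset.sum_congr rfl fun α _ => ?_
    rw [JL.GX_Tk hu]
    ring
  rw [e1]
  refine (norm_sum_le _ _).trans ?_
  have e2 : ∀ α ∈ rp F, ‖k α * ((u : ℂ) * NAB.Tk 0 u (emb α / emb F) - 1 / (NAB.A0 : ℂ))‖ ≤
      2 * C2 * Real.exp (-(κ2 / u)) := by
    intro α _
    rw [norm_mul]
    have h3 := h2 u hu (emb α / emb F)
    have h4 : C2 * (1 + u) * Real.exp (-(κ2 / u)) ≤ 2 * C2 * Real.exp (-(κ2 / u)) := by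
      apply mul_le_mul_of_nonneg_right _ (Real.exp_pos _).le
      have := mul_le_mul_of_nonneg_left (by linarith : 1 + u ≤ 2) hC2.le
      linarith
    have h5 := mul_le_mul (h.norm_le α) (h3.trans h4) (norm_nonneg _) zero_le_one
    rwa [one_mul] at h5
  refine (Finset.sum_le_card_nsmul _ _ _ e2).trans ?_
  rw [nsmul_eq_mul]
  have : 0 ≤ 2 * C2 * Real.exp (-(κ2 / u)) := by positivity
  nlinarith

theorem SF_bound (h : Ch F k) : ∃ C κ : ℝ, 0 < C ∧ 0 < κ ∧ ∀ u : ℝ, 0 < u →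
    ‖SF F k u‖ ≤ C * Real.exp (-(κ * (u + 1 / u))) := by
  obtain ⟨C1, κ1, hC1, hκ1, h1⟩ := a1b_large h
  obtain ⟨C2, κ2, hC2, hκ2, h2⟩ := a1b_small h
  refine ⟨C1 + 2 * C2 / κ2, min (κ1 / 2) (κ2 / 4), by positivity,
    lt_min (by positivity) (by positivity), fun u hu => ?_⟩
  set κ := min (κ1 / 2) (κ2 / 4) with hκ
  have hκ0 : 0 < κ := lt_min (by positivity) (by positivity)
  have hκa : κ ≤ κ1 / 2 := min_le_left _ _
  have hκb : κ ≤ κ2 / 4 := min_le_right _ _
  have hE : 0 < Real.exp (-(κ * (u + 1 / u))) := Real.exp_pos _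
  rcases le_or_gt 1 u with hu1 | hu1
  · have h7 := JL.k1_large hκa hκ0 hu1
    calc ‖SF F k u‖ ≤ C1 * Real.exp (-(κ1 * u)) := h1 u hu1
      _ ≤ C1 * Real.exp (-(κ * (u + 1 / u))) := mul_le_mul_of_nonneg_left h7 hC1.le
      _ ≤ (C1 + 2 * C2 / κ2) * Real.exp (-(κ * (u + 1 / u))) := by
          apply mul_le_mul_of_nonneg_right _ hE.le
          have : 0 < 2 * C2 / κ2 := by positivity
          linarith
  · have h4 := h2 u hu hu1.le
    rw [norm_mul, Complex.norm_real, Real.norm_of_nonneg hu.le] at h4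
    have h7 : ‖SF F k u‖ ≤ 1 / u * (C2 * Real.exp (-(κ2 / u))) := by
      rw [one_div, ← div_eq_inv_mul, le_div_iff₀ hu]
      linarith
    have h8 : Real.exp (-(κ2 / u)) = Real.exp (-(κ2 / 2 / u)) * Real.exp (-(κ2 / 2 / u)) := by
      rw [← Real.exp_add]
      congr 1
      ring
    have h9 := JL.k1_inv (c := κ2 / 2) (by positivity) hu
    have h10 : Real.exp (-(κ2 / 2 / u)) ≤ Real.exp (-(κ * (u + 1 / u))) :=
      JL.k1_small (by linarith) hκ0 hu hu1.le
    calc ‖SF F k u‖ ≤ 1 / u * (C2 * Real.exp (-(κ2 / u))) := h7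
      _ = C2 * (1 / u * Real.exp (-(κ2 / 2 / u))) * Real.exp (-(κ2 / 2 / u)) := by
          rw [h8]; ring
      _ ≤ C2 * (1 / (κ2 / 2)) * Real.exp (-(κ2 / 2 / u)) :=
          mul_le_mul_of_nonneg_right (mul_le_mul_of_nonneg_left h9 (by positivity))
            (Real.exp_pos _).le
      _ = 2 * C2 / κ2 * Real.exp (-(κ2 / 2 / u)) := by
          congr 1
          field_simp
      _ ≤ 2 * C2 / κ2 * Real.exp (-(κ * (u + 1 / u))) :=
          mul_le_mul_of_nonneg_left h10 (by positivity)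
      _ ≤ (C1 + 2 * C2 / κ2) * Real.exp (-(κ * (u + 1 / u))) := by
          apply mul_le_mul_of_nonneg_right _ hE.le
          linarith

theorem SF_cont (F : Eis) (k : Eis → ℂ) : ContinuousOn (SF F k) (Ioi 0) := by
  unfold SF
  exact continuousOn_finsetSum _ fun α _ =>
    continuousOn_const.mul (Complex.continuous_ofReal.comp_continuousOn (JL.k1_cont _))

theorem SF_int (h : Ch F k) : IntegrableOn (fun u : ℝ => SF F k u / (u : ℂ)) (Ioi 0) := by
  obtain ⟨C, κ, hC, hκ, hb'⟩ := SF_bound h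
  have hcont : ContinuousOn (fun u : ℝ => SF F k u / (u : ℂ)) (Ioi 0) :=
    (SF_cont F k).div Complex.continuous_ofReal.continuousOn fun u hu => by
      have : (u : ℝ) ≠ 0 := ne_of_gt hu
      exact_mod_cast this
  have hint : IntegrableOn (fun u : ℝ => C / κ * Real.exp (-κ * u)) (Ioi 0) :=
    (exp_neg_integrableOn_Ioi 0 hκ).const_mul _
  refine Integrable.mono' hint (hcont.aestronglyMeasurable measurableSet_Ioi) ?_
  refine (ae_restrict_iff' measurableSet_Ioi).2 (Filter.Eventually.of_forall fun u hu => ?_)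
  have hu0 : 0 < u := hu
  rw [norm_div, Complex.norm_real, Real.norm_of_nonneg hu0.le]
  have h1 := hb' u hu0
  have h2 : Real.exp (-(κ * (u + 1 / u))) = Real.exp (-κ * u) * Real.exp (-(κ / u)) := by
    rw [← Real.exp_add]
    congr 1
    ring
  have h3 := JL.k1_inv hκ hu0
  calc ‖SF F k u‖ / u ≤ C * Real.exp (-(κ * (u + 1 / u))) / u :=
        div_le_div_of_nonneg_right h1 hu0.le
    _ = C * Real.exp (-κ * u) * (1 / u * Real.exp (-(κ / u))) := by
        rw [h2]; ring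
    _ ≤ C * Real.exp (-κ * u) * (1 / κ) := mul_le_mul_of_nonneg_left h3 (by positivity)
    _ = C / κ * Real.exp (-κ * u) := by ring

end J2E
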