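import Pool.Agent.J2E.A1

/-!
# [J2E-A2] the distribution relation of the theta function, change of the level

PROOF. `dist`: `∑_{t mod p} T₀(u, (z + t)/p) = ∑_t ∑_a exp(-π u |z + t + p a|² / |p|²)`, and `(t, a) ↦ t + p a` is a bijection `rp p × Eis ≃ Eis`
(`CUL.IsRep.bij`, `CUL.rp_spec`); `NAB.Ak_summable`.
`SF_mul`: (`k` periodic modulo `F`) the classes modulo `F p` are `α + F t`, `α mod F`, `t mod p`; `(α + F t)/(F p) = (α/F + t)/p`. So
`∑_{β mod F p} k(β) T₀(u, β/(F p)) = ∑_α k(α) T₀(u/|p|², α/F)`. (`IsRep` of the set of the `α + F t`: see the proof of `CUL.IsRep.crt`; `CUL.IsRep.sum_eq`.)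
`SF_step`: `k' = k` on the classes prime to `F p`, `0` elsewhere. `∑_β k'(β) T₀ = ∑_β k(β) T₀ - ∑_{β, p ∣ β} k(β) T₀` (if `p ∤ F`: `β` prime to `F` but not to `F p` iff `β` prime to `F` and `p ∣ β`,
`β = p β'`, `β'` modulo `F`, `k β = k p k β'`, `β/(F p) = β'/F`; if `p ∣ F`: `k p = 0` and `k β = 0` for `p ∣ β`, so the formula holds too).
`IF_step`: substitution `u → u N(p)` in `∫ SF(u/N(p)) du/u` (`integral_comp_mul_left_Ioi` or `integral_comp_div..`), `SF_int`.
-/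

set_option autoImplicit false

open MeasureTheory Set Filter Topology
open scoped Classical ComplexConjugate

namespace J2E

open CM27 JZ
open CU (la eE)
open CUL (Nl ta rp IsRep zw GalU)
open JGL (GalP)

open CUL (l2_emb_ne)

variable {F p : Eis} {k k' : Eis → ℂ}

theorem a2a_npos (hp : p ≠ 0) : (0 : ℝ) < (p.norm : ℝ) := by
  have h := norm_pos_iff.2 (l2_emb_ne hp)
  rw [← norm_emb_sq]
  positivity

theorem dist (hp : p ≠ 0) {u : ℝ} (hu : 0 < u) (z : ℂ) :
    ∑ t ∈ rp p, NAB.Ak 0 u ((z + emb t) / emb p) = NAB.Ak 0 (u / (p.norm : ℝ)) z := by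
  have hN := a2a_npos hp
  have hp' := l2_emb_ne hp
  obtain ⟨F, hF⟩ : ∃ F : Eis → ℝ, F = fun b => ‖z + emb b‖ ^ 0 *
    Real.exp (-(Real.pi * (u / (p.norm : ℝ)) * ‖z + emb b‖ ^ 2)) := ⟨_, rfl⟩
  have hf : Summable F := by
    rw [hF]
    exact NAB.Ak_summable 0 (div_pos hu hN) z
  have h1 : NAB.Ak 0 (u / (p.norm : ℝ)) z = ∑' b, F b := by
    rw [hF, NAB.Ak]
  obtain ⟨e, he⟩ : ∃ e : rp p × Eis ≃ Eis, ∀ q : rp p × Eis, e q = (q.1 : Eis) + p * q.2 :=
    ⟨Equiv.ofBijective _ (CUL.IsRep.bij hp (CUL.rp_spec hp)), fun q => rfl⟩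
  have hs : Summable fun q : rp p × Eis => F (e q) := e.summable_iff.2 hf
  have h2 : ∑' q : rp p × Eis, F (e q) = ∑' b, F b := e.tsum_eq F
  rw [h1, ← h2, hs.tsum_prod, tsum_fintype, ← Finset.sum_coe_sort]
  refine Finset.sum_congr rfl fun t _ => ?_
  rw [NAB.Ak]
  refine tsum_congr fun a => ?_
  rw [he, hF]
  simp only [pow_zero, one_mul]
  congr 1
  have e1 : (z + emb t) / emb p + emb a = (z + emb (t + p * a)) / emb p := by
    rw [map_add, map_mul]
    field_simp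
    ring
  rw [e1, norm_div, div_pow, norm_emb_sq p]
  field_simp

theorem a2a_rep (hF : F ≠ 0) (hp : p ≠ 0) : IsRep (F * p) ((rp F ×ˢ rp p).image fun q : Eis × Eis => q.1 + F * q.2) ∧
    Set.InjOn (fun q : Eis × Eis => q.1 + F * q.2) ((rp F ×ˢ rp p : Finset (Eis × Eis)) : Set (Eis × Eis)) := by
  have hdom := eis_isDomain
  have h := CUL.rp_spec hF
  have h' := CUL.rp_spec hp
  have key : ∀ a c d : Eis, F * p ∣ a - (c + F * d) → F ∣ a - c := by
    rintro a c d ⟨t, ht⟩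
    exact ⟨d + p * t, by linear_combination ht⟩
  have key2 : ∀ a c d d' : Eis, F * p ∣ a - (c + F * d) → F * p ∣ a - (c + F * d') → p ∣ d' - d := by
    rintro a c d d' ⟨t, ht⟩ ⟨t', ht'⟩
    refine ⟨t - t', ?_⟩
    apply mul_left_cancel₀ hF
    linear_combination ht - ht'
  refine ⟨?_, ?_⟩
  · intro a
    obtain ⟨c, ⟨hc, t, ht⟩, hu⟩ := h a
    obtain ⟨d, ⟨hd, s, hs⟩, hv⟩ := h' t
    refine ⟨c + F * d, ⟨Finset.mem_image.2 ⟨(c, d), Finset.mem_product.2 ⟨hc, hd⟩, rfl⟩, ?_⟩, ?_⟩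
    · exact ⟨s, by linear_combination ht + F * hs⟩
    · rintro e ⟨he, hde⟩
      obtain ⟨⟨c', d'⟩, hcd, rfl⟩ := Finset.mem_image.1 he
      rw [Finset.mem_product] at hcd
      have h1 : c' = c := hu c' ⟨hcd.1, key a c' d' hde⟩
      have hd1 : F * p ∣ a - (c' + F * d') := hde
      rw [h1] at hd1
      have h2 : p ∣ t - d' := by
        obtain ⟨r, hr⟩ := hd1
        refine ⟨r, ?_⟩
        apply mul_left_cancel₀ hF
        linear_combination hr - ht
      have h3 : d' = d := hv d' ⟨hcd.2, h2⟩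
      show c' + F * d' = c + F * d
      rw [h1, h3]
  · rintro ⟨c, d⟩ hq ⟨c', d'⟩ hq' he
    rw [Finset.mem_coe, Finset.mem_product] at hq hq'
    have he' : c + F * d = c' + F * d' := he
    have h1 : c = c' := (h (c + F * d)).unique ⟨hq.1, ⟨d, by ring⟩⟩ ⟨hq'.1, ⟨d', by rw [he']; ring⟩⟩
    subst h1
    have h2 : F * d = F * d' := by linear_combination he'
    rw [mul_left_cancel₀ hF h2]

theorem a2a_div_per (hF : F ≠ 0) (u : ℝ) {a b : Eis} (h : F ∣ a - b) :
    NAB.Ak 0 u (emb a / emb F) = NAB.Ak 0 u (emb b / emb F) := by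
  obtain ⟨t, ht⟩ := h
  have hF' := l2_emb_ne hF
  have h1 : emb a / emb F = emb b / emb F + emb t := by
    have h2 : a = b + F * t := by linear_combination ht
    rw [h2, map_add, map_mul]
    field_simp
  rw [h1, NAB.Ak_per]

theorem SF_mul (hF : F ≠ 0) (hp : p ≠ 0) (k : Eis → ℂ) (hk : ∀ x y, F ∣ x - y → k x = k y) {u : ℝ} (hu : 0 < u) :
    SF (F * p) k u = SF F k (u / (p.norm : ℝ)) := by
  have hdom := eis_isDomain
  have hFp : F * p ≠ 0 := mul_ne_zero hF hp
  have hF' := l2_emb_ne hF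
  have hp' := l2_emb_ne hp
  obtain ⟨h1, h2⟩ := a2a_rep hF hp
  unfold SF
  rw [CUL.IsRep.sum_eq (CUL.rp_spec hFp) h1 (fun β => k β * ((NAB.Ak 0 u (emb β / emb (F * p)) : ℝ) : ℂ)) (fun a b hab => by
    rw [hk a b (dvd_of_mul_right_dvd hab), a2a_div_per hFp u hab]), Finset.sum_image h2, Finset.sum_product]
  refine Finset.sum_congr rfl fun α _ => ?_
  rw [← dist hp hu, Complex.ofReal_sum, Finset.mul_sum]
  refine Finset.sum_congr rfl fun t _ => ?_
  have e1 : k (α + F * t) = k α := hk _ _ ⟨t, by ring⟩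
  have e2 : emb (α + F * t) / emb (F * p) = (emb α / emb F + emb t) / emb p := by
    rw [map_add, map_mul, map_mul]
    field_simp
  show k (α + F * t) * ((NAB.Ak 0 u (emb (α + F * t) / emb (F * p)) : ℝ) : ℂ) = _
  rw [e1, e2]

theorem a2b_sub (h : Ch F k) (hp : Prime p) (h' : Ch (F * p) k') (hk : ∀ x, IsCoprime x (F * p) → k' x = k x) (β : Eis) :
    k β - k' β = if p ∣ β then k β else 0 := by
  have hpid := eis_pid
  have hdom := eis_isDomain
  by_cases hF : IsCoprime β F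
  · split_ifs with hpb
    · have h1 : ¬ IsCoprime β (F * p) := by
        intro hc
        exact hp.not_isUnit ((hc.of_mul_right_right).isUnit_of_dvd' hpb dvd_rfl)
      rw [h'.zero β h1, sub_zero]
    · have h1 : IsCoprime β (F * p) := by
        refine IsCoprime.mul_right hF ?_
        exact ((hp.irreducible.coprime_iff_not_dvd).2 hpb).symm
      rw [hk β h1, sub_self]
  · have h1 : ¬ IsCoprime β (F * p) := fun hc => hF hc.of_mul_right_left
    rw [h.zero β hF, h'.zero β h1, sub_zero]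
    split_ifs <;> rfl

theorem a2b_sum (h : Ch F k) (hp : Prime p) (u : ℝ) :
    ∑ β ∈ rp (F * p), (if p ∣ β then k β else 0) * ((NAB.Ak 0 u (emb β / emb (F * p)) : ℝ) : ℂ) = k p * SF F k u := by
  have hpid := eis_pid
  have hdom := eis_isDomain
  have hF := h.F0
  have hp0 : p ≠ 0 := hp.ne_zero
  have hFp : F * p ≠ 0 := mul_ne_zero hF hp0
  have hF' := l2_emb_ne hF
  have hp' := l2_emb_ne hp0
  by_cases hpF : p ∣ F
  · have hz : ∀ β : Eis, p ∣ β → k β = 0 := by
      intro β hβ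
      exact h.zero β fun hc => hp.not_isUnit (hc.isUnit_of_dvd' hβ hpF)
    rw [hz p dvd_rfl, zero_mul]
    refine Finset.sum_eq_zero fun β _ => ?_
    split_ifs with hb
    · rw [hz β hb, zero_mul]
    · rw [zero_mul]
  · have hcop : IsCoprime F p := ((hp.irreducible.coprime_iff_not_dvd).2 hpF).symm
    rw [CUL.IsRep.crt hcop (CUL.rp_spec hF) (CUL.rp_spec hp0)
      (fun β => (if p ∣ β then k β else 0) * ((NAB.Ak 0 u (emb β / emb (F * p)) : ℝ) : ℂ)) (CUL.rp_spec hFp)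
      (fun a b hab => ?_)]
    · rw [SF, Finset.mul_sum]
      refine Finset.sum_congr rfl fun c _ => ?_
      obtain ⟨d₀, ⟨hd₀, hdd⟩, hu⟩ := CUL.rp_spec hp0 0
      have hpd : p ∣ d₀ := by
        have := hdd
        rw [zero_sub, dvd_neg] at this
        exact this
      rw [Finset.sum_eq_single_of_mem d₀ hd₀]
      · have h1 : p ∣ c * p + d₀ * F := dvd_add (dvd_mul_left _ _) (hpd.mul_right _)
        rw [if_pos h1]
        have h2 : k (c * p + d₀ * F) = k p * k c := by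
          rw [h.per (c * p + d₀ * F) (p * c) ⟨d₀, by ring⟩, h.mul]
        obtain ⟨d, hd⟩ := hpd
        have h3 : emb (c * p + d₀ * F) / emb (F * p) = emb c / emb F + emb d := by
          rw [hd, map_add, map_mul, map_mul, map_mul, map_mul]
          field_simp
        rw [h2, h3, NAB.Ak_per, mul_assoc]
      · intro d hd hne
        have h1 : ¬ p ∣ c * p + d * F := by
          intro hdv
          have h2 : p ∣ d * F := (dvd_add_right (dvd_mul_left p c)).1 hdv
          rcases hp.dvd_or_dvd h2 with h3 | h3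
          · exact hne (hu d ⟨hd, by rw [zero_sub, dvd_neg]; exact h3⟩)
          · exact hpF h3
        rw [if_neg h1, zero_mul]
    · have h1 : p ∣ a ↔ p ∣ b := by
        have h2 : p ∣ a - b := (dvd_mul_left p F).trans hab
        exact (dvd_iff_dvd_of_dvd_sub h2)
      show (if p ∣ a then k a else 0) * _ = (if p ∣ b then k b else 0) * _
      rw [a2a_div_per hFp u hab]
      have h3 : k a = k b := h.per a b (dvd_of_mul_right_dvd hab)
      simp only [h1, h3]

theorem SF_step (h : Ch F k) (hp : Prime p) (h' : Ch (F * p) k') (hk : ∀ x, IsCoprime x (F * p) → k' x = k x)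
    {u : ℝ} (hu : 0 < u) : SF (F * p) k' u = SF F k (u / (p.norm : ℝ)) - k p * SF F k u := by
  have h1 := a2b_sum h hp u
  rw [← SF_mul h.F0 hp.ne_zero k h.per hu, ← h1]
  unfold SF
  rw [← Finset.sum_sub_distrib]
  refine Finset.sum_congr rfl fun β _ => ?_
  rw [← a2b_sub h hp h' hk β]
  ring

theorem IF_step (h : Ch F k) (hp : Prime p) (h' : Ch (F * p) k') (hk : ∀ x, IsCoprime x (F * p) → k' x = k x) :
    IF (F * p) k' = (1 - k p) * IF F k := by
  have hN := a2a_npos hp.ne_zero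
  have hNi : (0 : ℝ) < (p.norm : ℝ)⁻¹ := inv_pos.2 hN
  have hi := SF_int h
  have e0 : ∀ u : ℝ, SF F k (u / (p.norm : ℝ)) / (u : ℂ) =
      (((p.norm : ℝ)⁻¹ : ℝ) : ℂ) * (SF F k ((p.norm : ℝ)⁻¹ * u) / (((p.norm : ℝ)⁻¹ * u : ℝ) : ℂ)) := by
    intro u
    have hN' : ((p.norm : ℤ) : ℂ) ≠ 0 := by
      have : (p.norm : ℤ) ≠ 0 := by exact_mod_cast hN.ne'
      exact_mod_cast this
    have e1 : (p.norm : ℝ)⁻¹ * u = u / (p.norm : ℝ) := by rw [div_eq_inv_mul]
    rw [e1]
    push_cast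
    rcases eq_or_ne (u : ℂ) 0 with h0 | h0
    · rw [h0]; simp
    · field_simp
  have hi2 : IntegrableOn (fun u : ℝ => SF F k ((p.norm : ℝ)⁻¹ * u) / (((p.norm : ℝ)⁻¹ * u : ℝ) : ℂ)) (Ioi 0) := by
    have := (integrableOn_Ioi_comp_mul_left_iff (fun u : ℝ => SF F k u / (u : ℂ)) 0 hNi).2 (by rw [mul_zero]; exact hi)
    exact this
  have e2 : ∫ u in Ioi (0 : ℝ), SF F k ((p.norm : ℝ)⁻¹ * u) / (((p.norm : ℝ)⁻¹ * u : ℝ) : ℂ) = (p.norm : ℝ) • IF F k := by
    have := integral_comp_mul_left_Ioi (fun u : ℝ => SF F k u / (u : ℂ)) 0 hNi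
    rw [mul_zero, inv_inv] at this
    exact this
  have e3 : IF (F * p) k' = ∫ u in Ioi (0 : ℝ), ((((p.norm : ℝ)⁻¹ : ℝ) : ℂ) *
      (SF F k ((p.norm : ℝ)⁻¹ * u) / (((p.norm : ℝ)⁻¹ * u : ℝ) : ℂ)) - k p * (SF F k u / (u : ℂ))) := by
    unfold IF
    refine setIntegral_congr_fun measurableSet_Ioi fun u hu => ?_
    show SF (F * p) k' u / (u : ℂ) = _
    rw [← e0 u, SF_step h hp h' hk hu]
    ring
  rw [e3, integral_sub (hi2.const_mul _) (hi.const_mul _), integral_const_mul, integral_const_mul, e2]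
  have e4 : ∫ u in Ioi (0 : ℝ), SF F k u / (u : ℂ) = IF F k := rfl
  rw [e4, Complex.real_smul]
  have hN' : ((p.norm : ℤ) : ℂ) ≠ 0 := by
    have : (p.norm : ℤ) ≠ 0 := by exact_mod_cast hN.ne'
    exact_mod_cast this
  push_cast
  field_simp

end J2E
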