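import Pool.Agent.J2E.A2

/-!
# [J2E-A3] from the primitive level to the level `F`

PROOF. `g ∣ F`, `F = g m`, induction over the prime factorization of `m` (`UniqueFactorizationMonoid.induction_on_prime` or `WfDvdMonoid.induction_on_irreducible`; `eis_isDomain`, `eis_pid`) with `IF_step`; the
intermediate characters are `Ch.mono` (non trivial because `k'` is: `h'.non`). Factors: `k p = 0` (`p ∣ g`): `|1 - 0| = 1`; `k p = w, w²`: `|1 - w|² = 3`; a factor which occurs again: `k'' p = 0` there.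
A unit `m`: `IF (g m) k' = IF g k` for a unit `m` (`SF_mul` with `p = m` of norm one).
-/

set_option autoImplicit false

open MeasureTheory Set Filter Topology
open scoped Classical ComplexConjugate

namespace J2E

open CM27 JZ
open CU (la eE)
open CUL (Nl ta rp IsRep zw GalU)
open JGL (GalP)

variable {g F : Eis} {k k' : Eis → ℂ}

theorem a3_norm_unit {m : Eis} (hm : IsUnit m) : ((m.norm : ℤ) : ℝ) = 1 := by
  have h1 := CUL.z_norm_unit hm
  have h2 := norm_emb_sq m
  rw [h1] at h2
  linarith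

/-- a unit `m` -/
theorem a3_unit {m : Eis} (hm : IsUnit m) (h : Ch g k) (h' : Ch (g * m) k')
    (hk : ∀ x, IsCoprime x (g * m) → k' x = k x) : IF (g * m) k' = IF g k := by
  have hc : ∀ x : Eis, IsCoprime x g → IsCoprime x (g * m) := fun x hx =>
    IsCoprime.mul_right hx ⟨0, (hm.unit⁻¹ : Eisˣ), by
      have := hm.val_inv_mul
      rw [zero_mul, zero_add]
      exact this⟩
  have hkk : k' = k := by
    funext x
    by_cases hx : IsCoprime x (g * m)
    · exact hk x hx
    · rw [h'.zero x hx, h.zero x (fun hx' => hx (hc x hx'))]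
  rw [hkk]
  unfold IF
  refine setIntegral_congr_fun measurableSet_Ioi fun u hu => ?_
  have h1 := SF_mul h.F0 hm.ne_zero k h.per hu
  rw [a3_norm_unit hm, div_one] at h1
  simp only [h1]

theorem a3_factor (h : Ch g k) {p : Eis} (hp : k p ≠ 1) : ∃ r : ℕ, ‖1 - k p‖ ^ 2 = 3 ^ r := by
  by_cases hx : IsCoprime p g
  · refine ⟨1, ?_⟩
    have hw2 : w ^ 2 = -1 - w := CUL.w2
    have key : ∀ z : ℂ, (z = w ∨ z = w ^ 2) → ‖1 - z‖ ^ 2 = 3 := by
      intro z hz
      have hs : (Real.sqrt 3) ^ 2 = 3 := Real.sq_sqrt (by norm_num)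
      have hre : w.re = -1 / 2 := rfl
      have him : w.im = √3 / 2 := rfl
      rw [← Complex.normSq_eq_norm_sq, Complex.normSq_apply]
      rcases hz with rfl | rfl
      · simp only [Complex.sub_re, Complex.one_re, Complex.sub_im, Complex.one_im, hre, him]
        nlinarith
      · rw [hw2]
        simp only [Complex.sub_re, Complex.one_re, Complex.sub_im, Complex.one_im, hre, him,
          Complex.neg_re, Complex.neg_im]
        nlinarith
    rw [pow_one]
    rcases h.cases hx with h1 | h1 | h1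
    · exact absurd h1 hp
    · exact key _ (Or.inl h1)
    · exact key _ (Or.inr h1)
  · refine ⟨0, ?_⟩
    rw [h.zero p hx]
    simp

theorem a3_main (m : Eis) : ∀ (g : Eis) (k k' : Eis → ℂ), Ch g k → Ch (g * m) k' →
    (∀ x, IsCoprime x (g * m) → k' x = k x) → (∀ p : Eis, Prime p → p ∣ g * m → k p ≠ 1) →
    ∃ r : ℕ, ‖IF (g * m) k'‖ ^ 2 = 3 ^ r * ‖IF g k‖ ^ 2 := by
  have := eis_isDomain
  have := eis_pid
  refine UniqueFactorizationMonoid.induction_on_prime m ?_ ?_ ?_
  · intro g k k' _ h' _ _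
    exact absurd (mul_zero g) h'.F0
  · intro m hm g k k' h h' hk _
    refine ⟨0, ?_⟩
    rw [a3_unit hm h h' hk, pow_zero, one_mul]
  · intro m p hm hp ih g k k' h h' hk hq
    obtain ⟨x, hx, hx1⟩ := h'.non
    have hcop : ∀ y : Eis, IsCoprime y (g * (p * m)) → IsCoprime y (g * p) := by
      intro y hy
      rw [← mul_assoc] at hy
      exact hy.of_mul_right_left
    have h1 : Ch (g * p) (fun y => if IsCoprime y (g * p) then k y else 0) := by
      refine h.mono hp.ne_zero ⟨x, hcop x hx, ?_⟩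
      rw [← hk x hx]
      exact hx1
    have h2 := IF_step h hp h1 (fun y hy => if_pos hy)
    obtain ⟨r₁, hr₁⟩ := a3_factor h (p := p) (hq p hp (by
      rw [← mul_assoc, mul_comm g p, mul_assoc]
      exact dvd_mul_right _ _))
    rw [← mul_assoc] at h'
    obtain ⟨r₂, hr₂⟩ := ih (g * p) _ k' h1 h' (by
      intro y hy
      rw [mul_assoc] at hy
      rw [hk y hy, if_pos (hcop y hy)]) (by
      intro q hq1 hq2
      rw [mul_assoc] at hq2
      split_ifs with hc
      · exact hq q hq1 hq2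
      · exact zero_ne_one)
    refine ⟨r₂ + r₁, ?_⟩
    rw [← mul_assoc, hr₂, h2, norm_mul, mul_pow, hr₁, pow_add]
    ring

theorem IF_level (h : Ch g k) (h' : Ch F k') (hd : g ∣ F) (hk : ∀ x, IsCoprime x F → k' x = k x)
    (hp : ∀ p : Eis, Prime p → p ∣ F → k p ≠ 1) : ∃ r : ℕ, ‖IF F k'‖ ^ 2 = 3 ^ r * ‖IF g k‖ ^ 2 := by
  obtain ⟨m, rfl⟩ := hd
  exact a3_main m g k k' h h' hk hp

end J2E
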