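import Pool.Agent.J2E.A1

/-!
# [J2E-A4] Gauss sums of primitive cubic characters

PROOF. Copy `Pool/Agent/JL/K3.lean` (`JL.psX`, `JL.gauss`, `JL.gauss_norm`; `JL.K3_shift`, `JL.K3_orth` are general) with `k` instead of `q2`. `gauss`: for `b` prime to `g` substitute `α → b⁻¹ α`: `k(b)⁻¹ = conj (k b)`. If a prime `p` divides `b` and `g`:
`u` from `Prim` for `p` (`u ≡ 1 mod g/p`, `k u ≠ 1`): the sum is multiplied by `k u`, so it is `0`.
`gauss_norm`: `∑_b |G(b)|² = N(g) ∑_α |k α|²` (`JL.K3_orth`) and `= |G(1)|² ∑_b |k b|²`.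
-/

set_option autoImplicit false

open MeasureTheory Set Filter Topology
open scoped Classical ComplexConjugate

namespace J2E

open CM27 JZ
open CU (la eE)
open CUL (Nl ta rp IsRep zw GalU)
open JGL (GalP)

open JL (psX)

variable {g : Eis} {k : Eis → ℂ}

/-- the Gauss sum -/
noncomputable def gs (g : Eis) (k : Eis → ℂ) : ℂ := ∑ α ∈ rp g, k α * psX (emb α / emb g)

theorem a4_per (h : Ch g k) (c : Eis) (a b : Eis) (hab : g ∣ a - b) :
    k a * psX (emb a * emb c / emb g) = k b * psX (emb b * emb c / emb g) := by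
  have hf : emb g ≠ 0 := fun h0 => h.F0 (emb_injective (by rw [h0, map_zero]))
  rw [h.per a b hab, JL.K3_shift hf (hab.mul_right c)]

theorem a4_conj (h : Ch g k) {b : Eis} (hb : IsCoprime b g) : conj (k b) * k b = 1 := by
  rw [mul_comm, Complex.mul_conj, Complex.normSq_eq_norm_sq, h.norm hb]
  norm_num

theorem gauss (h : Ch g k) (hp : Prim g k) (b : Eis) :
    ∑ α ∈ rp g, k α * psX (emb α * emb b / emb g) = conj (k b) * gs g k := by
  have hdom := eis_isDomain
  have hpid : IsPrincipalIdealRing Eis := eis_pid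
  have hf0 := h.F0
  have hf : emb g ≠ 0 := fun h0 => hf0 (emb_injective (by rw [h0, map_zero]))
  have hR := CUL.rp_spec hf0
  by_cases hb : IsCoprime b g
  · have h1 : gs g k = ∑ α ∈ rp g, k (b * α) * psX (emb (b * α) * emb 1 / emb g) := by
      rw [IsRep.sum_mul hR hb (fun α => k α * psX (emb α * emb 1 / emb g)) (a4_per h 1)]
      unfold gs
      apply Finset.sum_congr rfl
      intro α _
      rw [map_one, mul_one]
    have h2 : ∀ α, k (b * α) * psX (emb (b * α) * emb 1 / emb g) =
        k b * (k α * psX (emb α * emb b / emb g)) := by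
      intro α
      rw [h.mul, map_one, mul_one, map_mul, mul_comm (emb b) (emb α)]
      ring
    rw [h1, Finset.sum_congr rfl fun α _ => h2 α, ← Finset.mul_sum, ← mul_assoc, a4_conj h hb,
      one_mul]
  · obtain ⟨p, hpp, hpb, hpf⟩ : ∃ p : Eis, Prime p ∧ p ∣ b ∧ p ∣ g := by
      by_contra hcon
      push Not at hcon
      apply hb
      exact isCoprime_of_prime_dvd (fun h0 => hf0 h0.2) hcon
    obtain ⟨m, hm⟩ := hpf
    obtain ⟨u, hu, hum, hqu⟩ := hp p m hpp hm.symm
    have h1 := IsRep.sum_mul hR hu (fun α => k α * psX (emb α * emb b / emb g)) (a4_per h b)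
    have h2 : ∀ α, k (u * α) * psX (emb (u * α) * emb b / emb g) =
        k u * (k α * psX (emb α * emb b / emb g)) := by
      intro α
      have h3 : g ∣ (u * α - α) * b := by
        obtain ⟨j, hj⟩ := hum
        obtain ⟨l, hl⟩ := hpb
        refine ⟨j * l * α, ?_⟩
        have h4 : u * α - α = (u - 1) * α := by ring
        rw [h4, hj, hl, hm]
        ring
      rw [h.mul, JL.K3_shift hf h3]
      ring
    rw [Finset.sum_congr rfl fun α _ => h2 α, ← Finset.mul_sum] at h1
    rw [h.zero b hb, map_zero, zero_mul]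
    have h5 : (k u - 1) * ∑ α ∈ rp g, k α * psX (emb α * emb b / emb g) = 0 := by
      linear_combination h1
    rcases mul_eq_zero.1 h5 with h6 | h6
    · exact absurd (sub_eq_zero.1 h6) hqu
    · exact h6

theorem gauss_norm (h : Ch g k) (hp : Prim g k) : ‖gs g k‖ ^ 2 = (g.norm : ℝ) := by
  have hf0 := h.F0
  have hf : emb g ≠ 0 := fun h0 => hf0 (emb_injective (by rw [h0, map_zero]))
  have hR := CUL.rp_spec hf0
  set Q : ℂ := ∑ α ∈ rp g, k α * conj (k α) with hQ
  set G : Eis → ℂ := fun b => ∑ α ∈ rp g, k α * psX (emb α * emb b / emb g) with hG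
  have h1 : ∑ b ∈ rp g, G b * conj (G b) = Q * (gs g k * conj (gs g k)) := by
    rw [hQ, Finset.sum_mul]
    apply Finset.sum_congr rfl
    intro b _
    have h2 : G b = conj (k b) * gs g k := gauss h hp b
    rw [h2, map_mul, Complex.conj_conj]
    ring
  have h2 : ∑ b ∈ rp g, G b * conj (G b) = ((g.norm : ℤ) : ℂ) * Q := by
    have h3 : ∀ b, G b * conj (G b) = ∑ α ∈ rp g, ∑ β ∈ rp g,
        (k α * conj (k β)) * psX (emb (α - β) * emb b / emb g) := by
      intro b
      show (∑ α ∈ rp g, k α * psX (emb α * emb b / emb g)) *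
        conj (∑ α ∈ rp g, k α * psX (emb α * emb b / emb g)) = _
      rw [map_sum, Finset.sum_mul_sum]
      apply Finset.sum_congr rfl
      intro α _
      apply Finset.sum_congr rfl
      intro β _
      have h4 : psX (emb (α - β) * emb b / emb g) =
          psX (emb α * emb b / emb g) * psX (-(emb β * emb b / emb g)) := by
        rw [← JL.psX_add]
        congr 1
        rw [map_sub]
        ring
      rw [h4, map_mul (starRingEnd ℂ), JL.K3_conj]
      ring
    rw [Finset.sum_congr rfl fun b _ => h3 b, Finset.sum_comm]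
    have h4 : ∀ α ∈ rp g, ∑ b ∈ rp g, ∑ β ∈ rp g,
        (k α * conj (k β)) * psX (emb (α - β) * emb b / emb g) =
        ((g.norm : ℤ) : ℂ) * (k α * conj (k α)) := by
      intro α hα
      rw [Finset.sum_comm]
      have h5 : ∀ β ∈ rp g, ∑ b ∈ rp g,
          (k α * conj (k β)) * psX (emb (α - β) * emb b / emb g) =
          if β = α then ((g.norm : ℤ) : ℂ) * (k α * conj (k α)) else 0 := by
        intro β hβ
        rw [← Finset.mul_sum, JL.K3_orth hf0]
        by_cases hab : β = α
        · rw [if_pos hab, hab, sub_self, if_pos (dvd_zero _)]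
          ring
        · rw [if_neg hab, if_neg (fun hd => hab (CUL.l1_eq hR hα hβ hd).symm), mul_zero]
      rw [Finset.sum_congr rfl h5, Finset.sum_ite_eq' (rp g) α, if_pos hα]
    rw [Finset.sum_congr rfl h4, ← Finset.mul_sum]
  have hQne : Q ≠ 0 := by
    obtain ⟨c, ⟨hc, hcd⟩, -⟩ := hR 1
    have h3 : k c = 1 := by rw [← h.per 1 c hcd, h.one]
    have h4 : (0 : ℝ) < ∑ α ∈ rp g, ‖k α‖ ^ 2 := by
      apply Finset.sum_pos'
      · intro α _
        exact sq_nonneg _
      · exact ⟨c, hc, by rw [h3]; norm_num⟩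
    have h5 : Q = ((∑ α ∈ rp g, ‖k α‖ ^ 2 : ℝ) : ℂ) := by
      rw [hQ, Complex.ofReal_sum]
      apply Finset.sum_congr rfl
      intro α _
      rw [Complex.mul_conj, Complex.normSq_eq_norm_sq]
    rw [h5]
    exact_mod_cast h4.ne'
  have h3 : gs g k * conj (gs g k) = ((g.norm : ℤ) : ℂ) := by
    apply mul_left_cancel₀ hQne
    rw [← h1, h2]
    ring
  rw [Complex.mul_conj, Complex.normSq_eq_norm_sq] at h3
  exact_mod_cast h3

end J2E
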