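import Pool.Agent.J2E.A4

/-!
# [J2E-A5] the limit formula at the primitive level: `|∫ ∑ k(α) T₀(u, α/g) du/u|² = (27/π²) N(g) |L₁|²`

PROOF. Copy `Pool/Agent/JL/K4.lean` (`SG_poisson`; `JL.K4_Ak` is the Poisson formula for `Ak 0`) and `Pool/Agent/JL/K5.lean` or better `Pool/Agent/JGL/KO.lean` (`KO_th`, `KO_bound`, `KO_cont`, `KO_mellin`, `KO_lim`, `KO_subst`).
(1) `SF g k u = gs g k / (A₀ u) ∑_b conj (k b) exp(-(4π/3) N(b)/u)` (`K4_Ak`, `gauss`; `k` periodic). (2) `θ(v) = ∑_b conj (k b) exp(-(4π/3) N(b) v)`: `SF g k (1/v) / v = (gs/A₀) θ(v)`, so `‖θ(v)‖ ≤ C exp(-κ (v + 1/v))` (`SF_bound`), `θ` continuous (`SF_cont`);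
`IF g k = (gs/A₀) ∫ θ = (gs/A₀) mellin θ 1`; for `σ > 1`: `mellin θ σ = Γ(σ) (4π/3)^(-σ) 6 conj (LK k σ)` (`hasSum_mellin`); `σ → 1+`: `mellin θ 1 = (3/(4π)) 6 conj L₁`.
(3) `A₀ = √3/2`: `|IF| = √N(g) (2/√3) (9/(2π)) |L₁| = (3√3/π) √N(g) |L₁|`.
Template for complex values: replace `(L.q b : ℝ)` by `conj (k b)`; `‖conj (k b)‖ ≤ 1`; `k 0 = 0`.
-/

set_option autoImplicit false

open MeasureTheory Set Filter Topology
open scoped Classical ComplexConjugate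

namespace J2E

open CM27 JZ
open CU (la eE)
open CUL (Nl ta rp IsRep zw GalU)
open JGL (GalP)

variable {g : Eis} {k : Eis → ℂ}

theorem IF_poisson (h : Ch g k) (hp : Prim g k) {u : ℝ} (hu : 0 < u) :
    SF g k u = gs g k / ((NAB.A0 : ℂ) * u) *
      ∑' b : Eis, conj (k b) * ((Real.exp (-(4 * Real.pi / 3 * (b.norm : ℝ) / u)) : ℝ) : ℂ) := by
  have h1 : SF g k u = ∑ α ∈ rp g, k α *
      (1 / ((NAB.A0 : ℂ) * u) * ∑' b : Eis, (JL.K4_E u b : ℂ) *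
      JL.psX (emb α / emb g * emb b)) := by
    unfold SF
    apply Finset.sum_congr rfl
    intro α _
    rw [JL.K4_Ak hu]
  have h2 : SF g k u = 1 / ((NAB.A0 : ℂ) * u) * ∑' b : Eis, ∑ α ∈ rp g,
      k α * ((JL.K4_E u b : ℂ) * JL.psX (emb α / emb g * emb b)) := by
    rw [Summable.tsum_finsetSum, Finset.mul_sum, h1]
    · apply Finset.sum_congr rfl
      intro α _
      rw [tsum_mul_left]
      ring
    · intro α _
      apply Summable.mul_left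
      exact JL.K4_summableC hu _ 1 fun b => (JL.psX_norm _).le
  have h3 : ∀ b : Eis, ∑ α ∈ rp g, k α * ((JL.K4_E u b : ℂ) *
      JL.psX (emb α / emb g * emb b)) =
      gs g k * (conj (k b) *
        ((Real.exp (-(4 * Real.pi / 3 * (b.norm : ℝ) / u)) : ℝ) : ℂ)) := by
    intro b
    have h4 := gauss h hp b
    have h5 : ∀ α : Eis, k α * ((JL.K4_E u b : ℂ) * JL.psX (emb α / emb g * emb b)) =
        (JL.K4_E u b : ℂ) * (k α * JL.psX (emb α * emb b / emb g)) := by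
      intro α
      rw [div_mul_eq_mul_div]
      ring
    rw [Finset.sum_congr rfl fun α _ => h5 α, ← Finset.mul_sum, h4]
    unfold JL.K4_E
    ring
  rw [h2, tsum_congr h3, tsum_mul_left]
  ring

/-! ### [J2E-A5b] -/

theorem a5b_norm (h : Ch g k) (b : Eis) : ‖conj (k b)‖ ≤ 1 := by
  rw [Complex.norm_conj]; exact h.norm_le b

/-- the theta series -/
noncomputable def a5b_th (k : Eis → ℂ) (v : ℝ) : ℂ :=
  ∑' b : Eis, conj (k b) * (Real.exp (-(4 * Real.pi / 3 * (b.norm : ℝ)) * v) : ℂ)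

theorem a5b_hasSum (h : Ch g k) {v : ℝ} (hv : 0 < v) :
    HasSum (fun b : Eis => conj (k b) * (Real.exp (-(4 * Real.pi / 3 * (b.norm : ℝ)) * v) : ℂ)) (a5b_th k v) := by
  refine Summable.hasSum ?_
  refine Summable.of_norm_bounded (JL.k5_summable_exp hv) fun b => ?_
  rw [norm_mul, Complex.norm_real, Real.norm_of_nonneg (Real.exp_pos _).le]
  exact mul_le_of_le_one_left (Real.exp_pos _).le (a5b_norm h b)

theorem a5b_poisson (h : Ch g k) (hp : Prim g k) {u : ℝ} (hu : 0 < u) :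
    SF g k u = gs g k / ((NAB.A0 : ℂ) * u) * a5b_th k (1 / u) := by
  rw [IF_poisson h hp hu]
  congr 1
  unfold a5b_th
  refine tsum_congr fun b => ?_
  congr 2
  congr 1
  ring

theorem a5b_gs (h : Ch g k) (hp : Prim g k) : gs g k ≠ 0 := by
  intro h0
  have h1 := gauss_norm h hp
  rw [h0, norm_zero, zero_pow two_ne_zero, ← norm_emb_sq] at h1
  have h2 := norm_pos_iff.2 (CUL.l2_emb_ne h.F0)
  have h3 : 0 < ‖emb g‖ ^ 2 := by positivity
  linarith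

theorem a5b_K_ne (h : Ch g k) (hp : Prim g k) : gs g k / (NAB.A0 : ℂ) ≠ 0 :=
  div_ne_zero (a5b_gs h hp) JL.k5_A0

theorem a5b_div (h : Ch g k) (hp : Prim g k) {v : ℝ} (hv : 0 < v) :
    SF g k v⁻¹ * ((v⁻¹ : ℝ) : ℂ) = gs g k / (NAB.A0 : ℂ) * a5b_th k v := by
  have hv' : (v : ℂ) ≠ 0 := by
    rw [Complex.ofReal_ne_zero]
    exact hv.ne'
  have hA := JL.k5_A0
  rw [a5b_poisson h hp (inv_pos.2 hv), one_div, inv_inv, Complex.ofReal_inv]
  field_simp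

theorem a5b_th_eq (h : Ch g k) (hp : Prim g k) {v : ℝ} (hv : 0 < v) :
    a5b_th k v = (gs g k / (NAB.A0 : ℂ))⁻¹ * (SF g k v⁻¹ * ((v⁻¹ : ℝ) : ℂ)) := by
  rw [a5b_div h hp hv, inv_mul_cancel_left₀ (a5b_K_ne h hp)]

theorem a5b_bound (h : Ch g k) (hp : Prim g k) : ∃ C κ : ℝ, 0 < C ∧ 0 < κ ∧ ∀ v : ℝ, 0 < v →
    ‖a5b_th k v‖ ≤ C * Real.exp (-(κ * (v + 1 / v))) := by
  obtain ⟨C, κ, hC, hκ, hb⟩ := SF_bound h
  have hK : 0 < ‖(gs g k / (NAB.A0 : ℂ))⁻¹‖ := norm_pos_iff.2 (inv_ne_zero (a5b_K_ne h hp))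
  refine ⟨‖(gs g k / (NAB.A0 : ℂ))⁻¹‖ * (C * (2 / κ)), κ / 2, by positivity, by positivity, fun v hv => ?_⟩
  rw [a5b_th_eq h hp hv, norm_mul, norm_mul, Complex.norm_real, mul_assoc]
  refine mul_le_mul_of_nonneg_left ?_ hK.le
  have h1 := hb v⁻¹ (inv_pos.2 hv)
  have e1 : v⁻¹ + 1 / v⁻¹ = v + 1 / v := by
    rw [one_div, inv_inv, one_div, add_comm]
  rw [e1] at h1
  have hv' : 0 < 1 / v := by positivity
  have h2 : v⁻¹ ≤ 2 / κ * Real.exp (κ / 2 * (v + 1 / v)) := by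
    have h3 : κ / 2 * (v + 1 / v) ≤ Real.exp (κ / 2 * (v + 1 / v)) := by
      have := Real.add_one_le_exp (κ / 2 * (v + 1 / v))
      linarith
    have h4 : v⁻¹ ≤ v + 1 / v := by
      rw [one_div]; linarith
    have h5 : v + 1 / v = 2 / κ * (κ / 2 * (v + 1 / v)) := by
      field_simp
    calc v⁻¹ ≤ v + 1 / v := h4
      _ = 2 / κ * (κ / 2 * (v + 1 / v)) := h5
      _ ≤ _ := mul_le_mul_of_nonneg_left h3 (by positivity)
  have h6 : ‖(v⁻¹ : ℝ)‖ = v⁻¹ := Real.norm_of_nonneg (inv_pos.2 hv).le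
  rw [h6]
  calc ‖SF g k v⁻¹‖ * v⁻¹ ≤ (C * Real.exp (-(κ * (v + 1 / v)))) * (2 / κ * Real.exp (κ / 2 * (v + 1 / v))) :=
        mul_le_mul h1 h2 (inv_pos.2 hv).le (by positivity)
    _ = C * (2 / κ) * (Real.exp (-(κ * (v + 1 / v))) * Real.exp (κ / 2 * (v + 1 / v))) := by ring
    _ = C * (2 / κ) * Real.exp (-(κ / 2 * (v + 1 / v))) := by
        rw [← Real.exp_add]
        congr 2
        ring

theorem a5b_cont (h : Ch g k) (hp : Prim g k) : ContinuousOn (a5b_th k) (Ioi 0) := by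
  have h1 : ContinuousOn (fun v : ℝ => v⁻¹) (Ioi (0 : ℝ)) := continuousOn_inv₀.mono fun x hx => ne_of_gt hx
  have h2 : ContinuousOn (fun v : ℝ => SF g k v⁻¹) (Ioi (0 : ℝ)) :=
    (SF_cont g k).comp h1 fun x hx => mem_Ioi.2 (inv_pos.2 (mem_Ioi.1 hx))
  have h3 : ContinuousOn (fun v : ℝ => (gs g k / (NAB.A0 : ℂ))⁻¹ * (SF g k v⁻¹ * ((v⁻¹ : ℝ) : ℂ)))
      (Ioi (0 : ℝ)) :=
    continuousOn_const.mul (h2.mul (Complex.continuous_ofReal.comp_continuousOn h1))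
  exact h3.congr fun v hv => a5b_th_eq h hp hv

theorem a5b_mellin_cont (h : Ch g k) (hp : Prim g k) : ContinuousAt (mellin (a5b_th k)) 1 := by
  obtain ⟨C, p, hC, hp', hb⟩ := a5b_bound h hp
  have h1 : DifferentiableAt ℂ (mellin (a5b_th k)) 1 :=
    mellin_differentiableAt_of_isBigO_rpow (a := (1 : ℂ).re + 1) (b := (1 : ℂ).re - 1)
      ((a5b_cont h hp).locallyIntegrableOn measurableSet_Ioi) (JL.k5_top hC hp' hb _) (by linarith)
      (JL.k5_bot hC hp' hb _) (by linarith)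
  exact h1.continuousAt

theorem a5b_mellin (h : Ch g k) {σ : ℝ} (hσ : 1 < σ) : mellin (a5b_th k) (σ : ℂ) =
    ((Real.Gamma σ * (4 * Real.pi / 3) ^ (-σ) : ℝ) : ℂ) * (6 * conj (LK k σ)) := by
  have hpos : ∀ b : Eis, (0 : ℝ) ≤ (b.norm : ℝ) := fun b => by rw [← norm_emb_sq]; positivity
  have hpi : (0 : ℝ) < 4 * Real.pi / 3 := by positivity
  have hcount : Countable Eis := CUL.e2_equiv.countable_iff.2 inferInstance
  have key := hasSum_mellin (a := fun b : Eis => conj (k b)) (p := fun b : Eis => 4 * Real.pi / 3 * (b.norm : ℝ))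
    (F := a5b_th k) (s := (σ : ℂ)) ?_ (by rw [Complex.ofReal_re]; linarith) (fun t ht => ?_) ?_
  · have h6 : 6 * conj (LK k σ) = ∑' b : Eis, conj (k b) * (((b.norm : ℝ) ^ (-σ) : ℝ) : ℂ) := by
      unfold LK
      rw [map_mul, Complex.conj_tsum]
      have e1 : conj (1 / 6 : ℂ) = 1 / 6 := by
        rw [map_div₀, map_one, map_ofNat]
      rw [e1, ← mul_assoc]
      norm_num
    rw [← key.tsum_eq, h6, ← tsum_mul_left]
    refine tsum_congr fun b => ?_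
    have h1 : (((4 * Real.pi / 3 * (b.norm : ℝ) : ℝ) : ℂ)) ^ (σ : ℂ) =
        (((4 * Real.pi / 3 * (b.norm : ℝ)) ^ σ : ℝ) : ℂ) := by
      rw [Complex.ofReal_cpow (mul_nonneg hpi.le (hpos b))]
    have h2 : (4 * Real.pi / 3 * (b.norm : ℝ)) ^ σ = ((4 * Real.pi / 3) ^ (-σ) * (b.norm : ℝ) ^ (-σ))⁻¹ := by
      rw [Real.mul_rpow hpi.le (hpos b), Real.rpow_neg hpi.le, Real.rpow_neg (hpos b), mul_inv, inv_inv, inv_inv]
    rw [h1, h2, Complex.Gamma_ofReal]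
    push_cast
    rw [div_inv_eq_mul]
    ring
  · intro b
    rcases eq_or_ne b 0 with rfl | hb
    · left
      rw [h.zero', map_zero]
    · right
      have h1 : 0 < ‖emb b‖ := norm_pos_iff.2 (CUL.l2_emb_ne hb)
      have h2 : (0 : ℝ) < (b.norm : ℝ) := by rw [← norm_emb_sq]; positivity
      positivity
  · exact a5b_hasSum h ht
  · rw [Complex.ofReal_re]
    have h1 := (JL.k5_summable_dir hσ (fun b => ‖conj (k b)‖) (fun b => by
      rw [abs_of_nonneg (norm_nonneg _)]; exact a5b_norm h b)).mul_left ((4 * Real.pi / 3) ^ (-σ))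
    refine h1.congr fun b => ?_
    rw [Real.mul_rpow hpi.le (hpos b), Real.rpow_neg hpi.le, Real.rpow_neg (hpos b)]
    field_simp

theorem a5b_lim (h : Ch g k) (hp : Prim g k) {L₁ : ℂ} (hL : Tendsto (LK k) (𝓝[>] 1) (𝓝 L₁)) :
    mellin (a5b_th k) 1 = ((3 / (4 * Real.pi) : ℝ) : ℂ) * (6 * conj L₁) := by
  have hc := a5b_mellin_cont h hp
  have h1 : Tendsto (fun σ : ℝ => mellin (a5b_th k) (σ : ℂ)) (𝓝[>] 1) (𝓝 (mellin (a5b_th k) 1)) := by
    have h2 : Tendsto (fun σ : ℝ => (σ : ℂ)) (𝓝[>] 1) (𝓝 1) := by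
      have h3 : Tendsto (fun σ : ℝ => (σ : ℂ)) (𝓝 1) (𝓝 ((1 : ℝ) : ℂ)) := Complex.continuous_ofReal.tendsto 1
      rw [Complex.ofReal_one] at h3
      exact h3.mono_left nhdsWithin_le_nhds
    exact hc.tendsto.comp h2
  have hG : Tendsto Real.Gamma (𝓝[>] 1) (𝓝 1) := by
    have h3 : ContinuousAt Real.Gamma 1 :=
      (Real.differentiableAt_Gamma (s := 1) fun m hm => by
        have : (0 : ℝ) ≤ (m : ℝ) := Nat.cast_nonneg m
        linarith).continuousAt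
    have h4 := h3.tendsto
    rw [Real.Gamma_one] at h4
    exact h4.mono_left nhdsWithin_le_nhds
  have hpow : ∀ c : ℝ, 0 < c → Tendsto (fun σ : ℝ => c ^ (-σ)) (𝓝[>] 1) (𝓝 c⁻¹) := by
    intro c hc0
    have h3 : Continuous fun σ : ℝ => c ^ (-σ) := by
      have h4 : Continuous fun σ : ℝ => -σ := continuous_neg
      exact continuous_const.rpow h4 fun x => Or.inl hc0.ne'
    have h5 := h3.tendsto 1
    simp only [Real.rpow_neg_one] at h5
    exact h5.mono_left nhdsWithin_le_nhds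
  have h6 : Tendsto (fun σ : ℝ => Real.Gamma σ * (4 * Real.pi / 3) ^ (-σ)) (𝓝[>] 1) (𝓝 (1 * (4 * Real.pi / 3)⁻¹)) :=
    hG.mul (hpow _ (by positivity))
  have h7 : Tendsto (fun σ : ℝ => mellin (a5b_th k) (σ : ℂ)) (𝓝[>] 1)
      (𝓝 (((1 * (4 * Real.pi / 3)⁻¹ : ℝ) : ℂ) * (6 * conj L₁))) := by
    have h8 := (Complex.continuous_ofReal.tendsto _).comp h6
    have h9 : Tendsto (fun σ : ℝ => 6 * conj (LK k σ)) (𝓝[>] 1) (𝓝 (6 * conj L₁)) :=
      ((Complex.continuous_conj.tendsto _).comp hL).const_mul 6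
    refine (h8.mul h9).congr' ?_
    filter_upwards [self_mem_nhdsWithin] with σ hσ
    rw [a5b_mellin h (mem_Ioi.1 hσ)]
    rfl
  rw [tendsto_nhds_unique h1 h7]
  congr 2
  rw [one_mul, inv_div]

/-- the change of variables `v = 1 / u` -/
theorem a5b_subst (h : Ch g k) (hp : Prim g k) : IF g k = gs g k / (NAB.A0 : ℂ) * mellin (a5b_th k) 1 := by
  unfold IF
  rw [← integral_comp_rpow_Ioi (fun u : ℝ => SF g k u / (u : ℂ)) (p := -1) (by norm_num), mellin,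
    ← integral_const_mul]
  refine setIntegral_congr_fun measurableSet_Ioi fun v hv => ?_
  have hv0 : (0 : ℝ) < v := hv
  have hv' : (v : ℂ) ≠ 0 := by
    rw [Complex.ofReal_ne_zero]
    exact hv0.ne'
  have h1 := a5b_div h hp hv0
  simp only [sub_self, Complex.cpow_zero, one_smul]
  rw [← h1, Real.rpow_neg_one, abs_neg, abs_one, one_mul]
  have h2 : v ^ ((-1 : ℝ) - 1) = v⁻¹ * v⁻¹ := by
    rw [← Real.rpow_neg_one, ← Real.rpow_add hv0]
    congr 1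
  rw [h2, Complex.real_smul]
  push_cast
  field_simp

theorem IF_prim (h : Ch g k) (hp : Prim g k) {L₁ : ℂ} (hL : Tendsto (LK k) (𝓝[>] 1) (𝓝 L₁)) :
    ‖IF g k‖ ^ 2 = 27 / Real.pi ^ 2 * (g.norm : ℝ) * ‖L₁‖ ^ 2 := by
  have hA : ‖(NAB.A0 : ℂ)‖ = √3 / 2 := by
    rw [Complex.norm_real, Real.norm_of_nonneg NAB.A0_pos'.le, NAB.A0]
  have h9 : ‖((3 / (4 * Real.pi) : ℝ) : ℂ)‖ = 3 / (4 * Real.pi) := by
    rw [Complex.norm_real]
    exact Real.norm_of_nonneg (by positivity)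
  have h10 : ‖(6 : ℂ)‖ = 6 := by norm_num
  rw [a5b_subst h hp, a5b_lim h hp hL, norm_mul, norm_div, norm_mul, norm_mul, hA, h9, h10, Complex.norm_conj]
  have h3 : √3 ^ 2 = 3 := Real.sq_sqrt (by norm_num)
  have hpi := Real.pi_ne_zero
  have h13 : √3 ≠ 0 := by positivity
  have e : (‖gs g k‖ / (√3 / 2) * (3 / (4 * Real.pi) * (6 * ‖L₁‖))) ^ 2 =
      ‖gs g k‖ ^ 2 * (81 / (Real.pi ^ 2 * √3 ^ 2)) * ‖L₁‖ ^ 2 := by
    field_simp
    ring
  rw [e, gauss_norm h hp, h3]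
  field_simp
  ring

end J2E
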