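import Pool.Agent.J2E.A1
import Pool.Agent.JL.K2

/-!
# [J2E-B1] `∫ (T₀(u, z + 1/2) - T₀(u, z)) du/u + log |x(z) - x(1/2)|` is constant

PROOF. Copy `Pool/Agent/JL/K1.lean` (`GX_bound`, `LX_int`) and `Pool/Agent/JL/K2.lean` (`LX_deriv`, `E1_comb`, `LX_const`) with the points `z + 1/2`, `z` instead of `z + ta`, `z - ta`, `z`; `JL.Ak_gap`, `JL.Tk1_bound`, `JL.Ak_deriv`, `JL.k2_E1` are general.
`E1_half`: `E1(z + 1/2) - E1(z) = OmC yw z / (2 (xw z - eh))`: the addition formula for `E1` (`CUL.ez`; `E1 = OmC ez`; see `CUL.ez_add` : `ez (u + v) = ez u + ez v + (yw u - yw v) / (2 (xw u - xw v))` or similar in CUL/E*.lean, CUL/G*.lean), `ez (1/2) = 0` (odd and periodic), `yw (1/2) = 0` (odd and periodic).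
`xw z = eh` only for `z ≡ 1/2` (`z ≡ ± 1/2`; see `CUL.xw_eq..`, `CM27`), i.e. not for `z ∈ DT` (`eh = xw (1/2)`).
The derivative of `LT` is `-2 Re((E1(z + 1/2) - E1(z)) h) = - Re(OmC yw z/(xw z - eh) h)`, that of `log ‖xw z - eh‖` is `Re(OmC yw z/(xw z - eh) h)` (`xw_deriv`). `DT` is open and connected (complement countable), see `LX_const`.
-/

set_option autoImplicit false

open MeasureTheory Set Filter Topology
open scoped Classical ComplexConjugate

namespace J2E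

open CM27 JZ
open CU (la eE)
open CUL (Nl ta rp IsRep zw GalU)
open JGL (GalP)

theorem b1_half : Nl (1 / 2) := by
  rintro ⟨a, ha⟩
  have h1 : emb (2 * a) = emb 1 := by
    rw [map_mul, ha, map_ofNat, map_one]
    norm_num
  have h2 := emb_injective h1
  exact Q3.prime_two.not_isUnit (IsUnit.of_mul_eq_one _ h2)

theorem b1_neg_half : (-(1 / 2) : ℂ) = 1 / 2 + emb (-1) := by
  rw [map_neg, map_one]; norm_num

theorem yw_half : yw (1 / 2) = 0 := by
  have h1 : yw (-(1 / 2)) = yw (1 / 2) := by rw [b1_neg_half, yw_add]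
  rw [yw_neg] at h1
  have h2 : (2 : ℂ) * yw (1 / 2) = 0 := by linear_combination -h1
  exact (mul_eq_zero.1 h2).resolve_left two_ne_zero

theorem eh_cube : eh ^ 3 = -1 / 4 := by
  have h1 := weq (1 / 2) b1_half
  rw [yw_half] at h1
  unfold eh
  linear_combination -(1 / 4) * h1

theorem b1_ez : CUL.ez (1 / 2) = 0 := by
  have h1 : CUL.ez (-(1 / 2)) = CUL.ez (1 / 2) := by rw [b1_neg_half, CUL.ez_add_emb]
  rw [CUL.ez_neg] at h1
  have h2 : (2 : ℂ) * CUL.ez (1 / 2) = 0 := by linear_combination -h1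
  exact (mul_eq_zero.1 h2).resolve_left two_ne_zero

theorem b1_sub {z : ℂ} (hz : Nl (z + 1 / 2)) : Nl (z - 1 / 2) := by
  rintro ⟨a, ha⟩
  exact hz ⟨a + 1, by rw [map_add, map_one, ha]; ring⟩

/-- `x(z) = x(1/2)` only for `z = 1/2` modulo the lattice -/
theorem xw_sub_eh_ne {z : ℂ} (hz : z ∈ DT) : xw z - eh ≠ 0 := by
  intro h0
  rcases (xw_eq_iff z (1 / 2) hz.1 b1_half).1 (sub_eq_zero.1 h0) with h1 | h1
  · exact b1_sub hz.2 h1
  · exact hz.2 h1

theorem E1_half {z : ℂ} (hz : z ∈ DT) : NAB.E1 (z + 1 / 2) - NAB.E1 z = OmC * (yw z / (2 * (xw z - eh))) := by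
  have h1 : ∀ x : ℂ, NAB.E1 x = OmC * CUL.ez x := by
    intro x
    unfold CUL.ez
    rw [mul_div_cancel₀ _ OmC_ne]
  rw [h1, h1, CUL.ez_add hz.1 b1_half hz.2 (b1_sub hz.2), b1_ez, yw_half]
  unfold eh
  ring

/-! ### [J2E-B1b] -/

theorem GT_bound {δ : ℝ} (hδ : 0 < δ) : ∃ C κ : ℝ, 0 < C ∧ 0 < κ ∧ ∀ z : ℂ, (∀ a : Eis, δ ≤ ‖z + emb a‖) →
    (∀ a : Eis, δ ≤ ‖z + 1 / 2 + emb a‖) → ∀ u : ℝ, 0 < u →
    |GT z u| ≤ C * Real.exp (-(κ * (u + 1 / u))) := by
  obtain ⟨C1, κ1, hC1, hκ1, h1⟩ := JL.Ak_gap 0 hδ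
  obtain ⟨C2, κ2, hC2, hκ2, h2⟩ := NAB.T0_small
  refine ⟨4 * C1 + 8 * C2 / κ2, min (κ1 / 2) (κ2 / 4), by positivity,
    lt_min (by positivity) (by positivity), fun z hz hz1 u hu => ?_⟩
  set κ := min (κ1 / 2) (κ2 / 4) with hκ
  have hκ0 : 0 < κ := lt_min (by positivity) (by positivity)
  have hκa : κ ≤ κ1 / 2 := min_le_left _ _
  have hκb : κ ≤ κ2 / 4 := min_le_right _ _
  have hE : 0 < Real.exp (-(κ * (u + 1 / u))) := Real.exp_pos _
  rcases le_or_gt 1 u with hu1 | hu1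
  · have hb : ∀ z' : ℂ, (∀ a : Eis, δ ≤ ‖z' + emb a‖) →
        NAB.Ak 0 u z' ≤ 2 * C1 * Real.exp (-(κ1 * u)) := by
      intro z' hz'
      have h3 := h1 z' hz' u hu
      have h4 : (1 + 1 / u) ^ (0 + 1) ≤ 2 := by
        have : 1 / u ≤ 1 := by
          rw [div_le_iff₀ hu]
          linarith
        rw [zero_add, pow_one]
        linarith
      have h5 : C1 * (1 + 1 / u) ^ (0 + 1) ≤ C1 * 2 := mul_le_mul_of_nonneg_left h4 hC1.le
      have h6 := mul_le_mul_of_nonneg_right h5 (Real.exp_pos (-(κ1 * u))).le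
      linarith
    have p0 := NAB.Ak_nonneg 0 u z
    have p1 := NAB.Ak_nonneg 0 u (z + 1 / 2)
    have q0 := hb z hz
    have q1 := hb (z + 1 / 2) hz1
    have h7 := JL.k1_large hκa hκ0 hu1
    have h8 : |GT z u| ≤ 4 * C1 * Real.exp (-(κ1 * u)) := by
      unfold GT
      rw [abs_le]
      constructor
      · linarith
      · linarith
    calc |GT z u| ≤ 4 * C1 * Real.exp (-(κ1 * u)) := h8
      _ ≤ 4 * C1 * Real.exp (-(κ * (u + 1 / u))) := mul_le_mul_of_nonneg_left h7 (by positivity)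
      _ ≤ (4 * C1 + 8 * C2 / κ2) * Real.exp (-(κ * (u + 1 / u))) := by
          apply mul_le_mul_of_nonneg_right _ hE.le
          have : 0 < 8 * C2 / κ2 := by positivity
          linarith
  · have h3 : (u : ℂ) * (GT z u : ℂ) = ((u : ℂ) * NAB.Tk 0 u (z + 1 / 2) - 1 / (NAB.A0 : ℂ)) -
        ((u : ℂ) * NAB.Tk 0 u z - 1 / (NAB.A0 : ℂ)) := by
      rw [JL.GX_Tk hu, JL.GX_Tk hu]
      unfold GT
      push_cast
      ring
    have h4 : ‖(u : ℂ) * (GT z u : ℂ)‖ ≤ 2 * (C2 * (1 + u) * Real.exp (-(κ2 / u))) := by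
      rw [h3]
      refine le_trans (norm_sub_le _ _) ?_
      have e2 := h2 u hu (z + 1 / 2)
      have e4 := h2 u hu z
      linarith
    have h5 : ‖(u : ℂ) * (GT z u : ℂ)‖ = u * |GT z u| := by
      rw [norm_mul, Complex.norm_real, Complex.norm_real, Real.norm_of_nonneg hu.le,
        Real.norm_eq_abs]
    rw [h5] at h4
    have h6 : 2 * (C2 * (1 + u) * Real.exp (-(κ2 / u))) ≤ 4 * C2 * Real.exp (-(κ2 / u)) := by
      have : C2 * (1 + u) ≤ C2 * 2 := mul_le_mul_of_nonneg_left (by linarith) hC2.le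
      have := mul_le_mul_of_nonneg_right this (Real.exp_pos (-(κ2 / u))).le
      linarith
    have h7 : |GT z u| ≤ 1 / u * (4 * C2 * Real.exp (-(κ2 / u))) := by
      rw [one_div, ← div_eq_inv_mul, le_div_iff₀ hu]
      linarith
    have h8 : Real.exp (-(κ2 / u)) = Real.exp (-(κ2 / 2 / u)) * Real.exp (-(κ2 / 2 / u)) := by
      rw [← Real.exp_add]
      congr 1
      ring
    have h9 := JL.k1_inv (c := κ2 / 2) (by positivity) hu
    have h10 : Real.exp (-(κ2 / 2 / u)) ≤ Real.exp (-(κ * (u + 1 / u))) :=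
      JL.k1_small (by linarith) hκ0 hu hu1.le
    calc |GT z u| ≤ 1 / u * (4 * C2 * Real.exp (-(κ2 / u))) := h7
      _ = 4 * C2 * (1 / u * Real.exp (-(κ2 / 2 / u))) * Real.exp (-(κ2 / 2 / u)) := by
          rw [h8]; ring
      _ ≤ 4 * C2 * (1 / (κ2 / 2)) * Real.exp (-(κ2 / 2 / u)) :=
          mul_le_mul_of_nonneg_right (mul_le_mul_of_nonneg_left h9 (by positivity))
            (Real.exp_pos _).le
      _ = 8 * C2 / κ2 * Real.exp (-(κ2 / 2 / u)) := by
          congr 1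
          field_simp
          ring
      _ ≤ 8 * C2 / κ2 * Real.exp (-(κ * (u + 1 / u))) :=
          mul_le_mul_of_nonneg_left h10 (by positivity)
      _ ≤ (4 * C1 + 8 * C2 / κ2) * Real.exp (-(κ * (u + 1 / u))) := by
          apply mul_le_mul_of_nonneg_right _ hE.le
          linarith

theorem GT_cont (z : ℂ) : ContinuousOn (GT z) (Ioi 0) := by
  unfold GT
  exact (JL.k1_cont _).sub (JL.k1_cont _)

theorem DT_gap {z : ℂ} (hz : z ∈ DT) : ∃ δ ε : ℝ, 0 < δ ∧ 0 < ε ∧ ∀ z' : ℂ, ‖z' - z‖ ≤ ε →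
    (∀ a : Eis, δ ≤ ‖z' + emb a‖) ∧ (∀ a : Eis, δ ≤ ‖z' + 1 / 2 + emb a‖) := by
  obtain ⟨h0, h1⟩ := hz
  obtain ⟨d0, hd0, g0⟩ := NAB.a2a_gap z h0
  obtain ⟨d1, hd1, g1⟩ := NAB.a2a_gap (z + 1 / 2) h1
  have hm : 0 < min d0 d1 := lt_min hd0 hd1
  have key : ∀ (x y : ℂ) (d : ℝ), min d0 d1 ≤ d → ‖y - x‖ ≤ min d0 d1 / 2 →
      d ≤ ‖x‖ → min d0 d1 / 2 ≤ ‖y‖ := by
    intro x y d h3 h4 h5
    have h6 : ‖x‖ ≤ ‖y‖ + ‖y - x‖ := by
      have : x = y - (y - x) := by ring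
      calc ‖x‖ = ‖y - (y - x)‖ := by rw [← this]
        _ ≤ _ := norm_sub_le _ _
    linarith
  refine ⟨min d0 d1 / 2, min d0 d1 / 2, by positivity, by positivity,
    fun z' hz' => ⟨fun a => ?_, fun a => ?_⟩⟩
  · refine key (z + emb a) (z' + emb a) d0 (min_le_left _ _) ?_ (g0 a)
    have : z' + emb a - (z + emb a) = z' - z := by ring
    rw [this]
    exact hz'
  · refine key (z + 1 / 2 + emb a) (z' + 1 / 2 + emb a) d1 (min_le_right _ _) ?_ (g1 a)
    have : z' + 1 / 2 + emb a - (z + 1 / 2 + emb a) = z' - z := by ring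
    rw [this]
    exact hz'

theorem LT_int {z : ℂ} (hz : z ∈ DT) : IntegrableOn (fun u : ℝ => GT z u / u) (Ioi 0) := by
  obtain ⟨δ, ε, hδ, hε, hg⟩ := DT_gap hz
  obtain ⟨C, κ, hC, hκ, hb⟩ := GT_bound hδ
  have hz0 : ‖z - z‖ ≤ ε := by
    rw [sub_self, norm_zero]
    exact hε.le
  obtain ⟨g0, g1⟩ := hg z hz0
  have hb' := hb z g0 g1
  have hcont : ContinuousOn (fun u : ℝ => GT z u / u) (Ioi 0) :=
    (GT_cont z).div continuousOn_id fun u hu => ne_of_gt hu
  have hint : IntegrableOn (fun u : ℝ => C / κ * Real.exp (-κ * u)) (Ioi 0) :=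
    (exp_neg_integrableOn_Ioi 0 hκ).const_mul _
  refine Integrable.mono' hint (hcont.aestronglyMeasurable measurableSet_Ioi) ?_
  refine (ae_restrict_iff' measurableSet_Ioi).2 (Filter.Eventually.of_forall fun u hu => ?_)
  have hu0 : 0 < u := hu
  rw [norm_div, Real.norm_eq_abs, Real.norm_of_nonneg hu0.le]
  have h1 := hb' u hu0
  have h2 : Real.exp (-(κ * (u + 1 / u))) = Real.exp (-κ * u) * Real.exp (-(κ / u)) := by
    rw [← Real.exp_add]
    congr 1
    ring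
  have h3 := JL.k1_inv hκ hu0
  calc |GT z u| / u ≤ C * Real.exp (-(κ * (u + 1 / u))) / u :=
        div_le_div_of_nonneg_right h1 hu0.le
    _ = C * Real.exp (-κ * u) * (1 / u * Real.exp (-(κ / u))) := by
        rw [h2]; ring
    _ ≤ C * Real.exp (-κ * u) * (1 / κ) := mul_le_mul_of_nonneg_left h3 (by positivity)
    _ = C / κ * Real.exp (-κ * u) := by ring

open JL (k2_L k2_L_apply k2_L_norm k2_E1 Tk1_bound Ak_deriv)

theorem LT_deriv {z : ℂ} (hz : z ∈ DT) : HasFDerivAt LT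
    ((-2 : ℝ) • (Complex.reCLM.comp ((ContinuousLinearMap.mul ℂ ℂ
      (NAB.E1 (z + 1 / 2) - NAB.E1 z)).restrictScalars ℝ))) z := by
  obtain ⟨δ, ε, hδ, hε, hg⟩ := DT_gap hz
  obtain ⟨C, κ, hC, hκ, hT⟩ := Tk1_bound hδ
  have hpi := Real.pi_pos
  have hexp : ∀ u : ℝ, 0 < u → C * Real.exp (-(κ * (u + 1 / u))) ≤ C * Real.exp (-κ * u) := by
    intro u hu
    refine mul_le_mul_of_nonneg_left (Real.exp_le_exp.2 ?_) hC.le
    have : 0 < κ * (1 / u) := by positivity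
    nlinarith
  have hTc : ∀ z' : ℂ, ContinuousOn (fun u : ℝ => NAB.Tk 1 u z') (Ioi 0) := fun z' =>
    (NAB.Tk_cont 1).comp (f := fun u : ℝ => (u, z')) (by fun_prop) (fun u hu => ⟨hu, mem_univ _⟩)
  have key : HasFDerivAt (fun z' : ℂ => ∫ u in Ioi (0 : ℝ), GT z' u / u)
      (∫ u in Ioi (0 : ℝ), ((-2 * Real.pi : ℝ) • k2_L)
        (NAB.Tk 1 u (z + 1 / 2) - NAB.Tk 1 u z)) z := by
    refine hasFDerivAt_integral_of_dominated_of_fderiv_le (μ := volume.restrict (Ioi (0 : ℝ)))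
      (F := fun z' u => GT z' u / u)
      (F' := fun z' u => ((-2 * Real.pi : ℝ) • k2_L)
        (NAB.Tk 1 u (z' + 1 / 2) - NAB.Tk 1 u z'))
      (bound := fun u => 2 * Real.pi * (2 * (C * Real.exp (-κ * u))))
      (s := Metric.closedBall z ε) (Metric.closedBall_mem_nhds z hε) ?_ (LT_int hz) ?_ ?_ ?_ ?_
    · refine Eventually.of_forall fun z' => ?_
      refine ContinuousOn.aestronglyMeasurable ?_ measurableSet_Ioi
      exact (GT_cont z').div continuousOn_id (fun u hu => (ne_of_gt hu))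
    · refine ContinuousOn.aestronglyMeasurable ?_ measurableSet_Ioi
      refine ((-2 * Real.pi : ℝ) • k2_L).continuous.comp_continuousOn ?_
      exact (hTc _).sub (hTc _)
    · refine (ae_restrict_iff' measurableSet_Ioi).2 (ae_of_all _ fun u hu z' hz' => ?_)
      have hu' : 0 < u := hu
      rw [mem_closedBall_iff_norm] at hz'
      obtain ⟨g1, g2⟩ := hg z' hz'
      have t1 := (hT z' g1 u hu').trans (hexp u hu')
      have t2 := (hT _ g2 u hu').trans (hexp u hu')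
      have h0 : ‖NAB.Tk 1 u (z' + 1 / 2) - NAB.Tk 1 u z'‖ ≤
          2 * (C * Real.exp (-κ * u)) := by
        refine (norm_sub_le _ _).trans ?_
        linarith
      rw [_root_.smul_apply, norm_smul]
      have h3 : ‖(-2 * Real.pi : ℝ)‖ = 2 * Real.pi := by
        rw [norm_mul, norm_neg, Real.norm_of_nonneg hpi.le]
        norm_num
      rw [h3]
      exact mul_le_mul_of_nonneg_left ((k2_L_norm _).trans h0) (by positivity)
    · exact (((exp_neg_integrableOn_Ioi 0 hκ).const_mul C).const_mul 2).const_mul (2 * Real.pi)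
    · refine (ae_restrict_iff' measurableSet_Ioi).2 (ae_of_all _ fun u hu z' _ => ?_)
      have hu' : 0 < u := hu
      have d0 := Ak_deriv hu' z'
      have d1 := (hasFDerivAt_comp_add_right (1 / 2 : ℂ)).2 (Ak_deriv hu' (z' + 1 / 2))
      have d3 := (d1.sub d0).mul_const (u⁻¹)
      have d4 : HasFDerivAt (fun z' : ℂ => GT z' u / u) _ z' := d3
      refine d4.congr_fderiv ?_
      ext h
      simp only [_root_.smul_apply, _root_.sub_apply, smul_eq_mul, k2_L_apply]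
      have e0 : ∀ c : ℂ, (Complex.reCLM.comp ((ContinuousLinearMap.mul ℂ ℂ c).restrictScalars ℝ)) h = (c * h).re :=
        fun c => rfl
      rw [e0, e0]
      have e1 : (NAB.Tk 1 u (z' + 1 / 2) - NAB.Tk 1 u z') * h =
          NAB.Tk 1 u (z' + 1 / 2) * h - NAB.Tk 1 u z' * h := by
        ring
      rw [e1, Complex.sub_re]
      field_simp
      ring
  refine key.congr_fderiv ?_
  have hi0 := k2_E1 hz.1
  have hi1 := k2_E1 hz.2
  have e1 := ContinuousLinearMap.integral_comp_comm (μ := volume.restrict (Ioi (0 : ℝ))) ((-2 * Real.pi : ℝ) • k2_L)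
    (φ := fun u : ℝ => NAB.Tk 1 u (z + 1 / 2) - NAB.Tk 1 u z)
    (hi1.sub hi0)
  rw [e1]
  have e2 : ∫ u in Ioi (0 : ℝ), (NAB.Tk 1 u (z + 1 / 2) - NAB.Tk 1 u z) =
      (∫ u in Ioi (0 : ℝ), NAB.Tk 1 u (z + 1 / 2)) - ∫ u in Ioi (0 : ℝ), NAB.Tk 1 u z := by
    exact integral_sub hi1 hi0
  rw [e2]
  ext h
  have e3 : (((-2 * Real.pi : ℝ) • k2_L) ((∫ u in Ioi (0 : ℝ), NAB.Tk 1 u (z + 1 / 2)) -
      ∫ u in Ioi (0 : ℝ), NAB.Tk 1 u z)) h =
      (-2 * Real.pi) * (((∫ u in Ioi (0 : ℝ), NAB.Tk 1 u (z + 1 / 2)) -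
      ∫ u in Ioi (0 : ℝ), NAB.Tk 1 u z) * h).re := rfl
  have e4 : ((-2 : ℝ) • (Complex.reCLM.comp ((ContinuousLinearMap.mul ℂ ℂ
      (NAB.E1 (z + 1 / 2) - NAB.E1 z)).restrictScalars ℝ))) h =
      (-2) * ((NAB.E1 (z + 1 / 2) - NAB.E1 z) * h).re := rfl
  rw [e3, e4]
  have e5 : (NAB.E1 (z + 1 / 2) - NAB.E1 z) * h = (Real.pi : ℂ) *
      (((∫ u in Ioi (0 : ℝ), NAB.Tk 1 u (z + 1 / 2)) -
      ∫ u in Ioi (0 : ℝ), NAB.Tk 1 u z) * h) := by
    unfold NAB.E1
    ring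
  rw [e5, Complex.re_ofReal_mul]
  ring

theorem LT_const : ∃ C : ℝ, ∀ z ∈ DT, LT z + Real.log ‖xw z - eh‖ = C := by
  have hopen : IsOpen DT := by
    have h1 : DT = {z | Nl z} ∩ {z | Nl (z + 1 / 2)} := by
      ext z
      simp [DT]
    rw [h1]
    refine IsOpen.inter ?_ ?_
    · exact CUL.g1_nl_open
    · exact CUL.g1_nl_open.preimage (f := fun z => z + 1 / 2) (by fun_prop)
  have hcount : DTᶜ.Countable := by
    have h1 : DTᶜ ⊆ {z | ¬ Nl (z + 0)} ∪ {z | ¬ Nl (z + 1 / 2)} := by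
      intro z hz
      simp only [DT, Set.mem_compl_iff, Set.mem_ofPred_eq] at hz
      rw [not_and_or] at hz
      rcases hz with h | h
      · left
        rw [Set.mem_ofPred_eq, add_zero]
        exact h
      · exact Or.inr h
    exact Set.Countable.mono h1 ((CUL.g1_nl_countable _).union (CUL.g1_nl_countable _))
  have hconn : IsPreconnected DT := by
    have h := hcount.isPathConnected_compl_of_one_lt_rank (E := ℂ)
      (by rw [Complex.rank_real_complex]; exact Nat.one_lt_ofNat)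
    rw [compl_compl] at h
    exact h.isConnected.isPreconnected
  have hF : ∀ z ∈ DT, HasFDerivAt (fun z => LT z + Real.log ‖xw z - eh‖) (0 : ℂ →L[ℝ] ℝ) z := by
    intro z hz
    have hx := xw_sub_eh_ne hz
    have h1 := ((xw_deriv z hz.1).sub_const eh).hasFDerivAt.restrictScalars ℝ
    have hn : ‖xw z - eh‖ ^ 2 ≠ 0 := pow_ne_zero _ (norm_ne_zero_iff.2 hx)
    have h2 := (h1.norm_sq.log hn).const_mul (1 / 2)
    have h3 := (LT_deriv hz).add h2
    have h4 : (fun z => LT z + Real.log ‖xw z - eh‖) = fun z => LT z + 1 / 2 * Real.log (‖xw z - eh‖ ^ 2) := by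
      funext z
      rw [Real.log_pow]
      push_cast
      ring
    rw [h4]
    refine h3.congr_fderiv ?_
    ext h
    rw [E1_half hz]
    have e0 : ((-2 : ℝ) • (Complex.reCLM.comp ((ContinuousLinearMap.mul ℂ ℂ
        (OmC * (yw z / (2 * (xw z - eh))))).restrictScalars ℝ))) h = (-2) * (OmC * (yw z / (2 * (xw z - eh))) * h).re := rfl
    have e1 : (innerSL ℝ) (xw z - eh) (h * (OmC * yw z)) = (h * (OmC * yw z) * conj (xw z - eh)).re := by
      rw [innerSL_apply_apply, Complex.inner]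
    have e2 : (‖xw z - eh‖ ^ 2)⁻¹ * (h * (OmC * yw z) * conj (xw z - eh)).re =
        2 * (OmC * (yw z / (2 * (xw z - eh))) * h).re := by
      have e20 : (2 : ℝ) * (OmC * (yw z / (2 * (xw z - eh))) * h).re = (((2 : ℝ) : ℂ) * (OmC * (yw z / (2 * (xw z - eh))) * h)).re := by
        rw [Complex.re_ofReal_mul]
      rw [e20, ← Complex.re_ofReal_mul]
      congr 1
      have h5 : conj (xw z - eh) * (xw z - eh) = ((‖xw z - eh‖ ^ 2 : ℝ) : ℂ) := by
        rw [Complex.conj_mul']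
        push_cast
        rfl
      have h6 : ((‖xw z - eh‖ ^ 2 : ℝ) : ℂ) ≠ 0 := by
        rw [← h5]
        exact mul_ne_zero ((map_ne_zero _).2 hx) hx
      rw [Complex.ofReal_inv, inv_mul_eq_iff_eq_mul₀ h6, ← h5]
      push_cast
      field_simp
    rw [_root_.add_apply, e0, _root_.zero_apply]
    show (-2) * (OmC * (yw z / (2 * (xw z - eh))) * h).re +
      (1 / 2) * ((‖xw z - eh‖ ^ 2)⁻¹ * (2 • (innerSL ℝ) (xw z - eh) (h * (OmC * yw z)))) = 0
    rw [e1, nsmul_eq_mul]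
    push_cast
    linear_combination e2
  by_cases hne : DT.Nonempty
  swap
  · exact ⟨0, fun z hz => absurd ⟨z, hz⟩ hne⟩
  obtain ⟨z0, hz0⟩ := hne
  refine ⟨LT z0 + Real.log ‖xw z0 - eh‖, fun z hz => ?_⟩
  refine hopen.is_const_of_fderiv_eq_zero (𝕜 := ℝ) (f := fun z => LT z + Real.log ‖xw z - eh‖) hconn ?_ ?_ hz hz0
  · intro y hy
    exact (hF y hy).differentiableAt.differentiableWithinAt
  · intro y hy
    exact (hF y hy).fderiv

end J2E
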