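import Pool.Agent.J2E.B1
import Pool.Agent.J2E.A2

/-!
# [J2E-B2] the character sum of `log |y(α/f)|`, `f` odd, `k` trivial on the units

PROOF. `yw² = 4 (x - e)(x - w e)(x - w² e)`, `e = eh` (`eh_cube`, `weq`), so `2 log |y(z)| = log 4 + ∑_j log |x(z) - w^j e|`, and `|x(z) - w^j e| = |x(w^(-j) z) - e|` (`xw (w z) = w xw z`); `k(ω α) = k(α)`. So
`2 ∑ k(α) log |y(α/f)| = 3 ∑ k(α) log |x(α/f) - e| = -3 ∑ k(α) LT(α/f)` (`∑ k = 0`, `Ch.sum_zero`; the substitution `α → ω α` modulo `f`: `CUL.IsRep.sum_mul`; only `α` prime to `f` contribute, `α/f ∈ DT` as `f` is odd and not a unit).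
`∑ k(α) LT(α/f) = ∫ (∑ k(α) T₀(u, α/f + 1/2) - SF f k u) du/u`. By the same symmetry `3 ∑ k(α) T₀(u, α/f + 1/2) = ∑_{T = 1/2, ω/2, ω²/2} ∑ k(α) T₀(u, α/f + T)`, and `∑_{T mod 1, 2T = 0} T₀(u, z + T) = T₀(u/4, 2 z)` (`dist` with `p = 2`), so
`3 ∑ k(α) T₀(u, α/f + 1/2) = ∑ k(α) T₀(u/4, 2α/f) - SF f k u = conj (k 2) SF f k (u/4) - SF f k u` (`k(2)⁻¹ = conj (k 2)`, `2` prime to `f`).
Hence `3 ∑ k(α) LT(α/f) = (conj (k 2) - 4) IF f k` and `∑ k(α) log |y(α/f)| = (1/2) (4 - conj (k 2)) IF f k`. `|4 - ζ|² = 9` for `ζ = 1` and `21` for `ζ = w, w²`.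
-/

set_option autoImplicit false

open MeasureTheory Set Filter Topology
open scoped Classical ComplexConjugate

namespace J2E

open CM27 JZ
open CU (la eE)
open CUL (Nl ta rp IsRep zw GalU)
open JGL (GalP)

variable {f : Eis} {k : Eis → ℂ}


theorem b2_quad : w ^ 2 + w + 1 = 0 := by
  rw [CUL.w2]
  ring

theorem b2_om3 : CU.om * (CU.om * CU.om) = 1 := by
  apply emb_injective
  rw [map_mul, map_mul, CUL.emb_om, map_one]
  linear_combination (w - 1) * b2_quad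

theorem b2_om_unit : IsUnit CU.om := IsUnit.of_mul_eq_one _ b2_om3

theorem b2_om_cop (x : Eis) : IsCoprime CU.om x := ⟨CU.om * CU.om, 0, by linear_combination b2_om3⟩

theorem b2_w3 : w * (w * w) = 1 := by
  linear_combination (w - 1) * b2_quad

theorem b2_nw : ‖w‖ = 1 := by
  have h1 := congrArg norm b2_w3
  rw [norm_mul, norm_mul, norm_one] at h1
  have h0 := norm_nonneg w
  nlinarith [sq_nonneg (‖w‖ - 1), sq_nonneg (‖w‖ + 1)]

/-- the sum of `k(α) g(α/f)` for a periodic function: `α → u α` -/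
theorem b2_sum (h : Ch f k) {u : Eis} (hu : IsCoprime u f) (g : ℂ → ℂ) (hg : ∀ z a, g (z + emb a) = g z) :
    ∑ α ∈ rp f, k α * g (emb u * (emb α / emb f)) = conj (k u) * ∑ α ∈ rp f, k α * g (emb α / emb f) := by
  have hf : emb f ≠ 0 := CUL.l2_emb_ne h.F0
  have h1 := (CUL.rp_spec h.F0).sum_mul hu (fun a => k a * g (emb a / emb f)) (by
    intro a b hab
    obtain ⟨c, hc⟩ := hab
    have e1 : emb a / emb f = emb b / emb f + emb c := by
      have : emb a = emb b + emb f * emb c := by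
        rw [← map_mul, ← map_add, ← hc]
        congr 1
        ring
      rw [this]
      field_simp
    simp only [e1, hg, h.per a b ⟨c, hc⟩])
  beta_reduce at h1
  rw [← h1, Finset.mul_sum]
  refine Finset.sum_congr rfl fun α _ => ?_
  have e2 : conj (k u) * k u = 1 := by
    rw [mul_comm, Complex.mul_conj, Complex.normSq_eq_norm_sq, h.norm hu]
    norm_num
  rw [h.mul, map_mul]
  calc k α * g (emb u * (emb α / emb f)) = (conj (k u) * k u) * (k α * g (emb u * (emb α / emb f))) := by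
        rw [e2, one_mul]
    _ = conj (k u) * (k u * k α * g (emb u * emb α / emb f)) := by
        rw [mul_div_assoc]
        ring

theorem b2_sum_w (h : Cu f k) (g : ℂ → ℂ) (hg : ∀ z a, g (z + emb a) = g z) :
    ∑ α ∈ rp f, k α * g (w * (emb α / emb f)) = ∑ α ∈ rp f, k α * g (emb α / emb f) := by
  have h1 := b2_sum h.toCh (u := CU.om) (b2_om_cop f) g hg
  rw [h.unit _ b2_om_unit, map_one, one_mul, CUL.emb_om] at h1
  exact h1

theorem b2_DT (h : Ch f k) (h2 : IsCoprime f 2) {α : Eis} (hα : IsCoprime α f) : emb α / emb f ∈ DT := by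
  refine ⟨h.nl hα, ?_⟩
  rintro ⟨a, ha⟩
  have hf : emb f ≠ 0 := CUL.l2_emb_ne h.F0
  have e1 : emb (2 * a * f) = emb (2 * α + f) := by
    rw [map_mul, map_mul, map_add, map_mul, map_ofNat, ha]
    field_simp
  have e2 := emb_injective e1
  have e3 : f ∣ 2 * α := ⟨2 * a - 1, by linear_combination -e2⟩
  have e4 : f ∣ α := h2.dvd_of_dvd_mul_left e3
  exact h.notUnit (hα.isUnit_of_dvd' e4 dvd_rfl)

theorem b2_Ak_w (u : ℝ) (z : ℂ) : NAB.Ak 0 u (w * z) = NAB.Ak 0 u z := by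
  unfold NAB.Ak
  rw [← (Units.mulLeft b2_om_unit.unit).tsum_eq]
  refine tsum_congr fun a => ?_
  have e1 : w * z + emb ((Units.mulLeft b2_om_unit.unit) a) = w * (z + emb a) := by
    rw [Units.mulLeft_apply, IsUnit.unit_spec, map_mul, CUL.emb_om]
    ring
  rw [e1, norm_mul, b2_nw, one_mul]

theorem b2_rep2 : IsRep 2 {0, 1, CU.om, CU.om * CU.om} := by
  have hoo : CU.om * CU.om = ⟨-1, -1⟩ := by
    apply emb_injective
    rw [map_mul, CUL.emb_om, emb_apply]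
    push_cast
    linear_combination b2_quad
  have hd : ∀ a : Eis, (2 : Eis) ∣ a ↔ (2 : ℤ) ∣ a.re ∧ (2 : ℤ) ∣ a.im := by
    intro a
    constructor
    · rintro ⟨c, rfl⟩
      constructor
      · exact ⟨c.re, by rw [two_mul, QuadraticAlgebra.re_add]; ring⟩
      · exact ⟨c.im, by rw [two_mul, QuadraticAlgebra.im_add]; ring⟩
    · rintro ⟨⟨x, hx⟩, ⟨y, hy⟩⟩
      refine ⟨⟨x, y⟩, ?_⟩
      rw [two_mul]
      ext
      · rw [QuadraticAlgebra.re_add, hx]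
        ring
      · rw [QuadraticAlgebra.im_add, hy]
        ring
  intro a
  have h0 : ∀ c : Eis, c ∈ ({0, 1, CU.om, CU.om * CU.om} : Finset Eis) ↔
      c = 0 ∨ c = 1 ∨ c = CU.om ∨ c = ⟨-1, -1⟩ := by
    intro c
    rw [hoo]
    simp only [Finset.mem_insert, Finset.mem_singleton]
  have key : ∀ c : Eis, (c ∈ ({0, 1, CU.om, CU.om * CU.om} : Finset Eis) ∧ 2 ∣ a - c) ↔
      (c = 0 ∧ a.re % 2 = 0 ∧ a.im % 2 = 0) ∨ (c = 1 ∧ a.re % 2 = 1 ∧ a.im % 2 = 0) ∨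
      (c = CU.om ∧ a.re % 2 = 0 ∧ a.im % 2 = 1) ∨ (c = ⟨-1, -1⟩ ∧ a.re % 2 = 1 ∧ a.im % 2 = 1) := by
    intro c
    rw [h0, hd, QuadraticAlgebra.re_sub, QuadraticAlgebra.im_sub]
    constructor
    · rintro ⟨rfl | rfl | rfl | rfl, h3, h4⟩
      · left
        rw [QuadraticAlgebra.re_zero] at h3
        rw [QuadraticAlgebra.im_zero] at h4
        refine ⟨rfl, ?_, ?_⟩ <;> omega
      · right; left
        rw [QuadraticAlgebra.re_one] at h3
        rw [QuadraticAlgebra.im_one] at h4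
        refine ⟨rfl, ?_, ?_⟩ <;> omega
      · right; right; left
        simp only [CU.om] at h3 h4
        refine ⟨rfl, ?_, ?_⟩ <;> omega
      · right; right; right
        simp only [] at h3 h4
        refine ⟨rfl, ?_, ?_⟩ <;> omega
    · rintro (⟨rfl, h3, h4⟩ | ⟨rfl, h3, h4⟩ | ⟨rfl, h3, h4⟩ | ⟨rfl, h3, h4⟩)
      · refine ⟨Or.inl rfl, ?_, ?_⟩
        · rw [QuadraticAlgebra.re_zero]
          omega
        · rw [QuadraticAlgebra.im_zero]
          omega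
      · refine ⟨Or.inr (Or.inl rfl), ?_, ?_⟩
        · rw [QuadraticAlgebra.re_one]
          omega
        · rw [QuadraticAlgebra.im_one]
          omega
      · refine ⟨Or.inr (Or.inr (Or.inl rfl)), ?_, ?_⟩ <;> simp only [CU.om] <;> omega
      · refine ⟨Or.inr (Or.inr (Or.inr rfl)), ?_, ?_⟩ <;> simp only [] <;> omega
  have h1 : a.re % 2 = 0 ∨ a.re % 2 = 1 := by omega
  have h2 : a.im % 2 = 0 ∨ a.im % 2 = 1 := by omega
  simp only [key]
  rcases h1 with h1 | h1 <;> rcases h2 with h2 | h2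
  · refine ⟨0, Or.inl ⟨rfl, h1, h2⟩, ?_⟩
    rintro c (⟨hc, h3, h4⟩ | ⟨hc, h3, h4⟩ | ⟨hc, h3, h4⟩ | ⟨hc, h3, h4⟩)
    · exact hc
    all_goals (exfalso; omega)
  · refine ⟨CU.om, Or.inr (Or.inr (Or.inl ⟨rfl, h1, h2⟩)), ?_⟩
    rintro c (⟨hc, h3, h4⟩ | ⟨hc, h3, h4⟩ | ⟨hc, h3, h4⟩ | ⟨hc, h3, h4⟩)
    · exfalso; omega
    · exfalso; omega
    · exact hc
    · exfalso; omega
  · refine ⟨1, Or.inr (Or.inl ⟨rfl, h1, h2⟩), ?_⟩
    rintro c (⟨hc, h3, h4⟩ | ⟨hc, h3, h4⟩ | ⟨hc, h3, h4⟩ | ⟨hc, h3, h4⟩)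
    · exfalso; omega
    · exact hc
    · exfalso; omega
    · exfalso; omega
  · refine ⟨⟨-1, -1⟩, Or.inr (Or.inr (Or.inr ⟨rfl, h1, h2⟩)), ?_⟩
    rintro c (⟨hc, h3, h4⟩ | ⟨hc, h3, h4⟩ | ⟨hc, h3, h4⟩ | ⟨hc, h3, h4⟩)
    · exfalso; omega
    · exfalso; omega
    · exfalso; omega
    · exact hc

theorem b2_dist2 {u : ℝ} (hu : 0 < u) (z : ℂ) :
    NAB.Ak 0 u z + NAB.Ak 0 u (z + 1 / 2) + NAB.Ak 0 u (z + w / 2) + NAB.Ak 0 u (z + w * w / 2) =
      NAB.Ak 0 (u / 4) (2 * z) := by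
  have h20 : (2 : Eis) ≠ 0 := by
    intro h
    exact absurd (congrArg QuadraticAlgebra.re h) (by decide)
  have hn : ((QuadraticAlgebra.norm (2 : Eis) : ℤ) : ℝ) = 4 := by
    have : QuadraticAlgebra.norm (2 : Eis) = (4 : ℤ) := by decide
    rw [this]
    norm_num
  have h1 := dist (p := 2) h20 hu (2 * z)
  rw [hn] at h1
  have h2 := (CUL.rp_spec h20).sum_eq b2_rep2 (fun t => ((NAB.Ak 0 u ((2 * z + emb t) / emb 2) : ℝ) : ℂ)) (by
    intro a b hab
    obtain ⟨c, hc⟩ := hab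
    have e1 : (2 * z + emb a) / emb 2 = (2 * z + emb b) / emb 2 + emb c := by
      have : emb a = emb b + emb 2 * emb c := by
        rw [← map_mul, ← map_add, ← hc]
        congr 1
        ring
      rw [this, map_ofNat]
      ring
    simp only [e1, NAB.Ak_per])
  have hoo : CU.om * CU.om = ⟨-1, -1⟩ := by
    apply emb_injective
    rw [map_mul, CUL.emb_om, emb_apply]
    push_cast
    linear_combination b2_quad
  have n1 : (0 : Eis) ∉ ({1, CU.om, CU.om * CU.om} : Finset Eis) := by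
    rw [hoo]
    decide
  have n2 : (1 : Eis) ∉ ({CU.om, CU.om * CU.om} : Finset Eis) := by
    rw [hoo]
    decide
  have n3 : (CU.om : Eis) ∉ ({CU.om * CU.om} : Finset Eis) := by
    rw [hoo]
    decide
  rw [Finset.sum_insert n1, Finset.sum_insert n2, Finset.sum_insert n3, Finset.sum_singleton,
    ← Complex.ofReal_sum, h1, map_zero, map_one, map_mul, CUL.emb_om, map_ofNat] at h2
  have h3 : ∀ t : ℂ, (2 * z + t) / 2 = z + t / 2 := fun t => by ring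
  rw [h3, h3, h3, h3] at h2
  rw [zero_div, add_zero] at h2
  apply Complex.ofReal_injective
  rw [h2]
  push_cast
  ring

theorem b2_H (h : Cu f k) (h2 : IsCoprime f 2) {u : ℝ} (hu : 0 < u) :
    3 * ∑ α ∈ rp f, k α * ((GT (emb α / emb f) u : ℝ) : ℂ) = conj (k 2) * SF f k (u / 4) - 4 * SF f k u := by
  have hA : ∀ (s : ℝ) (t z : ℂ) (a : Eis), ((NAB.Ak 0 s (z + emb a + t) : ℝ) : ℂ) = ((NAB.Ak 0 s (z + t) : ℝ) : ℂ) := by
    intro s t z a
    rw [show z + emb a + t = z + t + emb a by ring, NAB.Ak_per]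
  have e1 : ∑ α ∈ rp f, k α * ((NAB.Ak 0 u (emb α / emb f + w / 2) : ℝ) : ℂ) =
      ∑ α ∈ rp f, k α * ((NAB.Ak 0 u (emb α / emb f + 1 / 2) : ℝ) : ℂ) := by
    rw [← b2_sum_w h (fun z => ((NAB.Ak 0 u (z + w / 2) : ℝ) : ℂ)) (fun z a => hA u (w / 2) z a)]
    refine Finset.sum_congr rfl fun α _ => ?_
    rw [show w * (emb α / emb f) + w / 2 = w * (emb α / emb f + 1 / 2) by ring, b2_Ak_w]
  have e2 : ∑ α ∈ rp f, k α * ((NAB.Ak 0 u (emb α / emb f + w * w / 2) : ℝ) : ℂ) =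
      ∑ α ∈ rp f, k α * ((NAB.Ak 0 u (emb α / emb f + w / 2) : ℝ) : ℂ) := by
    rw [← b2_sum_w h (fun z => ((NAB.Ak 0 u (z + w * w / 2) : ℝ) : ℂ)) (fun z a => hA u (w * w / 2) z a)]
    refine Finset.sum_congr rfl fun α _ => ?_
    rw [show w * (emb α / emb f) + w * w / 2 = w * (emb α / emb f + w / 2) by ring, b2_Ak_w]
  have e3 : ∑ α ∈ rp f, k α * ((NAB.Ak 0 (u / 4) (2 * (emb α / emb f)) : ℝ) : ℂ) =
      conj (k 2) * SF f k (u / 4) := by
    have := b2_sum h.toCh (u := 2) h2.symm (fun z => ((NAB.Ak 0 (u / 4) z : ℝ) : ℂ)) (by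
      intro z a
      rw [NAB.Ak_per])
    rw [map_ofNat] at this
    exact this
  have e4 : ∑ α ∈ rp f, k α * ((NAB.Ak 0 (u / 4) (2 * (emb α / emb f)) : ℝ) : ℂ) =
      SF f k u + ∑ α ∈ rp f, k α * ((NAB.Ak 0 u (emb α / emb f + 1 / 2) : ℝ) : ℂ) +
      ∑ α ∈ rp f, k α * ((NAB.Ak 0 u (emb α / emb f + w / 2) : ℝ) : ℂ) +
      ∑ α ∈ rp f, k α * ((NAB.Ak 0 u (emb α / emb f + w * w / 2) : ℝ) : ℂ) := by
    rw [SF, ← Finset.sum_add_distrib, ← Finset.sum_add_distrib, ← Finset.sum_add_distrib]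
    refine Finset.sum_congr rfl fun α _ => ?_
    rw [← b2_dist2 hu]
    push_cast
    ring
  rw [e2, e1, e3] at e4
  have e5 : ∑ α ∈ rp f, k α * ((GT (emb α / emb f) u : ℝ) : ℂ) =
      ∑ α ∈ rp f, k α * ((NAB.Ak 0 u (emb α / emb f + 1 / 2) : ℝ) : ℂ) - SF f k u := by
    rw [SF, ← Finset.sum_sub_distrib]
    refine Finset.sum_congr rfl fun α _ => ?_
    rw [GT]
    push_cast
    ring
  rw [e5, e4]
  ring

theorem b2_SF4_int (h : Ch f k) :
    IntegrableOn (fun u : ℝ => SF f k (u / 4) / (u : ℂ)) (Ioi 0) ∧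
      ∫ u in Ioi (0 : ℝ), SF f k (u / 4) / (u : ℂ) = IF f k := by
  have e0 : (fun u : ℝ => SF f k (u / 4) / (u : ℂ)) =
      fun u : ℝ => (1 / 4 : ℂ) * ((fun v : ℝ => SF f k v / (v : ℂ)) (u * (1 / 4))) := by
    funext u
    simp only []
    rw [show u * (1 / 4) = u / 4 by ring]
    push_cast
    rcases eq_or_ne (u : ℂ) 0 with hu | hu
    · rw [hu]
      simp
    · field_simp
  constructor
  · rw [e0]
    refine Integrable.const_mul ?_ _
    have := (integrableOn_Ioi_comp_mul_right_iff (fun v : ℝ => SF f k v / (v : ℂ)) 0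
      (by norm_num : (0 : ℝ) < 1 / 4)).2 (by rw [zero_mul]; exact SF_int h)
    exact this
  · rw [e0, integral_const_mul, integral_comp_mul_right_Ioi (fun v : ℝ => SF f k v / (v : ℂ)) 0
      (by norm_num : (0 : ℝ) < 1 / 4), zero_mul, IF]
    rw [Complex.real_smul]
    push_cast
    ring

theorem b2_LT (h : Cu f k) (h2 : IsCoprime f 2) :
    3 * ∑ α ∈ rp f, k α * ((LT (emb α / emb f) : ℝ) : ℂ) = (conj (k 2) - 4) * IF f k := by
  have e1 : ∀ α ∈ rp f, k α * ((LT (emb α / emb f) : ℝ) : ℂ) =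
      ∫ u in Ioi (0 : ℝ), k α * (((GT (emb α / emb f) u / u : ℝ)) : ℂ) := by
    intro α _
    rw [integral_const_mul, LT]
    congr 1
    exact (integral_ofReal).symm
  have e2 : ∀ α ∈ rp f, IntegrableOn (fun u : ℝ => k α * (((GT (emb α / emb f) u / u : ℝ)) : ℂ)) (Ioi 0) := by
    intro α _
    by_cases hα : IsCoprime α f
    · exact Integrable.const_mul (LT_int (b2_DT h.toCh h2 hα)).ofReal _
    · rw [h.zero α hα]
      simp
  rw [Finset.sum_congr rfl e1, ← integral_finsetSum _ e2, ← integral_const_mul]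
  have e3 : ∫ u in Ioi (0 : ℝ), 3 * ∑ α ∈ rp f, k α * (((GT (emb α / emb f) u / u : ℝ)) : ℂ) =
      ∫ u in Ioi (0 : ℝ), (conj (k 2) * (SF f k (u / 4) / (u : ℂ)) - 4 * (SF f k u / (u : ℂ))) := by
    refine setIntegral_congr_fun measurableSet_Ioi fun u hu => ?_
    have hu0 : (0 : ℝ) < u := hu
    have e4 := b2_H h h2 hu0
    have e5 : 3 * ∑ α ∈ rp f, k α * (((GT (emb α / emb f) u / u : ℝ)) : ℂ) =
        (3 * ∑ α ∈ rp f, k α * ((GT (emb α / emb f) u : ℝ) : ℂ)) / (u : ℂ) := by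
      rw [mul_div_assoc, Finset.sum_div]
      congr 1
      refine Finset.sum_congr rfl fun α _ => ?_
      push_cast
      ring
    rw [e5, e4]
    ring
  rw [e3, integral_sub ((b2_SF4_int h.toCh).1.const_mul _) ((SF_int h.toCh).const_mul _),
    integral_const_mul, integral_const_mul, (b2_SF4_int h.toCh).2, IF]
  ring

theorem b2_y {z : ℂ} (h0 : z ∈ DT) (h1 : w * z ∈ DT) (h2 : w * (w * z) ∈ DT) :
    2 * Real.log ‖yw z‖ = Real.log 4 + Real.log ‖xw z - eh‖ + Real.log ‖xw (w * z) - eh‖ +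
      Real.log ‖xw (w * (w * z)) - eh‖ := by
  have e0 := weq z h0.1
  have e1 := eh_cube
  have n0 := norm_ne_zero_iff.2 (xw_sub_eh_ne h0)
  have n1 := norm_ne_zero_iff.2 (xw_sub_eh_ne h1)
  have n2 := norm_ne_zero_iff.2 (xw_sub_eh_ne h2)
  have e2 : yw z ^ 2 = 4 * (xw z - eh) * (xw (w * z) - eh) * (xw (w * (w * z)) - eh) := by
    have a1 : xw (w * z) = w * xw z := xw_w z
    have a2 : xw (w * (w * z)) = w * (w * xw z) := by rw [xw_w, xw_w]
    rw [e0, a1, a2]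
    linear_combination 4 * e1 + (4 * (1 - w) * xw z ^ 3 + 4 * eh * xw z ^ 2 * w - 4 * eh ^ 2 * xw z) * b2_quad
  have e3 := congrArg norm e2
  rw [norm_pow, norm_mul, norm_mul, norm_mul] at e3
  have e4 := congrArg Real.log e3
  rw [Real.log_pow, Real.log_mul (by
    refine mul_ne_zero (mul_ne_zero ?_ n0) n1
    norm_num) n2, Real.log_mul (by
    refine mul_ne_zero ?_ n0
    norm_num) n1, Real.log_mul (by norm_num) n0] at e4
  have e5 : ‖(4 : ℂ)‖ = 4 := by norm_num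
  rw [e5] at e4
  push_cast at e4
  linarith

theorem log_y (h : Cu f k) (h2 : IsCoprime f 2) :
    ∑ α ∈ rp f, k α * ((Real.log ‖yw (emb α / emb f)‖ : ℝ) : ℂ) = (1 / 2) * (4 - conj (k 2)) * IF f k := by
  obtain ⟨C, hC⟩ := LT_const
  have hDT : ∀ α, IsCoprime α f → emb α / emb f ∈ DT := fun α hα => b2_DT h.toCh h2 hα
  have hw : ∀ α, IsCoprime α f → w * (emb α / emb f) ∈ DT := by
    intro α hα
    have := hDT (CU.om * α) (IsCoprime.mul_left (b2_om_cop f) hα)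
    rw [map_mul, CUL.emb_om, mul_div_assoc] at this
    exact this
  have hww : ∀ α, IsCoprime α f → w * (w * (emb α / emb f)) ∈ DT := by
    intro α hα
    have := hw (CU.om * α) (IsCoprime.mul_left (b2_om_cop f) hα)
    rw [map_mul, CUL.emb_om, mul_div_assoc] at this
    exact this
  have hper : ∀ (z : ℂ) (a : Eis), ((Real.log ‖xw (z + emb a) - eh‖ : ℝ) : ℂ) = ((Real.log ‖xw z - eh‖ : ℝ) : ℂ) := by
    intro z a
    rw [xw_add]
  have e1 : ∑ α ∈ rp f, k α * ((Real.log ‖xw (w * (emb α / emb f)) - eh‖ : ℝ) : ℂ) =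
      ∑ α ∈ rp f, k α * ((Real.log ‖xw (emb α / emb f) - eh‖ : ℝ) : ℂ) :=
    b2_sum_w h (fun z => ((Real.log ‖xw z - eh‖ : ℝ) : ℂ)) hper
  have hper2 : ∀ (z : ℂ) (a : Eis), ((Real.log ‖xw (w * (z + emb a)) - eh‖ : ℝ) : ℂ) =
      ((Real.log ‖xw (w * z) - eh‖ : ℝ) : ℂ) := by
    intro z a
    rw [xw_w, xw_w, xw_add]
  have e2 : ∑ α ∈ rp f, k α * ((Real.log ‖xw (w * (w * (emb α / emb f))) - eh‖ : ℝ) : ℂ) =
      ∑ α ∈ rp f, k α * ((Real.log ‖xw (w * (emb α / emb f)) - eh‖ : ℝ) : ℂ) :=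
    b2_sum_w h (fun z => ((Real.log ‖xw (w * z) - eh‖ : ℝ) : ℂ)) hper2
  have e3 : ∑ α ∈ rp f, k α * ((Real.log ‖xw (emb α / emb f) - eh‖ : ℝ) : ℂ) =
      - ∑ α ∈ rp f, k α * ((LT (emb α / emb f) : ℝ) : ℂ) := by
    have : ∑ α ∈ rp f, k α * ((Real.log ‖xw (emb α / emb f) - eh‖ : ℝ) : ℂ) =
        ∑ α ∈ rp f, (k α * (C : ℂ) - k α * ((LT (emb α / emb f) : ℝ) : ℂ)) := by
      refine Finset.sum_congr rfl fun α _ => ?_
      by_cases hα : IsCoprime α f
      · rw [← hC _ (hDT α hα)]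
        push_cast
        ring
      · rw [h.zero α hα]
        ring
    rw [this, Finset.sum_sub_distrib, ← Finset.sum_mul, h.toCh.sum_zero]
    ring
  have e4 : 2 * ∑ α ∈ rp f, k α * ((Real.log ‖yw (emb α / emb f)‖ : ℝ) : ℂ) =
      (∑ α ∈ rp f, k α) * ((Real.log 4 : ℝ) : ℂ) +
      ∑ α ∈ rp f, k α * ((Real.log ‖xw (emb α / emb f) - eh‖ : ℝ) : ℂ) +
      ∑ α ∈ rp f, k α * ((Real.log ‖xw (w * (emb α / emb f)) - eh‖ : ℝ) : ℂ) +
      ∑ α ∈ rp f, k α * ((Real.log ‖xw (w * (w * (emb α / emb f))) - eh‖ : ℝ) : ℂ) := by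
    rw [Finset.mul_sum, Finset.sum_mul, ← Finset.sum_add_distrib, ← Finset.sum_add_distrib,
      ← Finset.sum_add_distrib]
    refine Finset.sum_congr rfl fun α _ => ?_
    by_cases hα : IsCoprime α f
    · have := b2_y (hDT α hα) (hw α hα) (hww α hα)
      have e5 := congrArg (fun x : ℝ => k α * (x : ℂ)) this
      beta_reduce at e5
      push_cast at e5
      linear_combination e5
    · rw [h.zero α hα]
      ring
  rw [h.toCh.sum_zero, e2, e1, e3] at e4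
  have e6 := b2_LT h h2
  linear_combination (1 / 2) * e4 - (1 / 2) * e6

theorem log_y_norm (h : Cu f k) (h2 : IsCoprime f 2) : ∃ n : ℕ, (n = 9 ∨ n = 21) ∧
    ‖∑ α ∈ rp f, k α * ((Real.log ‖yw (emb α / emb f)‖ : ℝ) : ℂ)‖ ^ 2 = (n : ℝ) / 4 * ‖IF f k‖ ^ 2 := by
  have hw : ∀ z : ℂ, ‖4 - conj z‖ ^ 2 = ‖4 - z‖ ^ 2 := by
    intro z
    rw [← Complex.norm_conj (4 - z), map_sub, map_ofNat]
  have key : ∀ n : ℕ, ‖4 - k 2‖ ^ 2 = n →
      ‖∑ α ∈ rp f, k α * ((Real.log ‖yw (emb α / emb f)‖ : ℝ) : ℂ)‖ ^ 2 = (n : ℝ) / 4 * ‖IF f k‖ ^ 2 := by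
    intro n hn
    rw [log_y h h2, norm_mul, norm_mul, mul_pow, mul_pow, hw, hn]
    have e1 : ‖(1 / 2 : ℂ)‖ = 1 / 2 := by norm_num
    rw [e1]
    ring
  have hre : w.re = -1 / 2 := rfl
  have him : w.im = √3 / 2 := rfl
  have hs : √3 * √3 = 3 := Real.mul_self_sqrt (by norm_num)
  rcases h.toCh.cases h2.symm with h3 | h3 | h3
  · refine ⟨9, Or.inl rfl, key 9 ?_⟩
    rw [h3]
    norm_num
  · refine ⟨21, Or.inr rfl, key 21 ?_⟩
    rw [h3, ← Complex.normSq_eq_norm_sq, Complex.normSq_apply, Complex.sub_re, Complex.sub_im, hre, him]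
    norm_num
    linarith
  · refine ⟨21, Or.inr rfl, key 21 ?_⟩
    rw [h3, CUL.w2, ← Complex.normSq_eq_norm_sq, Complex.normSq_apply]
    simp only [Complex.sub_re, Complex.sub_im, Complex.neg_re, Complex.neg_im, Complex.one_re, Complex.one_im, hre, him]
    norm_num
    linarith

end J2E
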