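import Pool.Agent.J2E.B1
import Pool.Agent.J2E.A2

/-!
# [J2E-B3] the character sum of `log |h(α/f)|`, `f` odd, `k(ω) ≠ 1`

PROOF. `hT_sq`: `h(z)² = x(2 z) - e` for `z` with `y(z) ≠ 0`: duplication `x(2z) = (x⁴ - 2x)/(4x³ + 1)` (`JGL.u2_dbl`), `e³ = -1/4`: `(x² - 2 e x - 2 e²)² = x⁴ - 2 x - e (4 x³ + 1)`; check: `= x⁴ - 4 e x³ + (4 e² - 4 e²) x² + 8 e³ x + 4 e⁴`.
So `2 log |h(α/f)| = log |x(2α/f) - e| = C - LT(2α/f)`, and `∑ k(α) log |h(α/f)| = -(1/2) ∑ k(α) LT(2α/f) = -(1/2) conj (k 2) ∑ k(α) LT(α/f)` (`2` prime to `f`).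
`∑ k(α) T₀(u, α/f) = 0` (`T₀(u, ω z) = T₀(u, z)`, `k ω ≠ 1`). `∑_{α mod f} k(α) T₀(u, α/f + 1/2) = ∑_α k(α) T₀(u, (2α + f)/(2f))`: `β = 2α + f` runs through the classes modulo `2f` with `β ≡ f mod 2`. Let `f ≡ ω^i mod 2` (`f` odd): `κ(β) = κ(ω^(-i) β) = k(ω^(-i) β) = k(ω)^(-i) k(2) k(α)`
(`ω^(-i) β ≡ 1 mod 2`). So it is `const ∑_{β ≡ f mod 2} κ(β) T₀(u, β/(2f))`, `|const| = 1`, and `∑_{β ≡ f} = ∑_{β ≡ ω f} = ∑_{β ≡ ω² f}` (`β → ω β`), together `SF (2f) κ u` (`κ β = 0` for even `β`). Hence `∑ k(α) LT(α/f) = const (1/3) IF (2f) κ`.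
-/

set_option autoImplicit false

open MeasureTheory Set Filter Topology
open scoped Classical ComplexConjugate

namespace J2E

open CM27 JZ
open CU (la eE)
open CUL (Nl ta rp IsRep zw GalU)
open JGL (GalP)

variable {f : Eis} {k κ : Eis → ℂ}

theorem hT_sq {z : ℂ} (hz : Nl z) (h2 : Nl (z + z)) : hT z ^ 2 = xw (2 * z) - eh := by
  have h2' : Off z := by
    unfold Off
    rw [two_mul]
    exact h2
  have hy : yw z ≠ 0 := by
    intro h0
    exact h2' ((yw_eq_zero_iff z hz).1 h0)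
  have e1 := xw_two z h2'
  have e2 := weq z hz
  have e3 := eh_cube
  have e4 : yw z ^ 2 ≠ 0 := pow_ne_zero 2 hy
  have e5 : (xw z ^ 2 - 2 * eh * xw z - 2 * eh ^ 2) ^ 2 = (xw (2 * z) - eh) * yw z ^ 2 := by
    rw [e2]
    linear_combination -e1 + (8 * xw z + 4 * eh) * e3
  unfold hT
  rw [div_pow, div_eq_iff e4]
  exact e5

/-- `T₀(u, ω z) = T₀(u, z)` -/
theorem b3_Ak_w (u : ℝ) (z : ℂ) : NAB.Ak 0 u (w * z) = NAB.Ak 0 u z := by
  unfold NAB.Ak
  rw [← a1_om.tsum_eq (fun b : Eis => ‖w * z + emb b‖ ^ 0 * Real.exp (-(Real.pi * u * ‖w * z + emb b‖ ^ 2)))]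
  refine tsum_congr fun b => ?_
  have h1 : ‖w * z + emb (a1_om b)‖ = ‖z + emb b‖ := by
    have hw : ‖w‖ = 1 := by
      have h3 : ‖w‖ ^ 3 = 1 := by rw [← norm_pow, a1_w3, norm_one]
      exact (pow_eq_one_iff_of_nonneg (norm_nonneg _) (by norm_num)).1 h3
    rw [a1_emb_mul, ← mul_add, norm_mul, hw, one_mul]
  rw [h1]

theorem b3_LT_per (z : ℂ) (a : Eis) : LT (z + emb a) = LT z := by
  unfold LT GT
  have e1 : z + emb a + 1 / 2 = (z + 1 / 2) + emb a := by ring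
  simp only [e1, NAB.Ak_per]

/-- representatives modulo `2` -/
theorem b3_rep2 : IsRep (2 : Eis) {0, 1, CU.om, CU.om ^ 2} := by
  intro a
  have key : ∀ c : Eis, (2 : Eis) ∣ a - c ↔ (2 : ℤ) ∣ a.re - c.re ∧ (2 : ℤ) ∣ a.im - c.im := by
    intro c
    constructor
    · rintro ⟨t, ht⟩
      have h2 := congrArg QuadraticAlgebra.re ht
      have h3 := congrArg QuadraticAlgebra.im ht
      simp only [QuadraticAlgebra.re_sub, QuadraticAlgebra.im_sub, QuadraticAlgebra.re_mul, QuadraticAlgebra.im_mul,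
        QuadraticAlgebra.re_ofNat, QuadraticAlgebra.im_ofNat] at h2 h3
      exact ⟨⟨t.re, by linarith⟩, ⟨t.im, by linarith⟩⟩
    · rintro ⟨⟨s, hs⟩, ⟨t, ht⟩⟩
      refine ⟨⟨s, t⟩, ?_⟩
      ext
      · simp only [QuadraticAlgebra.re_sub, QuadraticAlgebra.re_mul, QuadraticAlgebra.re_ofNat,
          QuadraticAlgebra.im_ofNat]
        linarith
      · simp only [QuadraticAlgebra.im_sub, QuadraticAlgebra.im_mul, QuadraticAlgebra.re_ofNat,
          QuadraticAlgebra.im_ofNat]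
        linarith
  have o0 : (0 : Eis).re = 0 ∧ (0 : Eis).im = 0 := by decide
  have o1 : (1 : Eis).re = 1 ∧ (1 : Eis).im = 0 := by decide
  have o2 : (CU.om : Eis).re = 0 ∧ (CU.om : Eis).im = 1 := by decide
  have o3 : (CU.om ^ 2 : Eis).re = -1 ∧ (CU.om ^ 2 : Eis).im = -1 := by decide
  have hex : ∃ c, c ∈ ({0, 1, CU.om, CU.om ^ 2} : Finset Eis) ∧ (2 : Eis) ∣ a - c := by
    rcases Int.emod_two_eq_zero_or_one a.re with h1 | h1 <;> rcases Int.emod_two_eq_zero_or_one a.im with h2 | h2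
    · exact ⟨0, by simp, (key 0).2 (by rw [o0.1, o0.2]; omega)⟩
    · exact ⟨CU.om, by simp, (key _).2 (by rw [o2.1, o2.2]; omega)⟩
    · exact ⟨1, by simp, (key _).2 (by rw [o1.1, o1.2]; omega)⟩
    · exact ⟨CU.om ^ 2, by simp, (key _).2 (by rw [o3.1, o3.2]; omega)⟩
  obtain ⟨c, hc, hd⟩ := hex
  refine ⟨c, ⟨hc, hd⟩, ?_⟩
  rintro c' ⟨hc', hd'⟩
  rw [key] at hd hd'
  simp only [Finset.mem_insert, Finset.mem_singleton] at hc hc'
  rcases hc with rfl | rfl | rfl | rfl <;> rcases hc' with rfl | rfl | rfl | rfl <;>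
    simp only [o0.1, o0.2, o1.1, o1.2, o2.1, o2.2, o3.1, o3.2] at hd hd' <;> first | rfl | (exfalso; omega)

theorem b3_om_unit : IsUnit (CU.om : Eis) := .of_mul_eq_one (CU.om ^ 2) (by decide)

theorem b3_unit_cop {η : Eis} (hη : IsUnit η) (x : Eis) : IsCoprime η x := by
  obtain ⟨v, hv⟩ := hη.exists_left_inv
  exact ⟨v, 0, by linear_combination hv⟩

theorem b3_emb_om : emb CU.om = w := a1_emb_om

/-- `∑ k(α) T₀(u, α/f) = 0` -/
theorem b3_zero (h : Ch f k) (hw : k CU.om ≠ 1) (u : ℝ) :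
    ∑ α ∈ rp f, k α * ((NAB.Ak 0 u (emb α / emb f) : ℝ) : ℂ) = 0 := by
  have hf := h.F0
  have hfe : emb f ≠ 0 := CUL.l2_emb_ne hf
  have hc : IsCoprime CU.om f := b3_unit_cop b3_om_unit f
  have hper : ∀ a b, f ∣ a - b → k a * ((NAB.Ak 0 u (emb a / emb f) : ℝ) : ℂ) =
      k b * ((NAB.Ak 0 u (emb b / emb f) : ℝ) : ℂ) := by
    intro a b hab
    rw [h.per a b hab]
    obtain ⟨t, ht⟩ := hab
    have e1 : emb a / emb f = emb b / emb f + emb t := by
      rw [div_add' _ _ _ hfe]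
      congr 1
      rw [mul_comm, ← map_mul, ← ht, map_sub]
      ring
    rw [e1, NAB.Ak_per]
  have h1 := (CUL.rp_spec hf).sum_mul hc (fun α => k α * ((NAB.Ak 0 u (emb α / emb f) : ℝ) : ℂ)) hper
  have h2 : ∀ α ∈ rp f, k (CU.om * α) * ((NAB.Ak 0 u (emb (CU.om * α) / emb f) : ℝ) : ℂ) =
      k CU.om * (k α * ((NAB.Ak 0 u (emb α / emb f) : ℝ) : ℂ)) := by
    intro α _
    rw [h.mul, map_mul, b3_emb_om, mul_div_assoc, b3_Ak_w, mul_assoc]
  rw [Finset.sum_congr rfl h2, ← Finset.mul_sum] at h1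
  have h3 : (k CU.om - 1) * ∑ α ∈ rp f, k α * ((NAB.Ak 0 u (emb α / emb f) : ℝ) : ℂ) = 0 := by
    rw [sub_mul, one_mul, h1, sub_self]
  rcases mul_eq_zero.1 h3 with h4 | h4
  · exact absurd (sub_eq_zero.1 h4) hw
  · exact h4

theorem b3_SF (hf : f ≠ 0) (h2 : IsCoprime f 2) (h' : Cu (2 * f) κ) (u : ℝ) :
    SF (2 * f) κ u = 3 * ∑ d ∈ rp f, κ (f + 2 * d) * ((NAB.Ak 0 u (emb d / emb f + 1 / 2) : ℝ) : ℂ) := by
  have hfe : emb f ≠ 0 := CUL.l2_emb_ne hf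
  have hF := h'.F0
  have hFe : emb (2 * f) ≠ 0 := CUL.l2_emb_ne hF
  have hFe' : emb (2 * f) = 2 * emb f := by rw [map_mul, map_ofNat]
  have h2e : (2 : ℂ) ≠ 0 := two_ne_zero
  set g : Eis → ℂ := fun c => κ c * ((NAB.Ak 0 u (emb c / emb (2 * f)) : ℝ) : ℂ) with hgdef
  have hg : ∀ a b, 2 * f ∣ a - b → g a = g b := by
    intro a b hab
    simp only [hgdef]
    rw [h'.per a b hab]
    obtain ⟨t, ht⟩ := hab
    have e1 : emb a / emb (2 * f) = emb b / emb (2 * f) + emb t := by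
      rw [div_add' _ _ _ hFe]
      congr 1
      rw [mul_comm, ← map_mul, ← ht, map_sub]
      ring
    rw [e1, NAB.Ak_per]
  have hgo : ∀ a, g (CU.om * a) = g a := by
    intro a
    simp only [hgdef]
    rw [h'.mul, h'.unit _ b3_om_unit, one_mul, map_mul, b3_emb_om, mul_div_assoc, b3_Ak_w]
  have hR := CUL.rp_spec hf
  have h1 : SF (2 * f) κ u = ∑ c ∈ ({0, 1, CU.om, CU.om ^ 2} : Finset Eis), ∑ d ∈ rp f, g (c * f + d * 2) :=
    CUL.IsRep.crt h2.symm b3_rep2 hR g (CUL.rp_spec hF) hg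
  have n1 : (0 : Eis) ∉ ({1, CU.om, CU.om ^ 2} : Finset Eis) := by decide
  have n2 : (1 : Eis) ∉ ({CU.om, CU.om ^ 2} : Finset Eis) := by decide
  have n3 : (CU.om : Eis) ∉ ({CU.om ^ 2} : Finset Eis) := by decide
  rw [Finset.sum_insert n1, Finset.sum_insert n2, Finset.sum_insert n3, Finset.sum_singleton] at h1
  have a0 : ∑ d ∈ rp f, g (0 * f + d * 2) = 0 := by
    refine Finset.sum_eq_zero fun d _ => ?_
    have : κ (0 * f + d * 2) = 0 := by
      apply h'.zero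
      rintro ⟨x, y, hxy⟩
      have h3 : IsUnit (2 : Eis) := isUnit_of_dvd_one ⟨x * d + y * f, by linear_combination -hxy⟩
      have h4 : ¬ IsUnit (2 : Eis) := Q3.prime_two.not_isUnit
      exact h4 h3
    show κ (0 * f + d * 2) * _ = 0
    rw [this, zero_mul]
  have a1 : ∑ d ∈ rp f, g (1 * f + d * 2) =
      ∑ d ∈ rp f, κ (f + 2 * d) * ((NAB.Ak 0 u (emb d / emb f + 1 / 2) : ℝ) : ℂ) := by
    refine Finset.sum_congr rfl fun d _ => ?_
    have e1 : 1 * f + d * 2 = f + 2 * d := by ring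
    have e2 : emb (f + 2 * d) / emb (2 * f) = emb d / emb f + 1 / 2 := by
      rw [hFe', map_add, map_mul, map_ofNat]
      field_simp
      ring
    simp only [hgdef]
    rw [e1, e2]
  have step : ∀ c, (∀ a, g (c * a) = g a) → IsCoprime c f →
      ∑ d ∈ rp f, g (c * f + d * 2) = ∑ d ∈ rp f, g (1 * f + d * 2) := by
    intro c hc1 hc2
    rw [← hR.sum_mul hc2 (fun d => g (c * f + d * 2)) (by
      intro a b hab
      apply hg
      obtain ⟨t, ht⟩ := hab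
      exact ⟨t, by linear_combination 2 * ht⟩)]
    refine Finset.sum_congr rfl fun d _ => ?_
    have e1 : c * f + c * d * 2 = c * (1 * f + d * 2) := by ring
    rw [e1, hc1]
  have a2 := step CU.om hgo (b3_unit_cop b3_om_unit f)
  have a3 := step (CU.om ^ 2) (fun a => by
    rw [pow_two, mul_assoc, hgo, hgo]) (b3_unit_cop (b3_om_unit.pow 2) f)
  rw [h1, a0, a2, a3, a1]
  ring

theorem b3_kappa (h : Ch f k) (h2 : IsCoprime f 2) (h' : Cu (2 * f) κ)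
    (hκ : ∀ x, IsCoprime x (2 * f) → (2 : Eis) ∣ x - 1 → κ x = k x) :
    ∃ c : ℂ, ‖c‖ = 1 ∧ ∀ d, κ (f + 2 * d) = c * k d := by
  have hex : ∃ η : Eis, IsUnit η ∧ (2 : Eis) ∣ η * f - 1 := by
    obtain ⟨e, ⟨he, hd⟩, -⟩ := b3_rep2 f
    simp only [Finset.mem_insert, Finset.mem_singleton] at he
    have ho : (CU.om : Eis) ^ 3 = 1 := by decide
    obtain ⟨t, ht⟩ := hd
    rcases he with rfl | rfl | rfl | rfl
    · exfalso
      obtain ⟨x, y, hxy⟩ := h2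
      rw [sub_zero] at ht
      have h3 : IsUnit (2 : Eis) := isUnit_of_dvd_one ⟨x * t + y, by linear_combination -hxy + x * ht⟩
      exact Q3.prime_two.not_isUnit h3
    · exact ⟨1, isUnit_one, ⟨t, by linear_combination ht⟩⟩
    · exact ⟨CU.om ^ 2, b3_om_unit.pow 2, ⟨CU.om ^ 2 * t, by linear_combination CU.om ^ 2 * ht + ho⟩⟩
    · exact ⟨CU.om, b3_om_unit, ⟨CU.om * t, by linear_combination CU.om * ht + ho⟩⟩
  obtain ⟨η, hη, hd⟩ := hex
  have hcop : IsCoprime (2 * η) f := h2.symm.mul_left (b3_unit_cop hη f)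
  refine ⟨k (2 * η), h.norm hcop, fun d => ?_⟩
  by_cases hc : IsCoprime d f
  · have c1 : IsCoprime (f + 2 * d) f := by
      have h3 : IsCoprime (2 * d) f := h2.symm.mul_left hc
      obtain ⟨x, y, hxy⟩ := h3
      exact ⟨x, y - x, by linear_combination hxy⟩
    have c2 : IsCoprime (f + 2 * d) 2 := by
      obtain ⟨x, y, hxy⟩ := h2
      exact ⟨x, y - x * d, by linear_combination hxy⟩
    have c3 : IsCoprime (η * (f + 2 * d)) (2 * f) := (b3_unit_cop hη (2 * f)).mul_left (c2.mul_right c1)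
    have e1 : κ (f + 2 * d) = κ (η * (f + 2 * d)) := by rw [h'.mul, h'.unit η hη, one_mul]
    rw [e1, hκ _ c3 (by
      obtain ⟨t, ht⟩ := hd
      exact ⟨t + η * d, by linear_combination ht⟩), ← h.mul]
    apply h.per
    exact ⟨η, by ring⟩
  · rw [h.zero d hc, mul_zero]
    apply h'.zero
    intro h3
    apply hc
    obtain ⟨x, y, hxy⟩ := h3
    obtain ⟨s, t, hst⟩ := hcop
    exact ⟨2 * x, x + 2 * y, by linear_combination hxy⟩

theorem b3_cop (h2 : IsCoprime f 2) {α : Eis} (hα : IsCoprime α f) : IsCoprime (f + 2 * α) (2 * f) := by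
  have c1 : IsCoprime (f + 2 * α) f := by
    have h3 : IsCoprime (2 * α) f := h2.symm.mul_left hα
    obtain ⟨x, y, hxy⟩ := h3
    exact ⟨x, y - x, by linear_combination hxy⟩
  have c2 : IsCoprime (f + 2 * α) 2 := by
    obtain ⟨x, y, hxy⟩ := h2
    exact ⟨x, y - x * α, by linear_combination hxy⟩
  exact c2.mul_right c1

theorem b3_DT (h : Ch f k) (h2 : IsCoprime f 2) (h' : Cu (2 * f) κ) {α : Eis} (hα : IsCoprime α f) :
    emb α / emb f ∈ DT := by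
  refine ⟨h.nl hα, ?_⟩
  have hfe : emb f ≠ 0 := CUL.l2_emb_ne h.F0
  have h1 := h'.toCh.nl (b3_cop h2 hα)
  have e2 : emb (f + 2 * α) / emb (2 * f) = emb α / emb f + 1 / 2 := by
    rw [map_mul, map_ofNat, map_add, map_mul, map_ofNat]
    field_simp
    ring
  rwa [e2] at h1

/-- the sum of the `LT(α/f)` -/
theorem b3_J (h : Ch f k) (h2 : IsCoprime f 2) (hw : k CU.om ≠ 1) (h' : Cu (2 * f) κ)
    (hκ : ∀ x, IsCoprime x (2 * f) → (2 : Eis) ∣ x - 1 → κ x = k x) :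
    ‖∑ α ∈ rp f, k α * ((LT (emb α / emb f) : ℝ) : ℂ)‖ = 1 / 3 * ‖IF (2 * f) κ‖ := by
  obtain ⟨c, hc1, hc⟩ := b3_kappa h h2 h' hκ
  have hf := h.F0
  have e1 : ∀ α ∈ rp f, k α * ((LT (emb α / emb f) : ℝ) : ℂ) =
      ∫ u in Ioi (0 : ℝ), k α * ((GT (emb α / emb f) u / u : ℝ) : ℂ) := by
    intro α _
    have e2 : ((LT (emb α / emb f) : ℝ) : ℂ) = ∫ u in Ioi (0 : ℝ), ((GT (emb α / emb f) u / u : ℝ) : ℂ) :=
      integral_ofReal.symm
    rw [integral_const_mul, e2]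
  have hint : ∀ α ∈ rp f, IntegrableOn (fun u : ℝ => k α * ((GT (emb α / emb f) u / u : ℝ) : ℂ)) (Ioi 0) := by
    intro α _
    by_cases hα : IsCoprime α f
    · have h3 := LT_int (b3_DT h h2 h' hα)
      exact (h3.ofReal).const_mul (k α)
    · rw [h.zero α hα]
      simp only [zero_mul]
      exact integrableOn_zero
  have e2 : IF (2 * f) κ = 3 * c * ∑ α ∈ rp f, k α * ((LT (emb α / emb f) : ℝ) : ℂ) := by
    rw [Finset.sum_congr rfl e1, ← integral_finsetSum _ hint, ← integral_const_mul]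
    unfold IF
    refine setIntegral_congr_fun measurableSet_Ioi fun u hu => ?_
    have hu0 : (0 : ℝ) < u := hu
    have hu1 : (u : ℂ) ≠ 0 := by
      rw [Complex.ofReal_ne_zero]
      exact hu0.ne'
    rw [b3_SF hf h2 h' u]
    have h3 : ∑ α ∈ rp f, k α * ((GT (emb α / emb f) u / u : ℝ) : ℂ) =
        (∑ α ∈ rp f, k α * ((NAB.Ak 0 u (emb α / emb f + 1 / 2) : ℝ) : ℂ) -
          ∑ α ∈ rp f, k α * ((NAB.Ak 0 u (emb α / emb f) : ℝ) : ℂ)) / (u : ℂ) := by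
      rw [← Finset.sum_sub_distrib, Finset.sum_div]
      refine Finset.sum_congr rfl fun α _ => ?_
      unfold GT
      push_cast
      ring
    rw [h3, b3_zero h hw u, sub_zero]
    have h4 : ∑ d ∈ rp f, κ (f + 2 * d) * ((NAB.Ak 0 u (emb d / emb f + 1 / 2) : ℝ) : ℂ) =
        c * ∑ d ∈ rp f, k d * ((NAB.Ak 0 u (emb d / emb f + 1 / 2) : ℝ) : ℂ) := by
      rw [Finset.mul_sum]
      refine Finset.sum_congr rfl fun d _ => ?_
      rw [hc d, mul_assoc]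
    rw [h4]
    ring
  rw [e2, norm_mul, norm_mul, hc1]
  have h3 : ‖(3 : ℂ)‖ = 3 := by norm_num
  rw [h3]
  ring

theorem log_h_norm (h : Ch f k) (h2 : IsCoprime f 2) (hw : k CU.om ≠ 1) (h' : Cu (2 * f) κ)
    (hκ : ∀ x, IsCoprime x (2 * f) → (2 : Eis) ∣ x - 1 → κ x = k x) :
    ‖∑ α ∈ rp f, k α * ((Real.log ‖hT (emb α / emb f)‖ : ℝ) : ℂ)‖ ^ 2 = 1 / 36 * ‖IF (2 * f) κ‖ ^ 2 := by
  obtain ⟨C, hC⟩ := LT_const
  have hf := h.F0
  have hfe : emb f ≠ 0 := CUL.l2_emb_ne hf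
  have hk2 : ‖k 2‖ = 1 := h.norm h2.symm
  have e1 : ∀ α ∈ rp f, k α * ((Real.log ‖hT (emb α / emb f)‖ : ℝ) : ℂ) =
      C / 2 * k α - 1 / 2 * (k α * ((LT (emb (2 * α) / emb f) : ℝ) : ℂ)) := by
    intro α _
    by_cases hα : IsCoprime α f
    · have hα2 : IsCoprime (2 * α) f := h2.symm.mul_left hα
      have hz : Nl (emb α / emb f) := h.nl hα
      have e0 : emb (2 * α) / emb f = 2 * (emb α / emb f) := by
        rw [map_mul, map_ofNat, mul_div_assoc]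
      have hzz : Nl (emb α / emb f + emb α / emb f) := by
        rw [← two_mul, ← e0]
        exact h.nl hα2
      have h3 := hT_sq hz hzz
      have h4 := hC _ (b3_DT h h2 h' hα2)
      rw [e0] at h4 ⊢
      have h5 : 2 * Real.log ‖hT (emb α / emb f)‖ = Real.log ‖xw (2 * (emb α / emb f)) - eh‖ := by
        rw [← h3, norm_pow, Real.log_pow]
        norm_num
      have h6 : Real.log ‖hT (emb α / emb f)‖ = C / 2 - 1 / 2 * LT (2 * (emb α / emb f)) := by linarith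
      rw [h6]
      push_cast
      ring
    · rw [h.zero α hα]
      ring
  have e2 : k 2 * ∑ α ∈ rp f, k α * ((LT (emb (2 * α) / emb f) : ℝ) : ℂ) =
      ∑ α ∈ rp f, k α * ((LT (emb α / emb f) : ℝ) : ℂ) := by
    rw [← (CUL.rp_spec hf).sum_mul h2.symm (fun α => k α * ((LT (emb α / emb f) : ℝ) : ℂ)) (by
      intro a b hab
      rw [h.per a b hab]
      obtain ⟨t, ht⟩ := hab
      have e1 : emb a / emb f = emb b / emb f + emb t := by
        rw [div_add' _ _ _ hfe]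
        congr 1
        rw [mul_comm, ← map_mul, ← ht, map_sub]
        ring
      rw [e1, b3_LT_per]), Finset.mul_sum]
    refine Finset.sum_congr rfl fun α _ => ?_
    rw [h.mul, mul_assoc]
  have e3 : ‖∑ α ∈ rp f, k α * ((LT (emb (2 * α) / emb f) : ℝ) : ℂ)‖ = 1 / 3 * ‖IF (2 * f) κ‖ := by
    rw [← b3_J h h2 hw h' hκ, ← e2, norm_mul, hk2, one_mul]
  rw [Finset.sum_congr rfl e1, Finset.sum_sub_distrib, ← Finset.mul_sum, ← Finset.mul_sum, h.sum_zero, mul_zero,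
    zero_sub, norm_neg, norm_mul, e3]
  have h3 : ‖(1 / 2 : ℂ)‖ = 1 / 2 := by norm_num
  rw [h3]
  ring

end J2E
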