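import Pool.Agent.JGL.Defs
import Pool.Agent.JL.K5
import Pool.Agent.JL.Field

/-!
# [J2E] the elliptic unit of a cubic extension of `ℚ(ω)` and the Kronecker limit formula: definitions

`x = xw`, `y = yw`, `y² = 4 x³ + 1`, `NAB.Ak 0 u z = ∑_a exp(-π u |z + a|²)`, `rp F` representatives modulo `F`.
A cubic character `k` modulo `F` (`Ch F k`); `Cu F k`: trivial on the units, so a character of the ideals prime to `F`.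
-/

set_option autoImplicit false

open MeasureTheory Set Filter Topology
open scoped Classical ComplexConjugate

namespace J2E

open CM27 JZ
open CU (la eE)
open CUL (Nl ta rp IsRep zw GalU)
open JGL (GalP)

/-- A non trivial cubic character modulo `F`, `0` on the classes which are not prime to `F`. -/
structure Ch (F : Eis) (k : Eis → ℂ) : Prop where
  F0 : F ≠ 0
  zero : ∀ x, ¬ IsCoprime x F → k x = 0
  cube : ∀ x, IsCoprime x F → k x ^ 3 = 1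
  mul : ∀ x y, k (x * y) = k x * k y
  per : ∀ x y, F ∣ x - y → k x = k y
  non : ∃ x, IsCoprime x F ∧ k x ≠ 1

/-- A cubic character modulo `F` which is trivial on the units. -/
structure Cu (F : Eis) (k : Eis → ℂ) : Prop extends Ch F k where
  unit : ∀ u, IsUnit u → k u = 1

/-- `k` modulo `g` is primitive. -/
def Prim (g : Eis) (k : Eis → ℂ) : Prop :=
  ∀ p m : Eis, Prime p → p * m = g → ∃ u, IsCoprime u g ∧ m ∣ u - 1 ∧ k u ≠ 1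

/-- `∑_{α mod F} k(α) T₀(u, α/F)` -/
noncomputable def SF (F : Eis) (k : Eis → ℂ) (u : ℝ) : ℂ :=
  ∑ α ∈ rp F, k α * ((NAB.Ak 0 u (emb α / emb F) : ℝ) : ℂ)

/-- `∫_0^∞ ∑_{α mod F} k(α) T₀(u, α/F) du/u` -/
noncomputable def IF (F : Eis) (k : Eis → ℂ) : ℂ := ∫ u in Ioi (0 : ℝ), SF F k u / (u : ℂ)

/-- `L(σ, k) = (1/6) ∑_b k(b) N(b) ^ (-σ)`, `σ > 1` -/
noncomputable def LK (k : Eis → ℂ) (σ : ℝ) : ℂ := (1 / 6) * ∑' b : Eis, k b * (((b.norm : ℝ) ^ (-σ) : ℝ) : ℂ)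

/-- `x(1/2)`, `x(1/2)³ = -1/4` -/
noncomputable def eh : ℂ := xw (1 / 2)

/-- `h(z) = (x² - 2 e x - 2 e²) / y`, `e = x(1/2)`; `h(z)² = x(2 z) - e` -/
noncomputable def hT (z : ℂ) : ℂ := (xw z ^ 2 - 2 * eh * xw z - 2 * eh ^ 2) / yw z

/-- `T₀(u, z + 1/2) - T₀(u, z)` -/
noncomputable def GT (z : ℂ) (u : ℝ) : ℝ := NAB.Ak 0 u (z + 1 / 2) - NAB.Ak 0 u z

/-- `∫ (T₀(u, z + 1/2) - T₀(u, z)) du/u` -/
noncomputable def LT (z : ℂ) : ℝ := ∫ u in Ioi (0 : ℝ), GT z u / u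

/-- `z` and `z + 1/2` are off the lattice -/
def DT : Set ℂ := {z | Nl z ∧ Nl (z + 1 / 2)}

/-! ## the unit -/

/-- A system of representatives of `(kernel of k) / ±1` modulo `f`. -/
def IsR0 (f : Eis) (k : Eis → ℂ) (R : Finset Eis) : Prop :=
  (∀ c ∈ R, IsCoprime c f ∧ k c = 1) ∧
  ∀ α : Eis, IsCoprime α f → k α = 1 → ∃! c, c ∈ R ∧ (f ∣ α - c ∨ f ∣ α + c)

/-- `Φ` is a function on the classes prime to `f`, odd, nowhere `0`; an automorphism of `ℂ` over `ℚ(ω)` which acts on the torsion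
points as `g` maps `Φ(c)` to `ζ Φ(g' c)`, where `ζ` does not depend on `c` and `k(g') = κ(g)`. -/
structure GD (f : Eis) (k κ : Eis → ℂ) (Φ : Eis → ℂ) : Prop where
  neg : ∀ c, Φ (-c) = -Φ c
  per : ∀ a b, f ∣ a - b → Φ a = Φ b
  ne : ∀ c, IsCoprime c f → Φ c ≠ 0
  gal : GalP fun σ g => ∃ (ζ : ℂ) (g' : Eis), ζ ≠ 0 ∧ IsCoprime g' f ∧ k g' = κ g ∧
    ∀ c, IsCoprime c f → σ (Φ c) = ζ * Φ (g' * c)

/-- `g_i = ∏_{c ∈ R} Φ(c₁ ^ i c)` -/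
noncomputable def gi (Φ : Eis → ℂ) (R : Finset Eis) (c₁ : Eis) (i : ℕ) : ℂ := ∏ c ∈ R, Φ (c₁ ^ i * c)

/-- `e_i = g_i / g_{i+1}`; `e = e_0` is the elliptic unit, `e_1`, `e_2` are its conjugates. -/
noncomputable def ei (Φ : Eis → ℂ) (R : Finset Eis) (c₁ : Eis) (i : ℕ) : ℂ := gi Φ R c₁ i / gi Φ R c₁ (i + 1)

/-- `z₀, z₁, z₂` are the conjugates `u₀ + u₁ (w^i s) + u₂ (w^i s)²` of an element of `ℚ(ω, s)`. -/
def C3 (s z₀ z₁ z₂ : ℂ) : Prop :=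
  ∃ u₀ u₁ u₂ : ℂ, u₀ ∈ CF.KK ∧ u₁ ∈ CF.KK ∧ u₂ ∈ CF.KK ∧
    z₀ = u₀ + u₁ * s + u₂ * s ^ 2 ∧ z₁ = u₀ + u₁ * (w * s) + u₂ * (w * s) ^ 2 ∧
    z₂ = u₀ + u₁ * (w ^ 2 * s) + u₂ * (w ^ 2 * s) ^ 2

/-- There is only one prime of `ℚ(ω, ∛D)` over `p`: `3 ∤ v_p(D)`, or `D` is up to `p ^ (3 m)` not a cube modulo `p` (`p ∤ 3`), resp. not
`± 1` modulo `λ⁴` (`p ∣ 3`). -/
def Loc (D p : Eis) : Prop :=
  (∃ (v : ℕ) (c : Eis), ¬ 3 ∣ v ∧ ¬ p ∣ c ∧ D = p ^ v * c) ∨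
  ∃ (m : ℕ) (c : Eis), ¬ p ∣ c ∧ D = p ^ (3 * m) * c ∧
    ((¬ p ∣ 3 ∧ ∀ x : Eis, ¬ p ∣ c - x ^ 3) ∨ (p ∣ 3 ∧ ∀ η : Eis, (η = 1 ∨ η = -1) → ¬ la ^ 4 ∣ c - η))

end J2E
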