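import Pool.Agent.J2E.A1

/-!
# [J2E-U1] the products `g_i` and the quotients `e_i = g_i / g_{i+1}`

PROOF. `gi_add3`: `c₁³` is in the kernel of `k`, so for `c ∈ R` there is a unique `c' ∈ R` with `f ∣ c₁³ c ∓ c'`, and `c ↦ c'` is a bijection of `R`; `Φ(c₁^(i+3) c) = ± Φ(c₁^i c')` with a sign which does not depend on `i` (`Φ(-c) = -Φ(c)`, `per`). So `g_{i+3} = ε g_i`, `ε = ± 1`, for all `i`.
`gi_gal`: let `k g' = w^n`. For `c ∈ R`: `g' c ≡ ± c₁^n c'` with `c' ∈ R` (the quotient by `c₁^n` modulo `f` is in the kernel of `k`; use an inverse of `c₁` modulo `f`), so `σ(Φ(c₁^i c)) = ζ Φ(g' c₁^i c) = ± ζ Φ(c₁^(i+n) c')` (the sign does not depend on `i`), `σ(g_i) = C g_{i+n}`, `C = ± ζ ^ #R`.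
So `σ(e_i) = e_{i+n}`; `e_{i+3} = e_i`; `e_0 e_1 e_2 = g_0/g_3 = ε`.
`ei_C3`: `u₀ = (e_0 + e_1 + e_2)/3`, `u₁ = (e_0 + w⁻¹ e_1 + w⁻² e_2)/(3 s)`, `u₂ = (e_0 + w⁻² e_1 + w⁻⁴ e_2)/(3 s²)` are fixed by every automorphism `σ` of `ℂ` over `ℚ(ω)` (take `M = M₀ M₁`, `g` from `CUL.exists_galU`; `σ s = w^n s`, `σ e_i = e_{i+n}`, where `w^n = κ g = k g'`), so they are in `CF.KK` (used in JL/G3, JL/N1: look for the lemma: fixed by all automorphisms => in KK, e.g. `CUL.mem_KK_of_fixed` / `CM27...`).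
`ei_log`: `∑_{α mod f} k(α) log |Φ(α)| = ∑_{j < 3} w^j ∑_{k(α) = w^j} log |Φ(α)|`, and the classes with `k(α) = w^j` are `± c₁^j c`, `c ∈ R` (each twice; `|Φ(-c)| = |Φ(c)|`; `c` and `-c` are different modulo `f` as `f` is not a divisor of `2 c` : `f` is odd and no unit), so it is `2 (l₀ + w l₁ + w² l₂)`, `l_j = log |g_j|`;
`|l₀ + w l₁ + w² l₂|² = l₀² + l₁² + l₂² - l₀ l₁ - l₁ l₂ - l₂ l₀ = a² + a b + b²` with `a = l₀ - l₁ = log |e_0|`, `b = l₁ - l₂ = log |e_1|`.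
-/

set_option autoImplicit false

open MeasureTheory Set Filter Topology
open scoped Classical ComplexConjugate

namespace J2E

open CM27 JZ
open CU (la eE)
open CUL (Nl ta rp IsRep zw GalU)
open JGL (GalP)

variable {f c₁ : Eis} {k κ Φ : Eis → ℂ} {R : Finset Eis}

/-! ### auxiliary lemmas -/

theorem u1a_w3 : (w : ℂ) ^ 3 = 1 := CUL.w3

theorem u1a_w_ne : (w : ℂ) ≠ 0 := by
  intro h0
  have h := u1a_w3
  rw [h0] at h
  norm_num at h

theorem u1a_symm {a b : Eis} (h : f ∣ a - b ∨ f ∣ a + b) : f ∣ b - a ∨ f ∣ b + a := by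
  rcases h with h | h
  · left
    have h1 : b - a = -(a - b) := by ring
    rw [h1]; exact (dvd_neg).2 h
  · right
    rw [add_comm]; exact h

theorem u1a_trans {a b c : Eis} (h : f ∣ a - b ∨ f ∣ a + b) (h' : f ∣ b - c ∨ f ∣ b + c) : f ∣ a - c ∨ f ∣ a + c := by
  rcases h with h | h <;> rcases h' with h' | h'
  · left
    have h1 : a - c = (a - b) + (b - c) := by ring
    rw [h1]; exact dvd_add h h'
  · right
    have h1 : a + c = (a - b) + (b + c) := by ring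
    rw [h1]; exact dvd_add h h'
  · right
    have h1 : a + c = (a + b) - (b - c) := by ring
    rw [h1]; exact dvd_sub h h'
  · left
    have h1 : a - c = (a + b) - (b + c) := by ring
    rw [h1]; exact dvd_sub h h'

/-- classes up to sign -/
def u1aSetoid (f : Eis) : Setoid Eis where
  r a b := f ∣ a - b ∨ f ∣ a + b
  iseqv :=
    { refl := fun a => by left; simp
      symm := fun h => u1a_symm h
      trans := fun h h' => u1a_trans h h' }

theorem u1a_cop_per {a b : Eis} (h : f ∣ a - b) (ha : IsCoprime a f) : IsCoprime b f := by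
  obtain ⟨t, ht⟩ := h
  have h1 : b = a + f * (-t) := by linear_combination -ht
  rw [h1]
  exact IsCoprime.add_mul_left_left ha _

theorem u1a_cop_pm {a b : Eis} (h : f ∣ a - b ∨ f ∣ a + b) (ha : IsCoprime a f) : IsCoprime b f := by
  rcases h with h | h
  · exact u1a_cop_per h ha
  · have h1 : f ∣ a - (-b) := by rw [sub_neg_eq_add]; exact h
    have h2 := u1a_cop_per h1 ha
    have h3 := h2.neg_left
    rwa [neg_neg] at h3

theorem u1a_k_pm (h : Ch f k) {a b : Eis} (hab : f ∣ a - b ∨ f ∣ a + b) : k a = k b := by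
  rcases hab with hab | hab
  · exact h.per _ _ hab
  · have h1 : f ∣ a - (-b) := by rw [sub_neg_eq_add]; exact hab
    rw [h.per _ _ h1, h.neg]

theorem exists_R0 (h : Ch f k) (h2 : IsCoprime f 2) : ∃ R, IsR0 f k R := by
  classical
  refine ⟨((rp f).filter fun c => IsCoprime c f ∧ k c = 1).image
    (fun c => (Quotient.mk (u1aSetoid f) c).out), ?_, ?_⟩
  · intro c hc
    rw [Finset.mem_image] at hc
    obtain ⟨a, ha, rfl⟩ := hc
    rw [Finset.mem_filter] at ha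
    have h1 : f ∣ a - (Quotient.mk (u1aSetoid f) a).out ∨ f ∣ a + (Quotient.mk (u1aSetoid f) a).out :=
      u1a_symm (Quotient.mk_out (s := u1aSetoid f) a)
    exact ⟨u1a_cop_pm h1 ha.2.1, by rw [← u1a_k_pm h h1]; exact ha.2.2⟩
  · intro α hα hk
    obtain ⟨c, ⟨hc1, hc2⟩, -⟩ := CUL.rp_spec h.F0 α
    refine ⟨(Quotient.mk (u1aSetoid f) c).out, ⟨?_, ?_⟩, ?_⟩
    · refine Finset.mem_image.2 ⟨c, Finset.mem_filter.2 ⟨hc1, u1a_cop_per hc2 hα, ?_⟩, rfl⟩
      rw [← h.per _ _ hc2]; exact hk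
    · have h1 : f ∣ c - (Quotient.mk (u1aSetoid f) c).out ∨ f ∣ c + (Quotient.mk (u1aSetoid f) c).out :=
        u1a_symm (Quotient.mk_out (s := u1aSetoid f) c)
      exact u1a_trans (Or.inl hc2) h1
    · rintro c' ⟨hc', hα'⟩
      rw [Finset.mem_image] at hc'
      obtain ⟨a, -, rfl⟩ := hc'
      have h1 : f ∣ a - (Quotient.mk (u1aSetoid f) a).out ∨ f ∣ a + (Quotient.mk (u1aSetoid f) a).out :=
        u1a_symm (Quotient.mk_out (s := u1aSetoid f) a)
      have h3 : f ∣ a - c ∨ f ∣ a + c :=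
        u1a_trans h1 (u1a_trans (u1a_symm hα') (Or.inl hc2))
      have h4 : Quotient.mk (u1aSetoid f) a = Quotient.mk (u1aSetoid f) c := Quotient.sound h3
      rw [h4]

theorem u1a_phi_ne (hR : IsR0 f k R) (hc : IsCoprime c₁ f) (hΦ : GD f k κ Φ) (i : ℕ) {c : Eis} (hcR : c ∈ R) :
    Φ (c₁ ^ i * c) ≠ 0 :=
  hΦ.ne _ ((hc.pow_left).mul_left (hR.1 c hcR).1)

theorem gi_ne (h : Ch f k) (hR : IsR0 f k R) (hc : IsCoprime c₁ f) (hΦ : GD f k κ Φ) (i : ℕ) : gi Φ R c₁ i ≠ 0 := by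
  unfold gi
  exact Finset.prod_ne_zero_iff.2 fun c hcR => u1a_phi_ne hR hc hΦ i hcR

theorem ei_ne (h : Ch f k) (hR : IsR0 f k R) (hc : IsCoprime c₁ f) (hΦ : GD f k κ Φ) (i : ℕ) : ei Φ R c₁ i ≠ 0 :=
  div_ne_zero (gi_ne h hR hc hΦ i) (gi_ne h hR hc hΦ (i + 1))

/-- multiplication by a class of the kernel changes the product by a sign -/
theorem u1a_perm (h : Ch f k) (hR : IsR0 f k R) (hΦ : GD f k κ Φ) {d : Eis} (hd : IsCoprime d f) (hkd : k d = 1) :
    ∃ ε : ℂ, (ε = 1 ∨ ε = -1) ∧ ∀ m : Eis, ∏ c ∈ R, Φ (m * (d * c)) = ε * ∏ c ∈ R, Φ (m * c) := by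
  classical
  have hex : ∀ c : Eis, ∃ c' : Eis, c ∈ R → (c' ∈ R ∧ (f ∣ d * c - c' ∨ f ∣ d * c + c')) := by
    intro c
    by_cases hcR : c ∈ R
    · obtain ⟨c', hc', -⟩ := hR.2 (d * c) (hd.mul_left (hR.1 c hcR).1) (by rw [h.mul, hkd, (hR.1 c hcR).2, one_mul])
      exact ⟨c', fun _ => hc'⟩
    · exact ⟨0, fun h => absurd h hcR⟩
  choose τ hτ using hex
  have hinj : Set.InjOn τ (R : Set Eis) := by
    intro a ha b hb hab
    have ha' := hτ a ha
    have hb' := hτ b hb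
    rw [← hab] at hb'
    have h1 : f ∣ d * a - d * b ∨ f ∣ d * a + d * b := u1a_trans ha'.2 (u1a_symm hb'.2)
    have h2 : f ∣ a - b ∨ f ∣ a + b := by
      rcases h1 with h1 | h1
      · left
        rw [← mul_sub] at h1
        exact hd.symm.dvd_of_dvd_mul_left h1
      · right
        rw [← mul_add] at h1
        exact hd.symm.dvd_of_dvd_mul_left h1
    obtain ⟨c', -, huniq⟩ := hR.2 a (hR.1 a ha).1 (hR.1 a ha).2
    rw [huniq a ⟨ha, Or.inl (by simp)⟩, huniq b ⟨hb, h2⟩]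
  have himg : R.image τ = R := by
    refine Finset.eq_of_subset_of_card_le ?_ ?_
    · intro x hx
      rw [Finset.mem_image] at hx
      obtain ⟨a, ha, rfl⟩ := hx
      exact (hτ a ha).1
    · rw [Finset.card_image_of_injOn hinj]
  let sg : Eis → ℂ := fun c => if f ∣ d * c - τ c then 1 else -1
  have hsg : ∀ c, sg c = 1 ∨ sg c = -1 := by
    intro c
    by_cases hcc : f ∣ d * c - τ c
    · left; exact if_pos hcc
    · right; exact if_neg hcc
  have hprod : ∀ s : Finset Eis, (∏ c ∈ s, sg c = 1 ∨ ∏ c ∈ s, sg c = -1) := by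
    intro s
    induction s using Finset.induction_on with
    | empty => left; simp
    | insert a s ha ih =>
      rw [Finset.prod_insert ha]
      rcases hsg a with h1 | h1 <;> rcases ih with h2 | h2 <;> rw [h1, h2] <;> norm_num
  refine ⟨∏ c ∈ R, sg c, hprod R, fun m => ?_⟩
  have h1 : ∀ c ∈ R, Φ (m * (d * c)) = sg c * Φ (m * τ c) := by
    intro c hcR
    by_cases hcc : f ∣ d * c - τ c
    · have h2 : sg c = 1 := if_pos hcc
      rw [h2, one_mul]
      refine hΦ.per _ _ ?_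
      rw [← mul_sub]
      exact hcc.mul_left m
    · have h2 : sg c = -1 := if_neg hcc
      have h3 : f ∣ d * c + τ c := ((hτ c hcR).2).resolve_left hcc
      have h4 : Φ (m * (d * c)) = Φ (-(m * τ c)) := by
        refine hΦ.per _ _ ?_
        have h5 : m * (d * c) - -(m * τ c) = m * (d * c + τ c) := by ring
        rw [h5]
        exact h3.mul_left m
      rw [h4, hΦ.neg, h2]
      ring
  rw [Finset.prod_congr rfl h1, Finset.prod_mul_distrib]
  congr 1
  have h2 : ∏ c ∈ R.image τ, Φ (m * c) = ∏ c ∈ R, Φ (m * τ c) :=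
    Finset.prod_image (fun a ha b hb hab => hinj ha hb hab)
  rw [← h2, himg]

theorem gi_add3 (h : Ch f k) (hR : IsR0 f k R) (hc : IsCoprime c₁ f) (hc1 : k c₁ = w) (hΦ : GD f k κ Φ) :
    ∃ ε : ℂ, (ε = 1 ∨ ε = -1) ∧ ∀ i, gi Φ R c₁ (i + 3) = ε * gi Φ R c₁ i := by
  have hk3 : k (c₁ ^ 3) = 1 := by
    have h1 : c₁ ^ 3 = c₁ * (c₁ * c₁) := by ring
    rw [h1, h.mul, h.mul, hc1]
    have h2 := u1a_w3
    linear_combination h2
  obtain ⟨ε, hε, h1⟩ := u1a_perm h hR hΦ (hc.pow_left (m := 3)) hk3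
  refine ⟨ε, hε, fun i => ?_⟩
  unfold gi
  rw [← h1]
  refine Finset.prod_congr rfl fun c _ => ?_
  congr 1
  ring

theorem ei_prod (h : Ch f k) (hR : IsR0 f k R) (hc : IsCoprime c₁ f) (hc1 : k c₁ = w) (hΦ : GD f k κ Φ) :
    ei Φ R c₁ 0 * ei Φ R c₁ 1 * ei Φ R c₁ 2 = 1 ∨ ei Φ R c₁ 0 * ei Φ R c₁ 1 * ei Φ R c₁ 2 = -1 := by
  obtain ⟨ε, hε, h1⟩ := gi_add3 h hR hc hc1 hΦ
  have g0 := gi_ne h hR hc hΦ 0
  have g1 := gi_ne h hR hc hΦ 1
  have g2 := gi_ne h hR hc hΦ 2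
  have g3 := gi_ne h hR hc hΦ 3
  have h2 := h1 0
  have hmul : ei Φ R c₁ 0 * ei Φ R c₁ 1 * ei Φ R c₁ 2 = gi Φ R c₁ 0 / gi Φ R c₁ 3 := by
    unfold ei
    norm_num
    field_simp
  rw [zero_add] at h2
  rw [hmul]
  rcases hε with rfl | rfl
  · left
    rw [h2, one_mul]
    exact div_self g0
  · right
    rw [h2]
    rw [neg_one_mul, div_neg, div_self g0]

theorem gi_gal (h : Ch f k) (hR : IsR0 f k R) (hc : IsCoprime c₁ f) (hc1 : k c₁ = w) (hΦ : GD f k κ Φ)
    {σ : ℂ ≃+* ℂ} {ζ : ℂ} {g' : Eis} (hζ : ζ ≠ 0) (hg : IsCoprime g' f) (hσ : ∀ c, IsCoprime c f → σ (Φ c) = ζ * Φ (g' * c))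
    {n : ℕ} (hn : k g' = w ^ n) : ∃ C : ℂ, C ≠ 0 ∧ ∀ i, σ (gi Φ R c₁ i) = C * gi Φ R c₁ (i + n) := by
  have hkp : ∀ n : ℕ, k (c₁ ^ n) = w ^ n := by
    intro n
    induction n with
    | zero => rw [pow_zero, pow_zero]; exact h.one
    | succ n ih => rw [pow_succ, pow_succ, h.mul, ih, hc1]
  obtain ⟨e, b, heb⟩ := (hc.pow_left (m := n) : IsCoprime (c₁ ^ n) f)
  -- e * c₁ ^ n + b * f = 1
  have he1 : f ∣ c₁ ^ n * e - 1 := ⟨-b, by linear_combination heb⟩
  have hecop : IsCoprime e f := ⟨c₁ ^ n, b, by linear_combination heb⟩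
  have hke : w ^ n * k e = 1 := by
    have h1 : k (c₁ ^ n * e) = k 1 := h.per _ _ he1
    rw [h.mul, hkp, h.one] at h1
    exact h1
  have hkd : k (e * g') = 1 := by
    rw [h.mul, hn, mul_comm]
    exact hke
  obtain ⟨ε, hε, h1⟩ := u1a_perm h hR hΦ (hecop.mul_left hg) hkd
  have hε0 : ε ≠ 0 := by rcases hε with rfl | rfl <;> norm_num
  refine ⟨ζ ^ R.card * ε, mul_ne_zero (pow_ne_zero _ hζ) hε0, fun i => ?_⟩
  have h2 : ∀ c ∈ R, σ (Φ (c₁ ^ i * c)) = ζ * Φ (c₁ ^ (i + n) * (e * g' * c)) := by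
    intro c hcR
    rw [hσ _ ((hc.pow_left).mul_left (hR.1 c hcR).1)]
    congr 1
    refine hΦ.per _ _ ?_
    have h3 : g' * (c₁ ^ i * c) - c₁ ^ (i + n) * (e * g' * c) = (c₁ ^ n * e - 1) * (-(g' * c₁ ^ i * c)) := by
      rw [pow_add]; ring
    rw [h3]
    exact he1.mul_right _
  unfold gi
  rw [map_prod, Finset.prod_congr rfl h2, Finset.prod_mul_distrib, Finset.prod_const, h1]
  ring

/-- the quotients `e_i` have period 3 -/
theorem u1b_ei_add3 (h : Ch f k) (hR : IsR0 f k R) (hc : IsCoprime c₁ f) (hc1 : k c₁ = w) (hΦ : GD f k κ Φ) (i : ℕ) :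
    ei Φ R c₁ (i + 3) = ei Φ R c₁ i := by
  obtain ⟨ε, hε, h1⟩ := gi_add3 h hR hc hc1 hΦ
  have hε0 : ε ≠ 0 := by rcases hε with rfl | rfl <;> norm_num
  unfold ei
  have h2 : i + 3 + 1 = (i + 1) + 3 := by ring
  rw [h2, h1 i, h1 (i + 1)]
  exact mul_div_mul_left _ _ hε0

theorem u1b_ei_gal (h : Ch f k) (hR : IsR0 f k R) (hc : IsCoprime c₁ f) (hc1 : k c₁ = w) (hΦ : GD f k κ Φ)
    {σ : ℂ ≃+* ℂ} {ζ : ℂ} {g' : Eis} (hζ : ζ ≠ 0) (hg : IsCoprime g' f) (hσ : ∀ c, IsCoprime c f → σ (Φ c) = ζ * Φ (g' * c))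
    {n : ℕ} (hn : k g' = w ^ n) (i : ℕ) : σ (ei Φ R c₁ i) = ei Φ R c₁ (i + n) := by
  obtain ⟨C, hC, h1⟩ := gi_gal h hR hc hc1 hΦ hζ hg hσ hn
  unfold ei
  rw [map_div₀, h1 i, h1 (i + 1)]
  have h2 : i + 1 + n = i + n + 1 := by ring
  rw [h2]
  exact mul_div_mul_left _ _ hC

/-- the conjugates of the elliptic unit -/
theorem ei_C3 (h : Ch f k) (hR : IsR0 f k R) (hc : IsCoprime c₁ f) (hc1 : k c₁ = w) (hΦ : GD f k κ Φ)
    {s : ℂ} (hs : s ≠ 0) (hG : GalP fun σ g => σ s = κ g * s) : C3 s (ei Φ R c₁ 0) (ei Φ R c₁ 1) (ei Φ R c₁ 2) := by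
  have hw3 := u1a_w3
  have hw0 := u1a_w_ne
  have hw : (w : ℂ) ^ 2 + w + 1 = 0 := CF.h3_w_eq
  have hp := u1b_ei_add3 h hR hc hc1 hΦ
  -- the Galois action
  have key : ∀ σ : ℂ ≃+* ℂ, σ w = w → ∃ n : ℕ, n < 3 ∧ σ s = w ^ n * s ∧ ∀ i, σ (ei Φ R c₁ i) = ei Φ R c₁ (i + n) := by
    intro σ hσ
    have : IsDomain Eis := CM27.eis_isDomain
    obtain ⟨M₀, hM₀, H₀⟩ := hG
    obtain ⟨M₁, hM₁, H₁⟩ := hΦ.gal
    obtain ⟨g, hg⟩ := CUL.exists_galU σ hσ (M₀ * M₁) (mul_ne_zero hM₀ hM₁)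
    have h0 : σ s = κ g * s := H₀ σ hσ _ g (mul_ne_zero hM₀ hM₁) (dvd_mul_right _ _) hg
    obtain ⟨ζ, g', hζ, hg', hkg, hσΦ⟩ := H₁ σ hσ _ g (mul_ne_zero hM₀ hM₁) (dvd_mul_left _ _) hg
    obtain ⟨n, hn3, hn⟩ : ∃ n : ℕ, n < 3 ∧ k g' = w ^ n := by
      rcases h.cases hg' with h1 | h1 | h1
      · exact ⟨0, by norm_num, by rw [h1, pow_zero]⟩
      · exact ⟨1, by norm_num, by rw [h1, pow_one]⟩
      · exact ⟨2, by norm_num, h1⟩
    refine ⟨n, hn3, ?_, fun i => u1b_ei_gal h hR hc hc1 hΦ hζ hg' hσΦ hn i⟩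
    rw [h0, ← hkg, hn]
  have p3 : ei Φ R c₁ 3 = ei Φ R c₁ 0 := hp 0
  have p4 : ei Φ R c₁ 4 = ei Φ R c₁ 1 := hp 1
  refine ⟨(ei Φ R c₁ 0 + ei Φ R c₁ 1 + ei Φ R c₁ 2) / 3,
    (ei Φ R c₁ 0 + w ^ 2 * ei Φ R c₁ 1 + w * ei Φ R c₁ 2) / (3 * s),
    (ei Φ R c₁ 0 + w * ei Φ R c₁ 1 + w ^ 2 * ei Φ R c₁ 2) / (3 * s ^ 2), ?_, ?_, ?_, ?_, ?_, ?_⟩
  · refine CUL.fixed_KK _ fun σ hσ => ?_
    obtain ⟨n, hn, h1, h2⟩ := key σ hσ
    have h3 : σ 3 = 3 := map_ofNat σ 3
    rw [map_div₀, map_add, map_add, h2 0, h2 1, h2 2, h3]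
    interval_cases n <;> norm_num <;> rw [p3] <;> (try rw [p4]) <;> ring
  · refine CUL.fixed_KK _ fun σ hσ => ?_
    obtain ⟨n, hn, h1, h2⟩ := key σ hσ
    have h3 : σ 3 = 3 := map_ofNat σ 3
    rw [map_div₀, map_add, map_add, map_mul, map_mul, map_mul, map_pow, hσ, h1, h2 0, h2 1, h2 2, h3]
    rw [div_eq_div_iff (mul_ne_zero three_ne_zero (mul_ne_zero (pow_ne_zero _ hw0) hs)) (mul_ne_zero three_ne_zero hs)]
    interval_cases n
    · norm_num
    · norm_num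
      rw [p3]
      linear_combination (-(3 * s * ei Φ R c₁ 1)) * hw3
    · norm_num
      rw [p3, p4]
      linear_combination (-(3 * s * ei Φ R c₁ 2) - 3 * s * w * ei Φ R c₁ 1) * hw3
  · refine CUL.fixed_KK _ fun σ hσ => ?_
    obtain ⟨n, hn, h1, h2⟩ := key σ hσ
    have h3 : σ 3 = 3 := map_ofNat σ 3
    rw [map_div₀, map_add, map_add, map_mul, map_mul, map_mul, map_pow, map_pow, hσ, h1, h2 0, h2 1, h2 2, h3]
    rw [div_eq_div_iff (mul_ne_zero three_ne_zero (pow_ne_zero _ (mul_ne_zero (pow_ne_zero _ hw0) hs)))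
      (mul_ne_zero three_ne_zero (pow_ne_zero _ hs))]
    interval_cases n
    · norm_num
    · norm_num
      rw [p3]
      linear_combination (-(3 * s ^ 2 * ei Φ R c₁ 1) - 3 * s ^ 2 * w * ei Φ R c₁ 2) * hw3
    · norm_num
      rw [p3, p4]
      linear_combination (-(3 * s ^ 2 * ei Φ R c₁ 2) * (w ^ 3 + 1) - 3 * s ^ 2 * w * ei Φ R c₁ 0 - 3 * s ^ 2 * w ^ 2 * ei Φ R c₁ 1) * hw3
  · field_simp
    linear_combination (-(ei Φ R c₁ 1) - ei Φ R c₁ 2) * hw
  · field_simp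
    linear_combination (-(ei Φ R c₁ 0) - ei Φ R c₁ 2 * (w ^ 2 - w + 1)) * hw - 2 * ei Φ R c₁ 1 * hw3
  · field_simp
    linear_combination (-(ei Φ R c₁ 0) * (w ^ 2 - w + 1) - ei Φ R c₁ 1) * hw - (ei Φ R c₁ 1 * (w + w ^ 2) + ei Φ R c₁ 2 * (w ^ 3 + 2)) * hw3


theorem u1c_w3 : w ^ 3 = 1 := by
  have h := w_sq
  linear_combination (w - 1) * h

theorem u1c_w2 : w ^ 2 = -1 - w := by
  rw [sq]
  exact w_sq

theorem u1c_norm (a b c : ℝ) :
    ‖(2 : ℂ) * ((a : ℂ) + w * (b : ℂ) + w ^ 2 * (c : ℂ))‖ ^ 2 = 4 * (a ^ 2 + b ^ 2 + c ^ 2 - a * b - b * c - c * a) := by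
  have h3 : √3 * √3 = 3 := Real.mul_self_sqrt (by norm_num)
  rw [u1c_w2, ← Complex.normSq_eq_norm_sq, Complex.normSq_apply]
  simp only [Complex.mul_re, Complex.mul_im, Complex.add_re, Complex.add_im, Complex.ofReal_re, Complex.ofReal_im,
    Complex.sub_re, Complex.sub_im, Complex.neg_re, Complex.neg_im, Complex.one_re, Complex.one_im, w_re, w_im,
    Complex.re_ofNat, Complex.im_ofNat]
  linear_combination (b - c) ^ 2 * h3

theorem u1c_inj {a b : ℕ} (ha : a < 3) (hb : b < 3) (h : w ^ a = w ^ b) : a = b := by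
  have h0 : w ≠ 1 := by
    intro h
    have := congrArg Complex.re h
    rw [w_re, Complex.one_re] at this
    norm_num at this
  have h1 : w ^ 2 ≠ 1 := by
    intro h
    have := congrArg Complex.re h
    rw [u1c_w2, Complex.sub_re, Complex.neg_re, Complex.one_re, w_re] at this
    norm_num at this
  have hw : w ≠ 0 := by
    intro h
    have := congrArg Complex.re h
    rw [w_re, Complex.zero_re] at this
    norm_num at this
  have h2 : w ^ 2 ≠ w := by
    intro h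
    apply h0
    rw [sq] at h
    exact mul_left_cancel₀ hw (by rw [h, mul_one])
  interval_cases a <;> interval_cases b
  · rfl
  · rw [pow_zero, pow_one] at h
    exact absurd h.symm h0
  · rw [pow_zero] at h
    exact absurd h.symm h1
  · rw [pow_zero, pow_one] at h
    exact absurd h h0
  · rfl
  · rw [pow_one] at h
    exact absurd h.symm h2
  · rw [pow_zero] at h
    exact absurd h h1
  · rw [pow_one] at h
    exact absurd h h2
  · rfl

theorem ei_log (h : Ch f k) (h2 : IsCoprime f 2) (hR : IsR0 f k R) (hc : IsCoprime c₁ f) (hc1 : k c₁ = w) (hΦ : GD f k κ Φ) :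
    Real.log ‖ei Φ R c₁ 0‖ ^ 2 + Real.log ‖ei Φ R c₁ 0‖ * Real.log ‖ei Φ R c₁ 1‖ + Real.log ‖ei Φ R c₁ 1‖ ^ 2 =
      1 / 4 * ‖∑ α ∈ rp f, k α * ((Real.log ‖Φ α‖ : ℝ) : ℂ)‖ ^ 2 := by
  set l : ℕ → ℝ := fun j => ∑ c ∈ R, Real.log ‖Φ (c₁ ^ j * c)‖ with hl
  have hcop : ∀ (j : ℕ) (c : Eis), IsCoprime c f → IsCoprime (c₁ ^ j * c) f := fun j c hcc => (hc.pow_left).mul_left hcc
  have hgl : ∀ j, Real.log ‖gi Φ R c₁ j‖ = l j := by
    intro j
    simp only [gi, hl]
    rw [norm_prod, Real.log_prod]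
    intro c hcR
    exact norm_ne_zero_iff.2 (hΦ.ne _ (hcop j c (hR.1 c hcR).1))
  have hel : ∀ j, Real.log ‖ei Φ R c₁ j‖ = l j - l (j + 1) := by
    intro j
    rw [ei, norm_div, Real.log_div (norm_ne_zero_iff.2 (gi_ne h hR hc hΦ j)) (norm_ne_zero_iff.2 (gi_ne h hR hc hΦ (j + 1))),
      hgl, hgl]
  rw [hel, hel]
  have hrep : IsRep f (rp f) := CUL.rp_spec h.F0
  have hex : ∀ a : Eis, ∃ c, c ∈ rp f ∧ f ∣ a - c := fun a => (hrep a).exists
  choose rep hrep1 hrep2 using hex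
  have hcopr : ∀ {a b : Eis}, f ∣ a - b → IsCoprime a f → IsCoprime b f := by
    rintro a b ⟨t, ht⟩ ⟨x, y, hxy⟩
    exact ⟨x, y + x * t, by linear_combination hxy - x * ht⟩
  have hkper : ∀ {a b : Eis}, f ∣ a - b → k a = k b := fun hab => h.per _ _ hab
  have hk1 : ∀ (j : ℕ) (c : Eis), c ∈ R → k (c₁ ^ j * c) = w ^ j := by
    intro j c hcR
    rw [h.mul, (hR.1 c hcR).2, mul_one]
    induction j with
    | zero => rw [pow_zero, pow_zero, h.one]
    | succ n ih => rw [pow_succ, h.mul, ih, hc1, pow_succ]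
  have hnu := h.notUnit
  have hcanc : ∀ (j : ℕ) (x : Eis), f ∣ c₁ ^ j * x → f ∣ x := by
    intro j x hx
    exact (hc.pow_left (m := j)).symm.dvd_of_dvd_mul_left hx
  have htwo : ∀ c ∈ R, ¬ f ∣ c + c := by
    intro c hcR hd
    apply hnu
    have h5 : f ∣ 2 * c := by rwa [two_mul]
    have h6 : f ∣ c := h2.dvd_of_dvd_mul_left h5
    have h7 := (hR.1 c hcR).1
    exact h7.symm.isUnit_of_dvd' (dvd_refl f) h6
  have hneqR : ∀ c ∈ R, ∀ c' ∈ R, (f ∣ c - c' ∨ f ∣ c + c') → c = c' := by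
    intro c hcR c' hcR' hd
    obtain ⟨h8, h9⟩ := hR.1 c hcR
    exact (hR.2 c h8 h9).unique ⟨hcR, Or.inl (by rw [sub_self]; exact dvd_zero _)⟩ ⟨hcR', hd⟩
  set G : Eis → ℂ := fun α => k α * ((Real.log ‖Φ α‖ : ℝ) : ℂ) with hG
  have hGper : ∀ a b, f ∣ a - b → G a = G b := by
    intro a b hab
    simp only [hG]
    rw [hkper hab, hΦ.per a b hab]
  have hGneg : ∀ a, G (-a) = G a := by
    intro a
    simp only [hG]
    rw [h.neg, hΦ.neg, norm_neg]
  set q : ℤ × ℕ × Eis → Eis := fun t => ((t.1 : ℤ) : Eis) * (c₁ ^ t.2.1 * t.2.2) with hq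
  have hsum : ∑ α ∈ rp f, G α = ∑ t ∈ ({1, -1} : Finset ℤ) ×ˢ ((Finset.range 3) ×ˢ R), G (q t) := by
    have h10 : ∑ α ∈ rp f, G α = ∑ α ∈ (rp f).filter (fun α => IsCoprime α f), G α := by
      symm
      apply Finset.sum_filter_of_ne
      intro α _ hne
      by_contra hcon
      apply hne
      simp only [hG]
      rw [h.zero α hcon, zero_mul]
    rw [h10]
    symm
    have hqcop : ∀ t ∈ ({1, -1} : Finset ℤ) ×ˢ ((Finset.range 3) ×ˢ R), IsCoprime (q t) f := by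
      rintro ⟨e, j, c⟩ ht
      simp only [Finset.mem_product, Finset.mem_insert, Finset.mem_singleton, Finset.mem_range] at ht
      obtain ⟨he, hj, hcR⟩ := ht
      have h11 := hcop j c (hR.1 c hcR).1
      simp only [hq]
      rcases he with rfl | rfl
      · rw [Int.cast_one, one_mul]; exact h11
      · rw [Int.cast_neg, Int.cast_one, neg_one_mul]; exact h11.neg_left
    have hqk : ∀ t ∈ ({1, -1} : Finset ℤ) ×ˢ ((Finset.range 3) ×ˢ R), k (q t) = w ^ t.2.1 := by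
      rintro ⟨e, j, c⟩ ht
      simp only [Finset.mem_product, Finset.mem_insert, Finset.mem_singleton, Finset.mem_range] at ht
      obtain ⟨he, hj, hcR⟩ := ht
      simp only [hq]
      rcases he with rfl | rfl
      · rw [Int.cast_one, one_mul]; exact hk1 j c hcR
      · rw [Int.cast_neg, Int.cast_one, neg_one_mul, h.neg]; exact hk1 j c hcR
    refine Finset.sum_bij (fun t _ => rep (q t)) ?_ ?_ ?_ ?_
    · intro t ht
      rw [Finset.mem_filter]
      exact ⟨hrep1 _, hcopr (hrep2 _) (hqcop t ht)⟩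
    · intro t ht t' ht' heq
      have h12 : f ∣ q t - q t' := by
        have h13 := hrep2 (q t)
        have h14 := hrep2 (q t')
        have heq' : rep (q t) = rep (q t') := heq
        rw [heq'] at h13
        have h15 : q t - q t' = (q t - rep (q t')) - (q t' - rep (q t')) := by ring
        rw [h15]
        exact dvd_sub h13 h14
      have h16 : t.2.1 = t'.2.1 := by
        have h17 := hkper h12
        rw [hqk t ht, hqk t' ht'] at h17
        obtain ⟨e, j, c⟩ := t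
        obtain ⟨e', j', c'⟩ := t'
        simp only [Finset.mem_product, Finset.mem_insert, Finset.mem_singleton, Finset.mem_range] at ht ht'
        exact u1c_inj ht.2.1 ht'.2.1 h17
      obtain ⟨e, j, c⟩ := t
      obtain ⟨e', j', c'⟩ := t'
      simp only at h16
      subst h16
      simp only [Finset.mem_product, Finset.mem_insert, Finset.mem_singleton, Finset.mem_range] at ht ht'
      obtain ⟨he, hj, hcR⟩ := ht
      obtain ⟨he', hj', hcR'⟩ := ht'
      simp only [hq] at h12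
      have h18 : f ∣ (e : Eis) * c - (e' : Eis) * c' := by
        apply hcanc j
        have : c₁ ^ j * ((e : Eis) * c - (e' : Eis) * c') = (e : Eis) * (c₁ ^ j * c) - (e' : Eis) * (c₁ ^ j * c') := by ring
        rw [this]
        exact h12
      rcases he with rfl | rfl <;> rcases he' with rfl | rfl
      · rw [Int.cast_one, one_mul, one_mul] at h18
        rw [hneqR c hcR c' hcR' (Or.inl h18)]
      · exfalso
        rw [Int.cast_one, Int.cast_neg, Int.cast_one, one_mul, neg_one_mul, sub_neg_eq_add] at h18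
        have h19 := hneqR c hcR c' hcR' (Or.inr h18)
        rw [← h19] at h18
        exact htwo c hcR h18
      · exfalso
        rw [Int.cast_one, Int.cast_neg, Int.cast_one, one_mul, neg_one_mul] at h18
        have h20 : f ∣ c + c' := by
          have : c + c' = -(-c - c') := by ring
          rw [this]
          exact (dvd_neg).2 h18
        have h19 := hneqR c hcR c' hcR' (Or.inr h20)
        rw [← h19] at h20
        exact htwo c hcR h20
      · rw [Int.cast_neg, Int.cast_one, neg_one_mul, neg_one_mul] at h18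
        have h20 : f ∣ c - c' := by
          have : c - c' = -(-c - -c') := by ring
          rw [this]
          exact (dvd_neg).2 h18
        rw [hneqR c hcR c' hcR' (Or.inl h20)]
    · intro α hα
      rw [Finset.mem_filter] at hα
      obtain ⟨hα1, hα2⟩ := hα
      obtain ⟨j, hj, hkj⟩ : ∃ j : ℕ, j < 3 ∧ k α = w ^ j := by
        rcases h.cases hα2 with h21 | h21 | h21
        · exact ⟨0, by norm_num, by rw [h21, pow_zero]⟩
        · exact ⟨1, by norm_num, by rw [h21, pow_one]⟩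
        · exact ⟨2, by norm_num, h21⟩
      obtain ⟨v, y, hvy⟩ := (hc.pow_left (m := j))
      have hvc : IsCoprime v f := ⟨c₁ ^ j, y, by linear_combination hvy⟩
      have hkv : k v * w ^ j = 1 := by
        have h22 : k (v * c₁ ^ j) = 1 := by
          rw [← h.one]
          apply hkper
          exact ⟨-y, by linear_combination hvy⟩
        rw [h.mul] at h22
        have h23 : k (c₁ ^ j) = w ^ j := by
          clear hvy h22 hkj hj hvc
          induction j with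
          | zero => rw [pow_zero, pow_zero, h.one]
          | succ n ih => rw [pow_succ, h.mul, ih, hc1, pow_succ]
        rw [h23] at h22
        exact h22
      have hkα' : k (v * α) = 1 := by
        rw [h.mul, hkj, hkv]
      obtain ⟨c, ⟨hcR, hcd⟩, -⟩ := hR.2 (v * α) (hvc.mul_left hα2) hkα'
      have key : ∀ e : ℤ, f ∣ v * α - (e : Eis) * c → f ∣ (e : Eis) * (c₁ ^ j * c) - α := by
        rintro e ⟨t, ht⟩
        exact ⟨-(c₁ ^ j * t) - y * α, by linear_combination -c₁ ^ j * ht + α * hvy⟩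
      have hfin : ∀ e : ℤ, e ∈ ({1, -1} : Finset ℤ) → f ∣ (e : Eis) * (c₁ ^ j * c) - α →
          ∃ t, ∃ (_ : t ∈ ({1, -1} : Finset ℤ) ×ˢ ((Finset.range 3) ×ˢ R)), rep (q t) = α := by
        intro e he hd
        refine ⟨(e, j, c), ?_, ?_⟩
        · rw [Finset.mem_product, Finset.mem_product]
          exact ⟨he, Finset.mem_range.2 hj, hcR⟩
        · have h24 := hrep2 (q (e, j, c))
          exact (hrep (q (e, j, c))).unique ⟨hrep1 _, h24⟩ ⟨hα1, hd⟩
      rcases hcd with hd | hd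
      · refine hfin 1 (by simp) (key 1 ?_)
        rw [Int.cast_one, one_mul]
        exact hd
      · refine hfin (-1) (by simp) (key (-1) ?_)
        rw [Int.cast_neg, Int.cast_one, neg_one_mul, sub_neg_eq_add]
        exact hd
    · intro t ht
      exact hGper _ _ (hrep2 _)
  have hval : ∑ t ∈ ({1, -1} : Finset ℤ) ×ˢ ((Finset.range 3) ×ˢ R), G (q t) =
      2 * ((l 0 : ℂ) + w * (l 1 : ℂ) + w ^ 2 * (l 2 : ℂ)) := by
    have h30 : ∀ j, ∑ c ∈ R, G (c₁ ^ j * c) = w ^ j * (l j : ℂ) := by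
      intro j
      simp only [hG, hl]
      rw [Complex.ofReal_sum, Finset.mul_sum]
      refine Finset.sum_congr rfl fun c hcR => ?_
      rw [hk1 j c hcR]
    have h31 : ∀ e ∈ ({1, -1} : Finset ℤ), ∑ t ∈ (Finset.range 3) ×ˢ R, G (q (e, t)) =
        (l 0 : ℂ) + w * (l 1 : ℂ) + w ^ 2 * (l 2 : ℂ) := by
      intro e he
      have h32 : ∀ t : ℕ × Eis, G (q (e, t)) = G (c₁ ^ t.1 * t.2) := by
        intro t
        simp only [Finset.mem_insert, Finset.mem_singleton] at he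
        simp only [hq]
        rcases he with rfl | rfl
        · rw [Int.cast_one, one_mul]
        · rw [Int.cast_neg, Int.cast_one, neg_one_mul, hGneg]
      rw [Finset.sum_congr rfl fun t _ => h32 t, Finset.sum_product, Finset.sum_range_succ, Finset.sum_range_succ,
        Finset.sum_range_one, h30, h30, h30, pow_zero, one_mul, pow_one]
    rw [Finset.sum_product, Finset.sum_congr rfl h31, Finset.sum_const]
    have h33 : ({1, -1} : Finset ℤ).card = 2 := by decide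
    rw [h33, nsmul_eq_mul, Nat.cast_ofNat]
  rw [hsum, hval, u1c_norm]
  ring

end J2E
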