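import Pool.Agent.J2E.B1
import Pool.Agent.JGL.U2

/-!
# [J2E-U2] the functions `y(c/f)` and `h(c/f)`

PROOF. `y`: `yw (-z) = - yw z`, periodic; `yw z = 0` only for `2 z` in the lattice (`4 x³ = -1`, `CM27`; or `yw = 0` gives `-pt z = pt z`), and `2 c/f` is not in the lattice. `gal`: `M₀ = f`, `CUL.GalU.dvd`, `ζ = 1`, `g' = g`.
`h`: `hT (-z) = - hT z`. `hT z ≠ 0`: `y(c/f) ≠ 0` and `x² - 2 e x - 2 e² = 0` would give `x(2c/f) = e` (`J2E.B3.hT_sq` is not needed: `(x² - 2 e x - 2 e²)² = x⁴ - 2x - e (4x³ + 1)` with `eh_cube`, and `x(2z) (4 x³ + 1) = x⁴ - 2x`, `JGL.u2_dbl`; `xw_sub_eh_ne` at `2c/f`).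
`gal`: `M₀ = 2 f`. `GalU σ M g` with `2 f ∣ M`; `g` is odd, `g ≡ ω^i mod 2`, `i < 3`, `g' = ω^(3-i) g`: `x(g/2) = x(ω^i/2) = ω^i e`, so `σ(e) = w^i e`; `x(g c/f) = x(ω^i g' c/f) = w^i x(g' c/f)`, `y(g c/f) = y(g' c/f)` (`xw (w z) = w xw z`, `yw (w z) = yw z`), hence `σ(hT(c/f)) = w^(2i) hT(g' c/f)`.
`k g' = κ g' = κ g` (`g' ≡ 1 mod 2` up to a power of `ω³ = 1`; `κ` is trivial on units).
-/

set_option autoImplicit false

open MeasureTheory Set Filter Topology
open scoped Classical ComplexConjugate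

namespace J2E

open CM27 JZ
open CU (la eE)
open CUL (Nl ta rp IsRep zw GalU)
open JGL (GalP)

variable {f : Eis} {k κ : Eis → ℂ}

theorem u2_embf {f : Eis} (hf : f ≠ 0) : emb f ≠ 0 := by
  intro h
  exact hf (emb_injective (by rw [h, map_zero]))

theorem u2_nl2 (h : Ch f k) (h2 : IsCoprime f 2) {c : Eis} (hc : IsCoprime c f) : Nl (emb c / emb f + emb c / emb f) := by
  rintro ⟨t, ht⟩
  have hf := u2_embf h.F0
  have h1 : emb (f * t) = emb (2 * c) := by
    rw [map_mul, map_mul, ht, map_ofNat]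
    field_simp
    ring
  have h3 : f * t = 2 * c := emb_injective h1
  have h4 : f ∣ c := h2.dvd_of_dvd_mul_left ⟨t, h3.symm⟩
  exact h.notUnit (hc.symm.isUnit_of_dvd' (dvd_refl f) h4)

theorem u2_two_nu : ¬ IsUnit (2 : Eis) := by
  intro h
  rcases (CU.unit_iff 2).1 h with h | h | h | h | h | h <;> exact absurd h (by decide)

theorem u2_nl3 (h : Ch f k) (h2 : IsCoprime f 2) {c : Eis} : Nl (emb c / emb f + emb c / emb f + 1 / 2) := by
  rintro ⟨t, ht⟩
  have hf := u2_embf h.F0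
  have h1 : emb (2 * (f * t)) = emb (4 * c + f) := by
    rw [map_mul, map_mul, map_add, map_mul, ht, map_ofNat, map_ofNat]
    field_simp
    ring
  have h3 : 2 * (f * t) = 4 * c + f := emb_injective h1
  have h4 : (2 : Eis) ∣ f := ⟨f * t - 2 * c, by linear_combination -h3⟩
  exact u2_two_nu (h2.symm.isUnit_of_dvd' (dvd_refl _) h4)

theorem u2_yne {z : ℂ} (hz : Nl z) (h2 : Nl (z + z)) : yw z ≠ 0 := by
  intro h0
  apply h2
  have hz' : -z ∉ Set.range emb := by
    rintro ⟨t, ht⟩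
    exact hz ⟨-t, by rw [map_neg, ht, neg_neg]⟩
  obtain ⟨p1, p2⟩ := pt_of_not_mem z hz
  obtain ⟨p3, p4⟩ := pt_of_not_mem (-z) hz'
  have h3 : pt z = pt (-z) := by
    rw [p2, p4]
    exact a4_some_congr _ _ (xw_neg z).symm (by rw [yw_neg, h0, neg_zero])
  have h4 := (pt_eq_iff z (-z)).1 h3
  rwa [sub_neg_eq_add] at h4

theorem u2_per {f a b : Eis} (hf : f ≠ 0) (hab : f ∣ a - b) : ∃ t : Eis, emb a / emb f = emb b / emb f + emb t := by
  obtain ⟨t, ht⟩ := hab
  refine ⟨t, ?_⟩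
  have hf' := u2_embf hf
  have h1 : a = b + f * t := by linear_combination ht
  rw [h1, map_add, map_mul]
  field_simp

theorem GD_y (h : Cu f k) (h2 : IsCoprime f 2) : GD f k k (fun c => yw (emb c / emb f)) := by
  refine ⟨?_, ?_, ?_, ?_⟩
  · intro c
    rw [map_neg, neg_div, yw_neg]
  · intro a b hab
    obtain ⟨t, ht⟩ := u2_per h.F0 hab
    rw [ht, yw_add]
  · intro c hc
    exact u2_yne (h.toCh.nl hc) (u2_nl2 h.toCh h2 hc)
  · refine ⟨f, h.F0, ?_⟩
    intro σ _ M g hM hfM hg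
    have hgf := hg.dvd hM hfM
    refine ⟨1, g, one_ne_zero, hgf.2.1, rfl, fun c _ => ?_⟩
    rw [one_mul]
    exact (hgf.2.2 c).2

theorem u2_mod2 {g : Eis} (hg : IsCoprime g 2) : ∃ i j : ℕ, i + j = 3 ∧ (2 : Eis) ∣ g - CU.om ^ i := by
  have hcop : ¬ (2 : Eis) ∣ g := fun hd => u2_two_nu (hg.symm.isUnit_of_dvd' (dvd_refl _) hd)
  obtain ⟨a, b⟩ := g
  have h2re : (2 : Eis).re = 2 := rfl
  have h2im : (2 : Eis).im = 0 := rfl
  rcases Int.even_or_odd' a with ⟨m, ha | ha⟩ <;> rcases Int.even_or_odd' b with ⟨n, hb | hb⟩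
  · exfalso
    apply hcop
    refine ⟨⟨m, n⟩, ?_⟩
    ext
    · simp only [QuadraticAlgebra.re_mul, h2re, h2im]
      rw [ha]
      ring
    · simp only [QuadraticAlgebra.im_mul, h2re, h2im]
      rw [hb]
      ring
  · refine ⟨1, 2, rfl, ⟨m, n⟩, ?_⟩
    rw [pow_one]
    ext
    · simp only [QuadraticAlgebra.re_mul, QuadraticAlgebra.re_sub, h2re, h2im, CU.om]
      rw [ha]
      ring
    · simp only [QuadraticAlgebra.im_mul, QuadraticAlgebra.im_sub, h2re, h2im, CU.om]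
      rw [hb]
      ring
  · refine ⟨3, 0, rfl, ⟨m, n⟩, ?_⟩
    have h3 : CU.om ^ 3 = 1 := by decide
    rw [h3]
    ext
    · simp only [QuadraticAlgebra.re_mul, QuadraticAlgebra.re_sub, h2re, h2im, QuadraticAlgebra.re_one]
      rw [ha]
      ring
    · simp only [QuadraticAlgebra.im_mul, QuadraticAlgebra.im_sub, h2re, h2im, QuadraticAlgebra.im_one]
      rw [hb]
      ring
  · refine ⟨2, 1, rfl, ⟨m + 1, n + 1⟩, ?_⟩
    have h3 : CU.om ^ 2 = ⟨-1, -1⟩ := by decide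
    rw [h3]
    ext
    · simp only [QuadraticAlgebra.re_mul, QuadraticAlgebra.re_sub, h2re, h2im]
      rw [ha]
      ring
    · simp only [QuadraticAlgebra.im_mul, QuadraticAlgebra.im_sub, h2re, h2im]
      rw [hb]
      ring

theorem u2_wpow (i : ℕ) (z : ℂ) : xw (w ^ i * z) = w ^ i * xw z ∧ yw (w ^ i * z) = yw z := by
  induction i with
  | zero => rw [pow_zero, one_mul, one_mul]; exact ⟨rfl, rfl⟩
  | succ n ih => rw [pow_succ', mul_assoc, xw_w, yw_w, ih.1, ih.2, mul_assoc]; exact ⟨rfl, rfl⟩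

theorem u2_hne (h : Ch f k) (h2 : IsCoprime f 2) {c : Eis} (hc : IsCoprime c f) : hT (emb c / emb f) ≠ 0 := by
  set z := emb c / emb f with hz
  have hn1 : Nl z := h.nl hc
  have hn2 : Nl (z + z) := u2_nl2 h h2 hc
  have hn3 : Nl (z + z + 1 / 2) := u2_nl3 h h2
  have hy := u2_yne hn1 hn2
  intro h0
  rw [hT, div_eq_zero_iff] at h0
  rcases h0 with h0 | h0
  · have h1 := JGL.u2_dbl hn1 hn2
    have h3 := weq z hn1
    have h4 := eh_cube
    have h5 : (xw (z + z) - eh) * (4 * xw z ^ 3 + 1) = 0 := by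
      linear_combination h1 + (xw z ^ 2 - 2 * eh * xw z - 2 * eh ^ 2) * h0 - (8 * xw z + 4 * eh) * h4
    rw [← h3] at h5
    rcases mul_eq_zero.1 h5 with h6 | h6
    · exact xw_sub_eh_ne ⟨hn2, hn3⟩ h6
    · exact hy (pow_eq_zero_iff two_ne_zero |>.1 h6)
  · exact hy h0

theorem GD_h (h : Ch f k) (h2 : IsCoprime f 2) (h' : Cu (2 * f) κ)
    (hκ : ∀ x, IsCoprime x (2 * f) → (2 : Eis) ∣ x - 1 → κ x = k x) : GD f k κ (fun c => hT (emb c / emb f)) := by
  refine ⟨?_, ?_, ?_, ?_⟩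
  · intro c
    simp only [hT]
    rw [map_neg, neg_div, yw_neg, xw_neg, div_neg]
  · intro a b hab
    obtain ⟨t, ht⟩ := u2_per h.F0 hab
    simp only [hT]
    rw [ht, yw_add, xw_add]
  · intro c hc
    exact u2_hne h h2 hc
  · refine ⟨2 * f, h'.F0, ?_⟩
    intro σ hσw M g hM hfM hg
    have hg2f := hg.dvd hM hfM
    have hgf := hg.dvd hM ((Dvd.intro_left 2 rfl).trans hfM)
    have hg2 := hg.dvd hM ((Dvd.intro f rfl).trans hfM)
    obtain ⟨i, j, hij, hd⟩ := u2_mod2 hg2.2.1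
    have hom3 : CU.om ^ 3 = 1 := by decide
    have homij : CU.om ^ i * CU.om ^ j = 1 := by rw [← pow_add, hij, hom3]
    have homu : IsUnit (CU.om ^ j) := IsUnit.of_mul_eq_one (CU.om ^ i) (by rw [mul_comm]; exact homij)
    have homc : ∀ x : Eis, IsCoprime (CU.om ^ j) x := fun x => ⟨CU.om ^ i, 0, by linear_combination homij⟩
    have hembom : emb CU.om = w := CUL.emb_om
    have hwij : w ^ i * w ^ j = 1 := by
      rw [← hembom, ← map_pow, ← map_pow, ← map_mul, homij, map_one]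
    have hwi0 : w ^ i ≠ 0 := left_ne_zero_of_mul_eq_one hwij
    refine ⟨w ^ (2 * i), CU.om ^ j * g, ?_, (homc f).mul_left hgf.2.1, ?_, fun c _ => ?_⟩
    · rw [mul_comm, pow_mul]
      exact pow_ne_zero _ hwi0
    · rw [← hκ (CU.om ^ j * g) ((homc _).mul_left hg2f.2.1) ?_, h'.mul, h'.unit _ homu, one_mul]
      obtain ⟨t, ht⟩ := hd
      exact ⟨CU.om ^ j * t, by linear_combination CU.om ^ j * ht + homij⟩
    · -- the values
      have e1 : emb (g * c) / emb f = w ^ i * (emb (CU.om ^ j * g * c) / emb f) := by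
        have e2 : g * c = CU.om ^ i * (CU.om ^ j * g * c) := by linear_combination (-(g * c)) * homij
        conv_lhs => rw [e2]
        rw [map_mul, map_pow, hembom]
        ring
      have e3 : σ eh = w ^ i * eh := by
        have e4 := (hg2.2.2 1).1
        rw [mul_one, map_one, map_ofNat] at e4
        rw [eh, e4]
        obtain ⟨t, ht⟩ := hd
        have e5 : emb g / 2 = w ^ i * (1 / 2) + emb t := by
          have e6 : g = CU.om ^ i + 2 * t := by linear_combination ht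
          rw [e6, map_add, map_mul, map_pow, hembom, map_ofNat]
          ring
        rw [e5, xw_add, (u2_wpow i _).1]
      have e7 := (hgf.2.2 c).1
      have e8 := (hgf.2.2 c).2
      rw [e1, (u2_wpow i _).1] at e7
      rw [e1, (u2_wpow i _).2] at e8
      simp only [hT]
      rw [map_div₀, map_sub, map_sub, map_mul, map_mul, map_mul, map_pow, map_pow, map_ofNat, e3, e7, e8]
      rw [mul_div_assoc', mul_comm 2 i, pow_mul]
      congr 1
      ring

end J2E
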