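import Pool.Agent.J2E.B1
import Pool.Agent.JGL.U2

/-!
# [J2E-U3a] the valuations of `y(c/f)`, `h(c/f)` at the primes `p ∤ 6 f`

PROOF. `z = c/f`, `B.valuation 2 = 1`, `B.valuation (emb f) = 1` (`JZ.i2_unit`, `JGL.u2_two_eq`). `x(z)`, `x(2 z)` are integral (`JZ.i2_main`), so `y(z)` is (`JZ.i1_y_le`). If `|y(z)| < 1`: `x(2z) y(z)² = x⁴ - 2x` (`JGL.u2_dbl`), so `|x (x³ - 2)| < 1`; but `4 x³ = y² - 1`, so `|x| = 1`
(`|4| = 1`), `|x³ - 2| = |4 x³ - 8| = |y² - 9| = |9| = 1`: contradiction. So `|y(z)| = 1` for all points of order prime to `p` which are not `2`-torsion.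
`h(z)² = x(2z) - e` (see B3/U2) and `y(2z)² = 4 (x(2z) - e)(x(2z) - w e)(x(2z) - w² e)` has valuation one, all factors are integral (`e³ = -1/4`): `|h(z)| = 1`.
-/

set_option autoImplicit false

open MeasureTheory Set Filter Topology
open scoped Classical ComplexConjugate

namespace J2E

open CM27 JZ
open CU (la eE)
open CUL (Nl ta rp IsRep zw GalU)
open JGL (GalP)

variable {B : ValuationSubring ℂ}

theorem u3a_pow {a : B.ValueGroup} {n : ℕ} (hn : n ≠ 0) (h : a ^ n = 1) : a = 1 := by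
  rcases lt_trichotomy a 1 with h1 | h1 | h1
  · exact absurd h (ne_of_lt (pow_lt_one₀ zero_le h1 hn))
  · exact h1
  · exact absurd h (ne_of_gt (one_lt_pow₀ h1 hn))

theorem u3a_hsq {z : ℂ} (hz : Nl z) (h2z : Nl (z + z)) (hy : yw z ≠ 0) : hT z ^ 2 = xw (z + z) - eh := by
  have h1 := JGL.u2_dbl hz h2z
  have h2 := weq z hz
  have h3 := eh_cube
  have hy2 : yw z ^ 2 ≠ 0 := pow_ne_zero 2 hy
  rw [hT, div_pow, div_eq_iff hy2, h2]
  linear_combination -h1 + (8 * xw z + 4 * eh) * h3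

theorem u3a_two {z : ℂ} : emb 2 * z = z + z := by
  rw [map_ofNat, two_mul]

theorem u3a_nl2 {z : ℂ} (hz : Nl z) {m : Eis} (hm : emb m * z ∈ Set.range emb) (hm2 : IsCoprime m 2) :
    Nl (z + z) ∧ emb m * (z + z) ∈ Set.range emb := by
  refine ⟨?_, ?_⟩
  · rw [← u3a_two]
    exact JGL.u2_nl hz hm hm2
  · obtain ⟨a, ha⟩ := hm
    exact ⟨a + a, by rw [map_add, ha, mul_add]⟩

theorem u3a_ndvd {p : Eis} (h6 : ¬ p ∣ 6) : ¬ p ∣ 2 ∧ ¬ p ∣ 3 := by
  constructor
  · intro h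
    exact h6 (h.trans ⟨3, by norm_num⟩)
  · intro h
    exact h6 (h.trans ⟨2, by norm_num⟩)

/-- `m z` in the lattice, `m` odd and prime to `p` -/
theorem u3a_y {p : Eis} (hp : Prime p) (h6 : ¬ p ∣ 6) (hB : B.valuation (emb p) < 1) {z : ℂ} (hz : Nl z)
    {m : Eis} (hm : emb m * z ∈ Set.range emb) (hmp : IsCoprime m p) (hm2 : IsCoprime m 2) : B.valuation (yw z) = 1 := by
  obtain ⟨h2, h3⟩ := u3a_ndvd h6
  have v2 := JGL.u2_two_eq hp hB h2
  have v4 := i1_four B v2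
  have v3 : B.valuation 3 = 1 := by
    have := i2_unit hB (JGL.u2_cop hp h3)
    rwa [map_ofNat] at this
  have v9 : B.valuation 9 = 1 := by
    rw [show (9 : ℂ) = 3 * 3 by norm_num, map_mul, v3, one_mul]
  have vm := i2_unit hB hmp
  obtain ⟨h2z, hm2z⟩ := u3a_nl2 hz hm hm2
  have hx := i2_main v2 hz hm vm
  have hX := i2_main v2 h2z hm2z vm
  have hc := weq z hz
  have hy := i1_y_le B v2 hc hx
  refine le_antisymm hy ?_
  by_contra hlt
  push Not at hlt
  have hd := JGL.u2_dbl hz h2z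
  have hy2 : B.valuation (yw z ^ 2) < 1 := by
    rw [map_pow]
    exact pow_lt_one₀ zero_le hlt (by norm_num)
  -- `|x| = 1`
  have h4 : B.valuation (4 * xw z ^ 3) = 1 := by
    have e : 4 * xw z ^ 3 = yw z ^ 2 - 1 := by rw [hc]; ring
    rw [e, Valuation.map_sub_eq_of_lt_right _ (by rwa [map_one]), map_one]
  have hx3 : B.valuation (xw z) ^ 3 = 1 := by
    rwa [map_mul, v4, one_mul, map_pow] at h4
  have hx1 : B.valuation (xw z) = 1 := u3a_pow (by norm_num) hx3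
  have h5 : B.valuation (4 * (xw z ^ 3 - 2)) = 1 := by
    have e : 4 * (xw z ^ 3 - 2) = yw z ^ 2 - 9 := by rw [hc]; ring
    rw [e, Valuation.map_sub_eq_of_lt_right _ (by rwa [v9]), v9]
  rw [map_mul, v4, one_mul] at h5
  have h7 : B.valuation (xw z ^ 4 - 2 * xw z) = 1 := by
    have e : xw z ^ 4 - 2 * xw z = xw z * (xw z ^ 3 - 2) := by ring
    rw [e, map_mul, hx1, h5, one_mul]
  rw [← hd, ← hc, map_mul] at h7
  have h8 : B.valuation (xw (z + z)) * B.valuation (yw z ^ 2) < 1 := by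
    calc B.valuation (xw (z + z)) * B.valuation (yw z ^ 2) ≤ 1 * B.valuation (yw z ^ 2) :=
          mul_le_mul' hX le_rfl
      _ = B.valuation (yw z ^ 2) := one_mul _
      _ < 1 := hy2
  exact absurd h7 (ne_of_lt h8)

theorem u3a_fac {X y e : ℂ} (hc : y ^ 2 = 4 * X ^ 3 + 1) (he : e ^ 3 = -1 / 4) :
    y ^ 2 = 4 * (X - e) * ((X - w * e) * (X - w ^ 2 * e)) := by
  have h2 := CUL.w2
  have h3 := CUL.w3
  linear_combination hc + (4 * X ^ 2 * e - 4 * X * e ^ 2) * h2 + (4 * e ^ 3 - 4 * X * e ^ 2) * h3 + 4 * he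

theorem u3a_h {p : Eis} (hp : Prime p) (h6 : ¬ p ∣ 6) (hB : B.valuation (emb p) < 1) {z : ℂ} (hz : Nl z)
    {m : Eis} (hm : emb m * z ∈ Set.range emb) (hmp : IsCoprime m p) (hm2 : IsCoprime m 2) : B.valuation (hT z) = 1 := by
  obtain ⟨h2, h3⟩ := u3a_ndvd h6
  have v2 := JGL.u2_two_eq hp hB h2
  have v4 := i1_four B v2
  have vm := i2_unit hB hmp
  obtain ⟨h2z, hm2z⟩ := u3a_nl2 hz hm hm2
  have hX := i2_main v2 h2z hm2z vm
  have hy := u3a_y hp h6 hB hz hm hmp hm2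
  have hy' := u3a_y hp h6 hB h2z hm2z hmp hm2
  have hy0 : yw z ≠ 0 := by
    intro h0
    rw [h0, map_zero] at hy
    exact zero_ne_one hy
  have hww : B.valuation w = 1 := CUL.w_w B
  have ve : B.valuation eh = 1 := by
    have h5 : B.valuation (4 * eh ^ 3) = 1 := by
      rw [eh_cube, show (4 : ℂ) * (-1 / 4) = -1 by norm_num, Valuation.map_neg, map_one]
    rw [map_mul, v4, one_mul, map_pow] at h5
    exact u3a_pow (by norm_num) h5
  have hfac := u3a_fac (weq _ h2z) eh_cube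
  have k0 : B.valuation (xw (z + z) - eh) ≤ 1 := (B.valuation.map_sub _ _).trans (max_le hX ve.le)
  have k1 : B.valuation (xw (z + z) - w * eh) ≤ 1 :=
    (B.valuation.map_sub _ _).trans (max_le hX (by rw [map_mul, hww, ve, one_mul]))
  have k2 : B.valuation (xw (z + z) - w ^ 2 * eh) ≤ 1 :=
    (B.valuation.map_sub _ _).trans (max_le hX (by rw [map_mul, map_pow, hww, ve, one_pow, one_mul]))
  have k3 : B.valuation ((xw (z + z) - eh) * ((xw (z + z) - w * eh) * (xw (z + z) - w ^ 2 * eh))) = 1 := by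
    have e := congrArg B.valuation hfac
    rw [map_pow, hy', one_pow, mul_assoc, map_mul, v4, one_mul] at e
    exact e.symm
  have k4 := (JGL.u2_unit_of_mul k0 (by rw [map_mul]; exact mul_le_one' k1 k2) k3).1
  have k5 := u3a_hsq hz h2z hy0
  have k6 : B.valuation (hT z) ^ 2 = 1 := by
    rw [← map_pow, k5, k4]
  exact u3a_pow (by norm_num) k6

end J2E
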