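import Pool.Agent.J2E.B1
import Pool.Agent.JGL.U2

/-!
# [J2E-U3b] the valuations of `y(c/f)`, `h(c/f)` at `2`, `f` odd

PROOF. `x(z)` is integral at a point of odd order: proof of `JGL.u2_int` (case `p ∣ 2`, the hypothesis `¬ la ∣ m` is not used there; copy it without this hypothesis). `y = 1 + 2 Y`, `Y² + Y = x³`, so `Y` is integral and `|y| = 1`.
`e = eh`, `e³ = -1/4`, so `|e| > 1 ≥ |x(2z)|`, `|h(z)|² = |x(2z) - e| = |e|`: `|h(z)| ^ 2 = |eh|` for all `z`.
-/

set_option autoImplicit false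

open MeasureTheory Set Filter Topology
open scoped Classical ComplexConjugate

namespace J2E

open CM27 JZ
open CU (la eE)
open CUL (Nl ta rp IsRep zw GalU)
open JGL (GalP)

variable {B : ValuationSubring ℂ}

theorem u3b_pow {a : B.ValueGroup} {n : ℕ} (hn : n ≠ 0) (h : a ^ n = 1) : a = 1 := by
  rcases lt_trichotomy a 1 with h1 | h1 | h1
  · exact absurd h (ne_of_lt (pow_lt_one₀ zero_le h1 hn))
  · exact h1
  · exact absurd h (ne_of_gt (one_lt_pow₀ h1 hn))

theorem u3b_hsq {z : ℂ} (hz : Nl z) (h2z : Nl (z + z)) (hy : yw z ≠ 0) : hT z ^ 2 = xw (z + z) - eh := by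
  have h1 := JGL.u2_dbl hz h2z
  have h2 := weq z hz
  have h3 := eh_cube
  have hy2 : yw z ^ 2 ≠ 0 := pow_ne_zero 2 hy
  rw [hT, div_pow, div_eq_iff hy2, h2]
  linear_combination -h1 + (8 * xw z + 4 * eh) * h3

theorem u3b_nl2 {z : ℂ} (hz : Nl z) {m : Eis} (hm : emb m * z ∈ Set.range emb) (hm2 : IsCoprime m 2) :
    Nl (z + z) ∧ emb m * (z + z) ∈ Set.range emb := by
  have e : emb 2 * z = z + z := by rw [map_ofNat, two_mul]
  refine ⟨?_, ?_⟩
  · rw [← e]
    exact JGL.u2_nl hz hm hm2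
  · obtain ⟨a, ha⟩ := hm
    exact ⟨a + a, by rw [map_add, ha, mul_add]⟩

theorem u3b_x (hB : B.valuation 2 < 1) {z : ℂ} (hz : Nl z) {m : Eis} (hm : emb m * z ∈ Set.range emb)
    (hm2 : IsCoprime m 2) : B.valuation (xw z) ≤ 1 := by
  by_contra hcon
  push Not at hcon
  have hnl : ∀ k : ℕ, Nl (emb (2 ^ k) * z) := fun k => JGL.u2_nl hz hm hm2.pow_right
  have hsucc : ∀ k : ℕ, emb (2 ^ (k + 1)) * z = emb (2 ^ k) * z + emb (2 ^ k) * z := by
    intro k
    rw [pow_succ, map_mul, map_ofNat]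
    ring
  have hbig : ∀ k : ℕ, 1 < B.valuation (xw (emb (2 ^ k) * z)) ∧
      B.valuation (xw (emb (2 ^ k) * z)) < B.valuation (xw (emb (2 ^ (k + 1)) * z)) := by
    have hst : ∀ k : ℕ, 1 < B.valuation (xw (emb (2 ^ k) * z)) →
        B.valuation (xw (emb (2 ^ k) * z)) < B.valuation (xw (emb (2 ^ (k + 1)) * z)) := by
      intro k hk
      rw [hsucc k]
      have h5 := JGL.u2_dbl (hnl k) (by rw [← hsucc k]; exact hnl (k + 1))
      exact JGL.u2_step hB h5 hk
    intro k
    induction k with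
    | zero =>
      have h5 : 1 < B.valuation (xw (emb (2 ^ 0) * z)) := by
        rwa [pow_zero, map_one, one_mul]
      exact ⟨h5, hst 0 h5⟩
    | succ k ih =>
      have h5 := lt_trans ih.1 ih.2
      exact ⟨h5, hst (k + 1) h5⟩
  have hmono : StrictMono fun k : ℕ => B.valuation (xw (emb (2 ^ k) * z)) :=
    strictMono_nat_of_lt_succ fun k => (hbig k).2
  have hm0 : m ≠ 0 := by
    rintro rfl
    obtain ⟨a, b, hab⟩ := hm2
    rw [mul_zero, zero_add] at hab
    have h5 : emb b * 2 = 1 := by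
      have := congrArg emb hab
      rwa [map_mul, map_ofNat, map_one] at this
    have h6 := congrArg B.valuation h5
    rw [map_mul, map_one] at h6
    have h7 : B.valuation (emb b) * B.valuation 2 < 1 := by
      calc B.valuation (emb b) * B.valuation 2 ≤ 1 * B.valuation 2 := mul_le_mul' (i2_emb_le b) le_rfl
        _ = B.valuation 2 := one_mul _
        _ < 1 := hB
    exact absurd h6 (ne_of_lt h7)
  have hfin := I3.quot_finite m hm0
  obtain ⟨i, j, hne, hij⟩ := Finite.exists_ne_map_eq_of_infinite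
    (fun k : ℕ => Ideal.Quotient.mk (Ideal.span {m}) ((2 : Eis) ^ k))
  have hij' : Ideal.Quotient.mk (Ideal.span {m}) ((2 : Eis) ^ i) =
    Ideal.Quotient.mk (Ideal.span {m}) ((2 : Eis) ^ j) := hij
  rw [Ideal.Quotient.eq, Ideal.mem_span_singleton] at hij'
  obtain ⟨c, hc'⟩ := hij'
  obtain ⟨a, ha⟩ := hm
  apply hne
  apply hmono.injective
  show B.valuation (xw (emb (2 ^ i) * z)) = B.valuation (xw (emb (2 ^ j) * z))
  have h6 : emb (2 ^ i) * z = emb (2 ^ j) * z + emb (c * a) := by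
    have h7 : (2 : Eis) ^ i = 2 ^ j + m * c := by rw [← hc']; ring
    rw [h7, map_add, map_mul, map_mul, ha]
    ring
  rw [h6, xw_add]

theorem u3b_y (hB : B.valuation 2 < 1) {z : ℂ} (hz : Nl z) {m : Eis} (hm : emb m * z ∈ Set.range emb)
    (hm2 : IsCoprime m 2) : B.valuation (yw z) = 1 := by
  have hx := u3b_x hB hz hm hm2
  have hc := weq z hz
  obtain ⟨Y, hY⟩ : ∃ Y, Y = (yw z - 1) / 2 := ⟨_, rfl⟩
  have hyw : yw z = 2 * Y + 1 := by rw [hY]; ring
  have h4 : Y * (Y + 1) = xw z ^ 3 := by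
    rw [hyw] at hc
    linear_combination (1 / 4) * hc
  have h5 : B.valuation Y ≤ 1 := by
    by_contra hcon
    push Not at hcon
    have h6 : B.valuation (Y + 1) = B.valuation Y :=
      Valuation.map_add_eq_of_lt_left _ (by rwa [map_one])
    have h7 : B.valuation (Y * (Y + 1)) ≤ 1 := by
      rw [h4, map_pow]
      exact pow_le_one₀ zero_le hx
    rw [map_mul, h6] at h7
    have h8 : 1 < B.valuation Y * B.valuation Y := by
      rw [← pow_two]
      exact one_lt_pow₀ hcon (by norm_num)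
    exact absurd h7 (not_le.2 h8)
  have h6 : B.valuation (2 * Y) < 1 := by
    rw [map_mul]
    calc B.valuation 2 * B.valuation Y ≤ B.valuation 2 * 1 := mul_le_mul' le_rfl h5
      _ = B.valuation 2 := mul_one _
      _ < 1 := hB
  rw [hyw, Valuation.map_add_eq_of_lt_right _ (by rwa [map_one]), map_one]

theorem u3b_h (hB : B.valuation 2 < 1) {z : ℂ} (hz : Nl z) {m : Eis} (hm : emb m * z ∈ Set.range emb)
    (hm2 : IsCoprime m 2) : B.valuation (hT z) ^ 2 = B.valuation eh := by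
  obtain ⟨h2z, hm2z⟩ := u3b_nl2 hz hm hm2
  have hX := u3b_x hB h2z hm2z hm2
  have hy := u3b_y hB hz hm hm2
  have hy0 : yw z ≠ 0 := by
    intro h0
    rw [h0, map_zero] at hy
    exact zero_ne_one hy
  have v4 : B.valuation 4 < 1 := by
    rw [show (4 : ℂ) = 2 * 2 by norm_num, map_mul]
    calc B.valuation 2 * B.valuation 2 ≤ B.valuation 2 * 1 := mul_le_mul' le_rfl hB.le
      _ = B.valuation 2 := mul_one _
      _ < 1 := hB
  have ve : 1 < B.valuation eh := by
    have h5 : B.valuation (4 * eh ^ 3) = 1 := by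
      rw [eh_cube, show (4 : ℂ) * (-1 / 4) = -1 by norm_num, Valuation.map_neg, map_one]
    rw [map_mul, map_pow] at h5
    by_contra hcon
    push Not at hcon
    have h6 : B.valuation 4 * B.valuation eh ^ 3 < 1 := by
      calc B.valuation 4 * B.valuation eh ^ 3 ≤ B.valuation 4 * 1 :=
            mul_le_mul' le_rfl (pow_le_one₀ zero_le hcon)
        _ = B.valuation 4 := mul_one _
        _ < 1 := v4
    exact absurd h5 (ne_of_lt h6)
  rw [← map_pow, u3b_hsq hz h2z hy0, Valuation.map_sub_eq_of_lt_right _ (lt_of_le_of_lt hX ve)]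

end J2E
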