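import Pool.Agent.J2E.B1
import Pool.Agent.JGL.U2

/-!
# [J2E-U3c] the valuations of `y(c/f)`, `h(c/f)` at `λ`, `f` prime to `6`

Normalization `v(λ) = 1`, `v(3) = 2`. `OT z`: `z` a torsion point of order prime to `3` (and `z` not in the lattice). `τ = ym/θ` (`JGL.Tm`), `θ² = -3`.
PROOF of `u3c_y`: `v(y) = 3/2`, that is `v(y)⁴ = v(3)³`, if `2 z` is not in the lattice and the order is odd. Known: `v(τ) ≥ 1/2` (JGL/T.lean, `Tm`, `Um_val`) and `-θ τ(λ z) = (τ³ + 3 τ)/(1 + 3 τ²)` (JGL/T.lean or JGL/Ta.lean). Assume `s = v(τ(z)) > 1/2`. Then `v(1 + 3 τ²) = 0` and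
`1 + v(τ(λ z)) = s + v(τ² + 3) ≥ s + min(2 s, 2)`, so `v(τ(λ z)) ≥ s + min(2 s - 1, 1) > s`. By induction `v(τ(λ^k z))` is strictly increasing (the points `λ^k z` are again of order prime to `3`, odd, so `τ ≠ 0` there),
but `λ^k ≡ 1 mod m` for some `k > 0`: contradiction (as in `JGL.u2_int`, `I3.quot_finite`). So `v(τ) = 1/2`, `v(y) = v(θ) + 1/2 = 3/2`.
`u3c_h`: `P = 2z`, `h(z)² = x(P) - e`, `y(P)² = 4 ∏_j (x(P) - w^j e)`, valuation `3`; the differences `w^i e - w^j e` have valuation `1` (`|e| = 1`). If one factor had valuation `< 1`, all three would have the same valuation, sum `< 3`; if one had valuation `> 1`, the two others would have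
valuation exactly `1`, sum `> 3`. So `v(x(P) - e) = 1`: `|h(z)|⁴ = |3|`.
-/

set_option autoImplicit false

open MeasureTheory Set Filter Topology
open scoped Classical ComplexConjugate

namespace J2E

open CM27 JZ
open CU (la eE)
open CUL (Nl ta rp IsRep zw GalU)
open JGL (GalP)

open CUL (OT)

variable {B : ValuationSubring ℂ}

open JGL (Tm ym th)

theorem u3c_hsq {z : ℂ} (hz : Nl z) (h2z : Nl (z + z)) (hy : yw z ≠ 0) : hT z ^ 2 = xw (z + z) - eh := by
  have h1 := JGL.u2_dbl hz h2z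
  have h2 := weq z hz
  have h3 := eh_cube
  have hy2 : yw z ^ 2 ≠ 0 := pow_ne_zero 2 hy
  rw [hT, div_pow, div_eq_iff hy2, h2]
  linear_combination -h1 + (8 * xw z + 4 * eh) * h3

theorem u3c_nl2 {z : ℂ} (hz : Nl z) {m : Eis} (hm : emb m * z ∈ Set.range emb) (hm2 : IsCoprime m 2) :
    Nl (z + z) ∧ emb m * (z + z) ∈ Set.range emb := by
  have e : emb 2 * z = z + z := by rw [map_ofNat, two_mul]
  refine ⟨?_, ?_⟩
  · rw [← e]
    exact JGL.u2_nl hz hm hm2
  · obtain ⟨a, ha⟩ := hm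
    exact ⟨a + a, by rw [map_add, ha, mul_add]⟩

theorem u3c_y_ne {z : ℂ} (hz : Nl z) (h2z : Nl (z + z)) : yw z ≠ 0 := by
  intro h0
  have hd := JGL.u2_dbl hz h2z
  have hc := weq z hz
  rw [h0] at hc
  have h4 : 4 * xw z ^ 3 = -1 := by linear_combination -hc
  have h5 : xw z * 9 = 0 := by
    linear_combination 4 * hd + (xw z - 4 * xw (z + z)) * h4
  have h6 : xw z = 0 := (mul_eq_zero.1 h5).resolve_right (by norm_num)
  rw [h6] at h4
  norm_num at h4

theorem u3c_OT2 {z : ℂ} (hz : OT z) {m : Eis} (hm : emb m * z ∈ Set.range emb) (hm2 : IsCoprime m 2) :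
    OT (z + z) ∧ emb m * (z + z) ∈ Set.range emb := by
  obtain ⟨h2z, hm2z⟩ := u3c_nl2 hz.1 hm hm2
  obtain ⟨h1, n, hn, a, ha⟩ := hz
  exact ⟨⟨h2z, n, hn, a + a, by rw [map_add, ha, mul_add]⟩, hm2z⟩

theorem u3c_step (hB : B.valuation 3 < 1) {z : ℂ} (hz : OT z) (h0 : yw z ≠ 0)
    (hlt : B.valuation (Tm z) ^ 2 < B.valuation (emb la)) :
    B.valuation (Tm (emb la * z)) < B.valuation (Tm z) := by
  have hL := CUL.w_la B hB
  have hL1 := CUL.w_la_lt B hB
  have hT1 := JGL.T_lt B hB hz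
  have hth := JGL.T_th_ne
  have hL0 : 0 < B.valuation (emb la) := by
    rw [zero_lt_iff, Valuation.ne_zero_iff]
    exact CUL.la_ne
  have hT0 : 0 < B.valuation (Tm z) := by
    rw [zero_lt_iff, Valuation.ne_zero_iff]
    unfold Tm ym
    exact div_ne_zero (neg_ne_zero.2 h0) hth
  have vth : B.valuation th = B.valuation (emb la) := by
    rw [JGL.th_eq, map_mul, CUL.w_w, one_mul]
  have h1 : B.valuation (1 + 3 * Tm z ^ 2) = 1 := by
    have h2 : B.valuation (3 * Tm z ^ 2) < 1 := by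
      rw [map_mul, map_pow]
      calc B.valuation 3 * B.valuation (Tm z) ^ 2 ≤ B.valuation 3 * 1 :=
            mul_le_mul' le_rfl (pow_le_one₀ zero_le hT1.le)
        _ = B.valuation 3 := mul_one _
        _ < 1 := hB
    rw [Valuation.map_add_eq_of_lt_left _ (by rwa [map_one]), map_one]
  have h3 : B.valuation (Tm z ^ 2 + 3) < B.valuation (emb la) := by
    refine lt_of_le_of_lt (B.valuation.map_add _ _) (max_lt (by rwa [map_pow]) ?_)
    rw [← hL, pow_two]
    calc B.valuation (emb la) * B.valuation (emb la) < 1 * B.valuation (emb la) :=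
          (mul_lt_mul_iff_left₀ hL0).2 hL1
      _ = _ := one_mul _
  have h4 := congrArg B.valuation (JGL.Tm_la hz)
  rw [show Tm z ^ 3 + 3 * Tm z = Tm z * (Tm z ^ 2 + 3) by ring, map_mul, map_mul, map_mul, h1, mul_one,
    Valuation.map_neg, vth] at h4
  have h5 : B.valuation (emb la) * B.valuation (Tm (emb la * z)) < B.valuation (emb la) * B.valuation (Tm z) := by
    rw [h4, mul_comm (B.valuation (emb la))]
    exact (mul_lt_mul_iff_right₀ hT0).2 h3
  exact (mul_lt_mul_iff_right₀ hL0).1 h5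

theorem u3c_T (hB : B.valuation 3 < 1) {z : ℂ} (hz : OT z) {m : Eis} (hm : emb m * z ∈ Set.range emb)
    (hm2 : IsCoprime m 2) : B.valuation (Tm z) ^ 2 = B.valuation (emb la) := by
  refine le_antisymm (JGL.Tm_val B hB hz) ?_
  by_contra hcon
  push Not at hcon
  have hOT : ∀ k : ℕ, OT (emb la ^ k * z) := fun k => CUL.OT.la_mul hz k
  have hmk : ∀ k : ℕ, emb m * (emb la ^ k * z) ∈ Set.range emb := by
    intro k
    obtain ⟨a, ha⟩ := hm
    exact ⟨la ^ k * a, by rw [map_mul, map_pow, ha]; ring⟩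
  have hy0 : ∀ k : ℕ, yw (emb la ^ k * z) ≠ 0 := fun k =>
    u3c_y_ne (hOT k).1 (u3c_nl2 (hOT k).1 (hmk k) hm2).1
  have hsucc : ∀ k : ℕ, emb la ^ (k + 1) * z = emb la * (emb la ^ k * z) := by
    intro k
    rw [pow_succ]
    ring
  have hst : ∀ k : ℕ, B.valuation (Tm (emb la ^ k * z)) ^ 2 < B.valuation (emb la) →
      B.valuation (Tm (emb la ^ (k + 1) * z)) < B.valuation (Tm (emb la ^ k * z)) := by
    intro k hk
    rw [hsucc k]
    exact u3c_step hB (hOT k) (hy0 k) hk
  have hsm : ∀ k : ℕ, B.valuation (Tm (emb la ^ k * z)) ^ 2 < B.valuation (emb la) := by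
    intro k
    induction k with
    | zero => rwa [pow_zero, one_mul]
    | succ k ih => exact lt_of_le_of_lt (pow_le_pow_left' (hst k ih).le 2) ih
  have hanti : StrictAnti fun k : ℕ => B.valuation (Tm (emb la ^ k * z)) :=
    strictAnti_nat_of_succ_lt fun k => hst k (hsm k)
  obtain ⟨n, hn, a, ha⟩ := CUL.OT.exists_pow hz
  have h1 : B.valuation (Tm (emb la ^ n * z)) < B.valuation (Tm (emb la ^ 0 * z)) := hanti hn
  have h2 : emb la ^ n * z = z + emb a := by rw [ha]; ring
  have h3 : Tm (emb la ^ n * z) = Tm (emb la ^ 0 * z) := by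
    rw [h2, pow_zero, one_mul]
    unfold Tm ym
    rw [yw_add]
  rw [h3] at h1
  exact lt_irrefl _ h1

theorem u3c_y (hB : B.valuation 3 < 1) {z : ℂ} (hz : OT z) {m : Eis} (hm : emb m * z ∈ Set.range emb)
    (hml : ¬ la ∣ m) (hm2 : IsCoprime m 2) : B.valuation (yw z) ^ 4 = B.valuation 3 ^ 3 := by
  have h1 := u3c_T hB hz hm hm2
  have hL := CUL.w_la B hB
  have vth : B.valuation th = B.valuation (emb la) := by
    rw [JGL.th_eq, map_mul, CUL.w_w, one_mul]
  have h2 : yw z = -(th * Tm z) := by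
    unfold Tm ym
    rw [mul_div_cancel₀ _ JGL.T_th_ne, neg_neg]
  rw [h2, Valuation.map_neg, map_mul, vth, ← hL]
  calc (B.valuation (emb la) * B.valuation (Tm z)) ^ 4
      = B.valuation (emb la) ^ 4 * (B.valuation (Tm z) ^ 2) ^ 2 := by
        rw [mul_pow, ← pow_mul]
    _ = (B.valuation (emb la) ^ 2) ^ 3 := by
        rw [h1, ← pow_add, ← pow_mul]

theorem u3c_fac {X y e : ℂ} (hc : y ^ 2 = 4 * X ^ 3 + 1) (he : e ^ 3 = -1 / 4) :
    y ^ 2 = 4 * ((X - e) * ((X - w * e) * (X - w ^ 2 * e))) := by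
  have h2 := CUL.w2
  have h3 := CUL.w3
  linear_combination hc + (4 * X ^ 2 * e - 4 * X * e ^ 2) * h2 + (4 * e ^ 3 - 4 * X * e ^ 2) * h3 + 4 * he

theorem u3c_h (hB : B.valuation 3 < 1) {z : ℂ} (hz : OT z) {m : Eis} (hm : emb m * z ∈ Set.range emb)
    (hml : ¬ la ∣ m) (hm2 : IsCoprime m 2) : B.valuation (hT z) ^ 4 = B.valuation 3 := by
  obtain ⟨hz2, hm2z⟩ := u3c_OT2 hz hm hm2
  have hy := u3c_y hB hz2 hm2z hml hm2
  have hy0 := u3c_y_ne hz.1 hz2.1
  have hL := CUL.w_la B hB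
  have hL0 : 0 < B.valuation (emb la) := by
    rw [zero_lt_iff, Valuation.ne_zero_iff]
    exact CUL.la_ne
  have v4 := JL.a1_four B hB
  have hww : B.valuation w = 1 := CUL.w_w B
  have ve : B.valuation eh = 1 := by
    refine JL.a1_r B hB ?_
    rw [eh_cube]
    norm_num
  have hfac := u3c_fac (weq _ hz2.1) eh_cube
  have hw2 := CUL.w2
  have hw3 := CUL.w3
  have w1 : B.valuation (1 - w) = B.valuation (emb la) := by rw [CUL.emb_la]
  have d1 : B.valuation ((1 - w) * eh) = B.valuation (emb la) := by rw [map_mul, w1, ve, mul_one]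
  have d2 : B.valuation ((1 - w ^ 2) * eh) = B.valuation (emb la) := by
    have e : (1 - w ^ 2) * eh = -(w ^ 2 * ((1 - w) * eh)) := by
      linear_combination (eh : ℂ) * hw2 - (eh : ℂ) * hw3 - (eh : ℂ) * hw2
    rw [e, Valuation.map_neg, map_mul, map_pow, hww, one_pow, one_mul, d1]
  have e1 : xw (z + z) - w * eh = (xw (z + z) - eh) + (1 - w) * eh := by ring
  have e2 : xw (z + z) - w ^ 2 * eh = (xw (z + z) - eh) + (1 - w ^ 2) * eh := by ring
  have h1 : (B.valuation (xw (z + z) - eh) * (B.valuation (xw (z + z) - w * eh) *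
      B.valuation (xw (z + z) - w ^ 2 * eh))) = B.valuation (emb la) ^ 3 := by
    have h2 := congrArg B.valuation hfac
    rw [map_pow, map_mul, v4, one_mul, map_mul, map_mul] at h2
    have h3 : (B.valuation (xw (z + z) - eh) * (B.valuation (xw (z + z) - w * eh) *
      B.valuation (xw (z + z) - w ^ 2 * eh))) ^ 2 = (B.valuation (emb la) ^ 3) ^ 2 := by
      rw [← h2, ← pow_mul, hy, ← hL, ← pow_mul, ← pow_mul]
    exact (pow_left_inj₀ zero_le zero_le (by norm_num)).1 h3
  have h2 : B.valuation (xw (z + z) - eh) = B.valuation (emb la) := by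
    rcases lt_trichotomy (B.valuation (xw (z + z) - eh)) (B.valuation (emb la)) with h | h | h
    · exfalso
      rw [e1, e2, Valuation.map_add_eq_of_lt_right _ (by rwa [d1]),
        Valuation.map_add_eq_of_lt_right _ (by rwa [d2]), d1, d2] at h1
      have h3 : B.valuation (xw (z + z) - eh) * (B.valuation (emb la) * B.valuation (emb la)) <
          B.valuation (emb la) ^ 3 := by
        rw [pow_succ', pow_two]
        exact (mul_lt_mul_iff_left₀ (mul_pos hL0 hL0)).2 h
      exact absurd h1 (ne_of_lt h3)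
    · exact h
    · exfalso
      rw [e1, e2, Valuation.map_add_eq_of_lt_left _ (by rwa [d1]),
        Valuation.map_add_eq_of_lt_left _ (by rwa [d2])] at h1
      have h3 : B.valuation (emb la) ^ 3 < B.valuation (xw (z + z) - eh) ^ 3 :=
        pow_lt_pow_left₀ h zero_le (by norm_num)
      rw [← h1, pow_succ', pow_two] at h3
      exact absurd h3 (lt_irrefl _)
  have h3 : B.valuation (hT z) ^ 2 = B.valuation (emb la) := by
    rw [← map_pow, u3c_hsq hz.1 hz2.1 hy0, h2]
  calc B.valuation (hT z) ^ 4 = (B.valuation (hT z) ^ 2) ^ 2 := by rw [← pow_mul]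
    _ = B.valuation 3 := by rw [h3, hL]

end J2E
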