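import Pool.Agent.J2E.Defs
import Pool.Agent.JL.I4

/-!
# [J2E-U4a] one prime over `p`: the ramified case

PROOF. `CF.KK` is the set of `emb a / emb b` (`CUL.mem_KK`, or `JL`); the valuation of an element of `ℚ(ω)*` is an integral power of `B.valuation (emb p)` (`a = p^n a'`, `p ∤ a'`: `B.valuation (emb a') = 1`, `JZ.i2_unit`). `t³ = emb c'` times.. with `B.valuation t ^ 3 = B.valuation (emb p) ^ v`, `3 ∤ v`:
the non zero ones of `u₀, u₁ t, u₂ t²` have different valuations (`|t|^j ∈ |p|^ℤ` for `j = 1, 2` would give, with `|t|³ = |p|^v`, `3 ∣ v`; `|p| < 1` has infinite order). So `|u₀ + u₁ t' + u₂ t'²| = max(|u₀|, |u₁| |t|, |u₂| |t|²)` for every `t'` with `|t'| = |t|`.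
-/

set_option autoImplicit false

open MeasureTheory Set Filter Topology
open scoped Classical ComplexConjugate

namespace J2E

open CM27 JZ
open CU (la eE)
open CUL (Nl ta rp IsRep zw GalU)
open JGL (GalP)

variable {B : ValuationSubring ℂ}

theorem U4a_repr {u : ℂ} (hu : u ∈ CF.KK) : ∃ b a : Eis, b ≠ 0 ∧ emb b * u = emb a := by
  obtain ⟨x, y, rfl⟩ := (CUL.mem_KK u).1 hu
  refine ⟨((x.den * y.den : ℕ) : Eis), ⟨x.num * y.den, y.num * x.den⟩, ?_, ?_⟩
  · intro h0
    have h1 := congrArg emb h0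
    rw [map_natCast, map_zero] at h1
    have h2 : x.den * y.den = 0 := by exact_mod_cast h1
    exact mul_ne_zero x.den_nz y.den_nz h2
  · rw [map_natCast, emb_apply]
    have hx : (x : ℂ) * x.den = x.num := by exact_mod_cast Rat.mul_den_eq_num x
    have hy : (y : ℂ) * y.den = y.num := by exact_mod_cast Rat.mul_den_eq_num y
    push_cast
    rw [← hx, ← hy]
    ring

theorem U4a_emb_ne {a : Eis} (ha : a ≠ 0) : emb a ≠ 0 := by
  rw [Ne, ← map_zero emb, emb_injective.eq_iff]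
  exact ha

theorem U4a_unit {p : Eis} (hp : Prime p) (hB : B.valuation (emb p) < 1) {a : Eis} (ha : ¬ p ∣ a) :
    B.valuation (emb a) = 1 := by
  have := eis_isDomain
  have := eis_pid
  exact i2_unit hB (((hp.irreducible.coprime_iff_not_dvd).2 ha).symm)

theorem U4a_emb_val {p : Eis} (hp : Prime p) (hB : B.valuation (emb p) < 1) {a : Eis} (ha : a ≠ 0) :
    ∃ n : ℕ, B.valuation (emb a) = B.valuation (emb p) ^ n := by
  have := eis_isDomain
  have := eis_pid
  obtain ⟨b, hb, hnb⟩ := (FiniteMultiplicity.of_prime_left hp ha).exists_eq_pow_mul_and_not_dvd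
  refine ⟨multiplicity p a, ?_⟩
  have h1 := congrArg (fun z => B.valuation (emb z)) hb
  simp only [map_mul, map_pow] at h1
  rw [h1, U4a_unit hp hB hnb, mul_one]

theorem U4a_pos {p : Eis} (hp : Prime p) : 0 < B.valuation (emb p) := by
  rw [zero_lt_iff, Ne, map_eq_zero]
  exact U4a_emb_ne hp.ne_zero

/-- the valuations of the elements of `ℚ(ω)` -/
theorem KK_val {p : Eis} (hp : Prime p) (hB : B.valuation (emb p) < 1) {u : ℂ} (hu : u ∈ CF.KK) (hu0 : u ≠ 0) :
    ∃ n : ℤ, B.valuation u = B.valuation (emb p) ^ n := by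
  obtain ⟨b, a, hb, hab⟩ := U4a_repr hu
  have hbC := U4a_emb_ne hb
  have ha : a ≠ 0 := by
    rintro rfl
    rw [map_zero] at hab
    rcases mul_eq_zero.1 hab with h | h
    · exact hbC h
    · exact hu0 h
  obtain ⟨n, hn⟩ := U4a_emb_val hp hB ha
  obtain ⟨m, hm⟩ := U4a_emb_val hp hB hb
  refine ⟨(n : ℤ) - m, ?_⟩
  have hu' : u = emb a / emb b := by rw [← hab]; field_simp
  have h0 := (U4a_pos (B := B) hp).ne'
  rw [hu', map_div₀, hn, hm, zpow_sub₀ h0, zpow_natCast, zpow_natCast]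

theorem U4a_max {x y : ℂ} (h : x ≠ 0 → y ≠ 0 → B.valuation x ≠ B.valuation y) :
    B.valuation (x + y) = max (B.valuation x) (B.valuation y) := by
  by_cases hx : x = 0
  · subst hx; simp
  by_cases hy : y = 0
  · subst hy; simp
  exact B.valuation.map_add_of_distinct_val (h hx hy)

theorem U4a_max3 {x y z : ℂ} (h1 : x ≠ 0 → y ≠ 0 → B.valuation x ≠ B.valuation y)
    (h2 : x ≠ 0 → z ≠ 0 → B.valuation x ≠ B.valuation z)
    (h3 : y ≠ 0 → z ≠ 0 → B.valuation y ≠ B.valuation z) :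
    B.valuation (x + y + z) = max (B.valuation x) (max (B.valuation y) (B.valuation z)) := by
  have e := U4a_max h3
  rw [add_assoc, U4a_max (x := x) (y := y + z), e]
  intro hx hyz
  have h0 : B.valuation (y + z) ≠ 0 := (Valuation.ne_zero_iff _).mpr hyz
  rw [e] at h0 ⊢
  rcases max_cases (B.valuation y) (B.valuation z) with ⟨h4, -⟩ | ⟨h4, -⟩
  · rw [h4] at h0 ⊢
    exact h1 hx ((Valuation.ne_zero_iff _).mp h0)
  · rw [h4] at h0 ⊢
    exact h2 hx ((Valuation.ne_zero_iff _).mp h0)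

/-- totally ramified -/
theorem ram_val {p : Eis} (hp : Prime p) (hB : B.valuation (emb p) < 1) {t : ℂ} {v : ℕ} (hv : ¬ 3 ∣ v)
    (ht : B.valuation t ^ 3 = B.valuation (emb p) ^ v) {u₀ u₁ u₂ : ℂ} (h0 : u₀ ∈ CF.KK) (h1 : u₁ ∈ CF.KK) (h2 : u₂ ∈ CF.KK) :
    B.valuation (u₀ + u₁ * t + u₂ * t ^ 2) =
      max (B.valuation u₀) (max (B.valuation u₁ * B.valuation t) (B.valuation u₂ * B.valuation t ^ 2)) := by
  have hP0 := U4a_pos (B := B) hp
  have hinj : ∀ a b : ℤ, B.valuation (emb p) ^ a = B.valuation (emb p) ^ b → a = b := by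
    intro a b hab
    exact zpow_right_injective₀ hP0 hB.ne hab
  -- the general comparison
  have key : ∀ {x y : ℂ}, x ∈ CF.KK → y ∈ CF.KK → x ≠ 0 → y ≠ 0 → ∀ i j : ℕ, i < 3 → j < 3 → i ≠ j →
      B.valuation (x * t ^ i) ≠ B.valuation (y * t ^ j) := by
    intro x y hx hy hx0 hy0 i j hi hj hij he
    obtain ⟨n, hn⟩ := KK_val hp hB hx hx0
    obtain ⟨m, hm⟩ := KK_val hp hB hy hy0
    rw [map_mul, map_mul, map_pow, map_pow, hn, hm] at he
    have h3 := congrArg (fun z => z ^ 3) he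
    simp only [mul_pow] at h3
    rw [← pow_mul, ← pow_mul, mul_comm i 3, mul_comm j 3, pow_mul, pow_mul, ht, ← pow_mul, ← pow_mul,
      ← zpow_natCast, ← zpow_natCast, ← zpow_natCast, ← zpow_natCast, ← zpow_mul, ← zpow_mul,
      ← zpow_add₀ hP0.ne', ← zpow_add₀ hP0.ne'] at h3
    have h4 := hinj _ _ h3
    push_cast at h4
    have h5 : ¬ (3 : ℤ) ∣ v := by
      intro h; exact hv (by exact_mod_cast h)
    apply h5
    interval_cases i <;> interval_cases j <;> simp at hij <;> omega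
  have e1 : u₀ = u₀ * t ^ 0 := by ring
  have e2 : u₁ * t = u₁ * t ^ 1 := by ring
  have hn : ∀ {x y : ℂ}, x * y ≠ 0 → x ≠ 0 := fun h h' => h (by rw [h', zero_mul])
  have := U4a_max3 (B := B) (x := u₀) (y := u₁ * t) (z := u₂ * t ^ 2) ?_ ?_ ?_
  · rw [this, map_mul, map_mul, map_pow]
  · intro k1 k2
    have := key h0 h1 k1 (hn k2) 0 1 (by norm_num) (by norm_num) (by norm_num)
    rwa [← e1, ← e2] at this
  · intro k1 k2
    have := key h0 h2 k1 (hn k2) 0 2 (by norm_num) (by norm_num) (by norm_num)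
    rwa [← e1] at this
  · intro k1 k2
    have := key h1 h2 (hn k1) (hn k2) 1 2 (by norm_num) (by norm_num) (by norm_num)
    rwa [← e2] at this

end J2E
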