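import Pool.Agent.J2E.U4a

/-!
# [J2E-U4b] one prime over `p`: the inert case

PROOF. `t` is a root of the monic cubic `X³ + a X² + b X + c` (`a, b, c ∈ ℤ[ω]`) which has no root modulo `p`. Claim: `|u₀ + u₁ t + u₂ t²| = max |u_i|`. If all `u_i = 0`: clear. Otherwise divide by the `u_i` of maximal valuation: all `|u_i| ≤ 1`, one of them `= 1`, so
(`KK_val`: `|u| ≤ 1` means `u = emb a / emb b` with `p ∤ b`; modulo the maximal ideal of `B` it is the image of an element of `ℤ[ω]`) we may take `u_i = emb a_i`, not all divisible by `p` (`|emb a| < 1` iff `p ∣ a`). Suppose `|u₀ + u₁ t + u₂ t²| < 1`. The residue `t̄` in the residue field of `B`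
is a root of the image of the cubic, which is irreducible over `k = ℤ[ω]/p` (a field; degree three without root: `Polynomial.Monic.irreducible_iff_roots_eq_zero_of_degree_le_three` or similar), so it is the minimal polynomial of `t̄` over `k` and does not divide the nonzero polynomial `a₂ X² + a₁ X + a₀` of degree `≤ 2`, contradiction.
Alternatively by hand: a common root of a cubic `g` and a polynomial of degree `≤ 2` over `k` (gcd is a divisor of `g` of degree `1` or `2`, so `g` has a root in `k`).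
-/

set_option autoImplicit false

open MeasureTheory Set Filter Topology
open scoped Classical ComplexConjugate

namespace J2E

open CM27 JZ
open CU (la eE)
open CUL (Nl ta rp IsRep zw GalU)
open JGL (GalP)

variable {B : ValuationSubring ℂ}

theorem U4b_int {t : ℂ} {a b c : Eis} (ht : t ^ 3 + emb a * t ^ 2 + emb b * t + emb c = 0) :
    B.valuation t ≤ 1 := by
  by_contra h
  push Not at h
  have h1 : t ^ 3 = -(emb a * t ^ 2 + emb b * t + emb c) := by linear_combination ht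
  have h2 : B.valuation (emb a * t ^ 2 + emb b * t + emb c) ≤ B.valuation t ^ 2 := by
    have hle : ∀ x : Eis, B.valuation (emb x) ≤ 1 := fun x => i2_emb_le x
    have k1 : (1 : B.ValueGroup) ≤ B.valuation t := h.le
    refine (B.valuation.map_add _ _).trans (max_le ((B.valuation.map_add _ _).trans (max_le ?_ ?_)) ?_)
    · rw [map_mul, map_pow]
      calc B.valuation (emb a) * B.valuation t ^ 2 ≤ 1 * B.valuation t ^ 2 := mul_le_mul' (hle a) le_rfl
        _ = _ := one_mul _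
    · rw [map_mul, pow_two]
      exact mul_le_mul' ((hle b).trans k1) le_rfl
    · exact (hle c).trans (one_le_pow₀ k1)
  have h3 : B.valuation t ^ 3 ≤ B.valuation t ^ 2 := by
    rw [← map_pow, h1, Valuation.map_neg]
    exact h2
  have h4 : B.valuation t ^ 2 < B.valuation t ^ 3 := pow_lt_pow_right₀ h (by norm_num)
  exact absurd h3 (not_le.mpr h4)

/-- the residue map on `ℤ[ω]` -/
noncomputable def U4b_phi (B : ValuationSubring ℂ) : Eis →+* IsLocalRing.ResidueField B :=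
  (IsLocalRing.residue B).comp
    (emb.codRestrict B.toSubring fun x => (B.valuation_le_one_iff _).1 (i2_emb_le x))

theorem U4b_res {z : B} : IsLocalRing.residue B z = 0 ↔ B.valuation (z : ℂ) < 1 := by
  rw [IsLocalRing.residue_eq_zero_iff, B.valuation_lt_one_iff]

theorem U4b_core {p : Eis} (hp : Prime p) (hB : B.valuation (emb p) < 1) {t : ℂ} {a b c : Eis}
    (ht : t ^ 3 + emb a * t ^ 2 + emb b * t + emb c = 0) (hno : ∀ x : Eis, ¬ p ∣ x ^ 3 + a * x ^ 2 + b * x + c)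
    {a₀ a₁ a₂ : Eis} (h : ¬ (p ∣ a₀ ∧ p ∣ a₁ ∧ p ∣ a₂)) :
    B.valuation (emb a₀ + emb a₁ * t + emb a₂ * t ^ 2) = 1 := by
  have := eis_isDomain
  have := eis_pid
  have ht1 : B.valuation t ≤ 1 := U4b_int ht
  let tB : B := ⟨t, (B.valuation_le_one_iff _).1 ht1⟩
  let φ := U4b_phi B
  have hφp : φ p = 0 := U4b_res.2 hB
  let I : Ideal Eis := Ideal.span {p}
  have hIp : I.IsPrime := (Ideal.span_singleton_prime hp.ne_zero).2 hp
  have hI0 : I ≠ ⊥ := by
    intro h0
    exact hp.ne_zero (Ideal.span_singleton_eq_bot.1 h0)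
  have hmax : I.IsMaximal := IsPrime.to_maximal_ideal hI0
  let _ : Field (Eis ⧸ I) := Ideal.Quotient.field I
  have hker : ∀ x ∈ I, φ x = 0 := by
    intro x hx
    obtain ⟨y, rfl⟩ := Ideal.mem_span_singleton.1 hx
    rw [map_mul, hφp, zero_mul]
  let ψ : (Eis ⧸ I) →+* IsLocalRing.ResidueField B := Ideal.Quotient.lift I φ hker
  have hψ : ∀ x : Eis, ψ (Ideal.Quotient.mk I x) = φ x := fun x => rfl
  let τ : IsLocalRing.ResidueField B := IsLocalRing.residue B tB
  let q := Ideal.Quotient.mk I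
  let g : Polynomial (Eis ⧸ I) := Polynomial.X ^ 3 + Polynomial.C (q a) * Polynomial.X ^ 2 +
    Polynomial.C (q b) * Polynomial.X + Polynomial.C (q c)
  let f : Polynomial (Eis ⧸ I) := Polynomial.C (q a₀) + Polynomial.C (q a₁) * Polynomial.X +
    Polynomial.C (q a₂) * Polynomial.X ^ 2
  have hgm : g.Monic := by
    have : g = Polynomial.X ^ 3 + (Polynomial.C (q a) * Polynomial.X ^ 2 +
      Polynomial.C (q b) * Polynomial.X + Polynomial.C (q c)) := by ring
    rw [this]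
    apply Polynomial.monic_X_pow_add
    refine lt_of_le_of_lt (Polynomial.degree_quadratic_le) ?_
    decide
  have hgd : g.natDegree = 3 := by
    have : g = Polynomial.C 1 * Polynomial.X ^ 3 + Polynomial.C (q a) * Polynomial.X ^ 2 +
      Polynomial.C (q b) * Polynomial.X + Polynomial.C (q c) := by
      rw [Polynomial.C_1, one_mul]
    rw [this]
    exact Polynomial.natDegree_cubic one_ne_zero
  have hgi : Irreducible g := by
    rw [hgm.irreducible_iff_roots_eq_zero_of_degree_le_three (by omega) (by omega)]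
    rw [Multiset.eq_zero_iff_forall_notMem]
    intro x hx
    rw [Polynomial.mem_roots hgm.ne_zero] at hx
    obtain ⟨y, rfl⟩ := Ideal.Quotient.mk_surjective x
    apply hno y
    rw [← Ideal.mem_span_singleton, ← Ideal.Quotient.eq_zero_iff_mem]
    have h1 : Polynomial.eval (Ideal.Quotient.mk I y) g = 0 := hx
    simp only [g, Polynomial.eval_add, Polynomial.eval_mul, Polynomial.eval_pow, Polynomial.eval_X,
      Polynomial.eval_C] at h1
    rw [map_add, map_add, map_add, map_mul, map_mul, map_pow, map_pow]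
    exact h1
  have hg0 : Polynomial.eval₂ ψ τ g = 0 := by
    simp only [g, Polynomial.eval₂_add, Polynomial.eval₂_mul, Polynomial.eval₂_pow, Polynomial.eval₂_X,
      Polynomial.eval₂_C]
    have h1 : τ ^ 3 + φ a * τ ^ 2 + φ b * τ + φ c = IsLocalRing.residue B
      (tB ^ 3 + ⟨emb a, (B.valuation_le_one_iff _).1 (i2_emb_le a)⟩ * tB ^ 2 +
        ⟨emb b, (B.valuation_le_one_iff _).1 (i2_emb_le b)⟩ * tB +
        ⟨emb c, (B.valuation_le_one_iff _).1 (i2_emb_le c)⟩) := by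
      rw [map_add, map_add, map_add, map_mul, map_mul, map_pow, map_pow]
      rfl
    have h2 : (tB ^ 3 + ⟨emb a, (B.valuation_le_one_iff _).1 (i2_emb_le a)⟩ * tB ^ 2 +
        ⟨emb b, (B.valuation_le_one_iff _).1 (i2_emb_le b)⟩ * tB +
        ⟨emb c, (B.valuation_le_one_iff _).1 (i2_emb_le c)⟩ : B) = 0 := by
      apply Subtype.ext
      exact ht
    rw [h2, map_zero] at h1
    exact h1
  refine le_antisymm ?_ ?_
  · refine (B.valuation.map_add _ _).trans (max_le ((B.valuation.map_add _ _).trans (max_le ?_ ?_)) ?_)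
    · exact i2_emb_le _
    · rw [map_mul]
      exact mul_le_one' (i2_emb_le _) ht1
    · rw [map_mul, map_pow]
      exact mul_le_one' (i2_emb_le _) (pow_le_one' ht1 2)
  · by_contra hlt
    push Not at hlt
    have hf0 : Polynomial.eval₂ ψ τ f = 0 := by
      simp only [f, Polynomial.eval₂_add, Polynomial.eval₂_mul, Polynomial.eval₂_pow, Polynomial.eval₂_X,
        Polynomial.eval₂_C]
      have h1 : φ a₀ + φ a₁ * τ + φ a₂ * τ ^ 2 = IsLocalRing.residue B
        (⟨emb a₀, (B.valuation_le_one_iff _).1 (i2_emb_le a₀)⟩ +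
          ⟨emb a₁, (B.valuation_le_one_iff _).1 (i2_emb_le a₁)⟩ * tB +
          ⟨emb a₂, (B.valuation_le_one_iff _).1 (i2_emb_le a₂)⟩ * tB ^ 2) := by
        rw [map_add, map_add, map_mul, map_mul, map_pow]
        rfl
      have h2 : IsLocalRing.residue B
        (⟨emb a₀, (B.valuation_le_one_iff _).1 (i2_emb_le a₀)⟩ +
          ⟨emb a₁, (B.valuation_le_one_iff _).1 (i2_emb_le a₁)⟩ * tB +
          ⟨emb a₂, (B.valuation_le_one_iff _).1 (i2_emb_le a₂)⟩ * tB ^ 2) = 0 := U4b_res.2 hlt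
      rw [h2] at h1
      exact h1
    have hfne : f ≠ 0 := by
      intro h0
      apply h
      have hc : ∀ n, f.coeff n = 0 := fun n => by rw [h0, Polynomial.coeff_zero]
      have e0 : q a₀ = 0 := by
        have := hc 0
        simpa [f, Polynomial.coeff_X, Polynomial.coeff_C, Polynomial.coeff_X_pow] using this
      have e1 : q a₁ = 0 := by
        have := hc 1
        simpa [f, Polynomial.coeff_X, Polynomial.coeff_C, Polynomial.coeff_X_pow] using this
      have e2 : q a₂ = 0 := by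
        have := hc 2
        simpa [f, Polynomial.coeff_X, Polynomial.coeff_C, Polynomial.coeff_X_pow] using this
      refine ⟨?_, ?_, ?_⟩
      · exact Ideal.mem_span_singleton.1 (Ideal.Quotient.eq_zero_iff_mem.1 e0)
      · exact Ideal.mem_span_singleton.1 (Ideal.Quotient.eq_zero_iff_mem.1 e1)
      · exact Ideal.mem_span_singleton.1 (Ideal.Quotient.eq_zero_iff_mem.1 e2)
    have hfd : f.natDegree < g.natDegree := by
      rw [hgd]
      have : f = Polynomial.C (q a₂) * Polynomial.X ^ 2 + Polynomial.C (q a₁) * Polynomial.X +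
        Polynomial.C (q a₀) := by ring
      rw [this]
      exact lt_of_le_of_lt Polynomial.natDegree_quadratic_le (by norm_num)
    have hnd : ¬ g ∣ f := Polynomial.not_dvd_of_natDegree_lt hfne hfd
    have hco : IsCoprime g f := (hgi.coprime_iff_not_dvd).2 hnd
    obtain ⟨r, s, hrs⟩ := hco
    have h1 := congrArg (Polynomial.eval₂ ψ τ) hrs
    rw [Polynomial.eval₂_add, Polynomial.eval₂_mul, Polynomial.eval₂_mul, hg0, hf0, mul_zero, mul_zero,
      add_zero, Polynomial.eval₂_one] at h1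
    exact zero_ne_one h1

/-- common denominator, and one numerator is not divisible by `p` -/
theorem U4b_common {p : Eis} (hp : Prime p) {u₀ u₁ u₂ : ℂ} (h0 : u₀ ∈ CF.KK) (h1 : u₁ ∈ CF.KK) (h2 : u₂ ∈ CF.KK)
    (hne : ¬ (u₀ = 0 ∧ u₁ = 0 ∧ u₂ = 0)) :
    ∃ (l : ℂ) (a₀ a₁ a₂ : Eis), u₀ = l * emb a₀ ∧ u₁ = l * emb a₁ ∧ u₂ = l * emb a₂ ∧
      ¬ (p ∣ a₀ ∧ p ∣ a₁ ∧ p ∣ a₂) := by
  have := eis_isDomain
  have := eis_pid
  obtain ⟨b₀, c₀, hb₀, e₀⟩ := U4a_repr h0
  obtain ⟨b₁, c₁, hb₁, e₁⟩ := U4a_repr h1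
  obtain ⟨b₂, c₂, hb₂, e₂⟩ := U4a_repr h2
  have hb : b₀ * b₁ * b₂ ≠ 0 := mul_ne_zero (mul_ne_zero hb₀ hb₁) hb₂
  -- descent on the power of p
  have key : ∀ n : ℕ, ∀ (l : ℂ) (a₀ a₁ a₂ : Eis), u₀ = l * emb a₀ → u₁ = l * emb a₁ → u₂ = l * emb a₂ →
      (¬ (p ^ n ∣ a₀ ∧ p ^ n ∣ a₁ ∧ p ^ n ∣ a₂)) →
      ∃ (l : ℂ) (a₀ a₁ a₂ : Eis), u₀ = l * emb a₀ ∧ u₁ = l * emb a₁ ∧ u₂ = l * emb a₂ ∧
        ¬ (p ∣ a₀ ∧ p ∣ a₁ ∧ p ∣ a₂) := by
    intro n
    induction n with
    | zero =>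
      intro l a₀ a₁ a₂ _ _ _ h
      exact absurd ⟨by simp, by simp, by simp⟩ h
    | succ n ih =>
      intro l a₀ a₁ a₂ k₀ k₁ k₂ h
      by_cases hd : p ∣ a₀ ∧ p ∣ a₁ ∧ p ∣ a₂
      · obtain ⟨⟨d₀, rfl⟩, ⟨d₁, rfl⟩, ⟨d₂, rfl⟩⟩ := hd
        refine ih (l * emb p) d₀ d₁ d₂ ?_ ?_ ?_ ?_
        · rw [k₀, map_mul, mul_assoc]
        · rw [k₁, map_mul, mul_assoc]
        · rw [k₂, map_mul, mul_assoc]
        · rintro ⟨m₀, m₁, m₂⟩
          apply h
          rw [pow_succ']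
          exact ⟨mul_dvd_mul_left _ m₀, mul_dvd_mul_left _ m₁, mul_dvd_mul_left _ m₂⟩
      · exact ⟨l, a₀, a₁, a₂, k₀, k₁, k₂, hd⟩
  have hbC := U4a_emb_ne hb
  have f0 := U4a_emb_ne hb₀
  have f1 := U4a_emb_ne hb₁
  have f2 := U4a_emb_ne hb₂
  have g0 : u₀ = emb c₀ / emb b₀ := by rw [← e₀]; field_simp
  have g1 : u₁ = emb c₁ / emb b₁ := by rw [← e₁]; field_simp
  have g2 : u₂ = emb c₂ / emb b₂ := by rw [← e₂]; field_simp
  have hex : ∃ n : ℕ, ¬ (p ^ n ∣ c₀ * (b₁ * b₂) ∧ p ^ n ∣ c₁ * (b₀ * b₂) ∧ p ^ n ∣ c₂ * (b₀ * b₁)) := by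
    have hfin : ∀ x : Eis, x ≠ 0 → ∃ n : ℕ, ¬ p ^ n ∣ x := by
      intro x hx
      obtain ⟨n, hn⟩ := FiniteMultiplicity.of_prime_left hp hx
      exact ⟨n + 1, hn⟩
    have hcn : ¬ (c₀ = 0 ∧ c₁ = 0 ∧ c₂ = 0) := by
      rintro ⟨rfl, rfl, rfl⟩
      apply hne
      refine ⟨?_, ?_, ?_⟩
      · rw [g0, map_zero, zero_div]
      · rw [g1, map_zero, zero_div]
      · rw [g2, map_zero, zero_div]
    by_cases z0 : c₀ = 0
    · by_cases z1 : c₁ = 0
      · have z2 : c₂ ≠ 0 := fun z2 => hcn ⟨z0, z1, z2⟩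
        obtain ⟨n, hn⟩ := hfin (c₂ * (b₀ * b₁)) (mul_ne_zero z2 (mul_ne_zero hb₀ hb₁))
        exact ⟨n, fun h => hn h.2.2⟩
      · obtain ⟨n, hn⟩ := hfin (c₁ * (b₀ * b₂)) (mul_ne_zero z1 (mul_ne_zero hb₀ hb₂))
        exact ⟨n, fun h => hn h.2.1⟩
    · obtain ⟨n, hn⟩ := hfin (c₀ * (b₁ * b₂)) (mul_ne_zero z0 (mul_ne_zero hb₁ hb₂))
      exact ⟨n, fun h => hn h.1⟩
  obtain ⟨n, hn⟩ := hex
  refine key n (emb (b₀ * b₁ * b₂))⁻¹ _ _ _ ?_ ?_ ?_ hn
  · rw [g0]; simp only [map_mul]; field_simp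
  · rw [g1]; simp only [map_mul]; field_simp
  · rw [g2]; simp only [map_mul]; field_simp

/-- inert -/
theorem inert_val {p : Eis} (hp : Prime p) (hB : B.valuation (emb p) < 1) {t : ℂ} {a b c : Eis}
    (ht : t ^ 3 + emb a * t ^ 2 + emb b * t + emb c = 0) (hno : ∀ x : Eis, ¬ p ∣ x ^ 3 + a * x ^ 2 + b * x + c)
    {u₀ u₁ u₂ : ℂ} (h0 : u₀ ∈ CF.KK) (h1 : u₁ ∈ CF.KK) (h2 : u₂ ∈ CF.KK) :
    B.valuation (u₀ + u₁ * t + u₂ * t ^ 2) = max (B.valuation u₀) (max (B.valuation u₁) (B.valuation u₂)) := by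
  by_cases hne : u₀ = 0 ∧ u₁ = 0 ∧ u₂ = 0
  · obtain ⟨rfl, rfl, rfl⟩ := hne
    simp
  obtain ⟨l, a₀, a₁, a₂, rfl, rfl, rfl, hd⟩ := U4b_common hp h0 h1 h2 hne
  have e : l * emb a₀ + l * emb a₁ * t + l * emb a₂ * t ^ 2 = l * (emb a₀ + emb a₁ * t + emb a₂ * t ^ 2) := by ring
  rw [e, map_mul, U4b_core hp hB ht hno hd, mul_one, map_mul, map_mul, map_mul]
  have hle : ∀ x : Eis, B.valuation l * B.valuation (emb x) ≤ B.valuation l := fun x =>
    (mul_le_mul' le_rfl (i2_emb_le x)).trans (mul_one _).le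
  have hun : ∀ x : Eis, ¬ p ∣ x → B.valuation l * B.valuation (emb x) = B.valuation l := fun x hx => by
    rw [U4a_unit hp hB hx, mul_one]
  refine le_antisymm ?_ (max_le (hle _) (max_le (hle _) (hle _)))
  by_cases d0 : p ∣ a₀
  · by_cases d1 : p ∣ a₁
    · have d2 : ¬ p ∣ a₂ := fun d2 => hd ⟨d0, d1, d2⟩
      rw [hun _ d2]
      exact le_max_of_le_right (le_max_right _ _)
    · rw [hun _ d1]
      exact le_max_of_le_right (le_max_left _ _)
  · rw [hun _ d0]
    exact le_max_left _ _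

end J2E
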