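import Pool.Agent.J2E.U4a
import Pool.Agent.J2E.U4b

/-!
# [J2E-U4c] one prime over `p`: assembly

PROOF. Let `Loc D p`, `s³ = D`, `z_i = u₀ + u₁ (w^i s) + u₂ (w^i s)²`. If `3 ∤ v_p(D)`: `ram_val` with `t = w^i s` (`|w| = 1`), the right side does not depend on `i`.
Otherwise `D = p^(3m) c`, `t = s/p^m`, `t³ = c`, `u_j s^j = (u_j p^(m j)) t^j`. If `c` is no cube modulo `p ∤ 3`: `inert_val` with `X³ - c`, roots `w^i t`.
`p ∣ 3`, so `p` is associated to `λ`, `c` prime to `λ`, `c ≢ ± 1 mod λ⁴`. Modulo `λ³ ` every `c` prime to `λ` is `η (1 + ..)`: let `η = ± 1` with `λ ∣ c - η`; replace `t` by `η t` (`(η t)³ = η c`, `η c ≡ 1 mod λ`), so `c = 1 + λ^n d`, `λ ∤ d`, `n = 1, 2, 3`. Put `r_i = w^i t - 1`: `r³ + 3 r² + 3 r = λ^n d`.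
`n = 1`: `|r|³ = |λ|`, `n = 2`: `|r|³ = |λ|²` (`|3| = |λ|²`; if `|r| ≥ ..` compare the terms: from `r³ = λ^n d - 3 r - 3 r²`, `|r| < 1` as `|r|³ ≤ max(|λ|^n, |λ|² |r|, |λ|² |r|²)`, then the term `λ^n d` dominates), so `ram_val` for `r_i`. `n = 3`: `r = λ q`, `q³ + (3/λ) q² + (3/λ²) q = d`, `3/λ² = -ω²`, `3/λ` divisible by `λ`:
`q_i` is a root of `X³ + (3/λ) X² - ω² X - d`, which is `≡ X³ - X - d mod λ` and has no root modulo `λ` (`x³ ≡ x`, `λ ∤ d`): `inert_val`.
`z_i = u₀ + u₁ t_i + u₂ t_i² = v₀ + v₁ r_i + v₂ r_i²` with `v_j ∈ ℚ(ω)` not depending on `i` (`t_i = 1 + r_i`).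
-/

set_option autoImplicit false

open MeasureTheory Set Filter Topology
open scoped Classical ComplexConjugate

namespace J2E

open CM27 JZ
open CU (la eE)
open CUL (Nl ta rp IsRep zw GalU)
open JGL (GalP)

variable {B : ValuationSubring ℂ}

theorem U4c_la_mod (x : Eis) : la ∣ x ∨ la ∣ x - 1 ∨ la ∣ x + 1 := by
  rw [CUL.la_dvd_iff, CUL.la_dvd_iff, CUL.la_dvd_iff]
  have h1 : (x - 1).re + (x - 1).im = x.re + x.im - 1 := by
    change x.re - 1 + (x.im - 0) = _
    ring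
  have h2 : (x + 1).re + (x + 1).im = x.re + x.im + 1 := by
    change x.re + 1 + (x.im + 0) = _
    ring
  rw [h1, h2]
  omega

/-- `3 = λ² (1 + ω)` -/
theorem U4c_three : (3 : Eis) = la ^ 2 * ⟨1, 1⟩ := by
  apply emb_injective
  rw [map_mul, map_ofNat, map_pow, CUL.la_sq, emb_apply]
  push_cast
  have hw := CUL.w2
  linear_combination 3 * hw

theorem U4c_root {d q : Eis} (hd : ¬ la ∣ d) : ¬ la ∣ q ^ 3 + la * ⟨1, 1⟩ * q ^ 2 + ⟨1, 1⟩ * q + -d := by
  intro h
  apply hd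
  have h1 : la ∣ (⟨1, 1⟩ : Eis) + 1 := by
    rw [CUL.la_dvd_iff]
    decide
  obtain ⟨e, he⟩ := h1
  have h2 : la ∣ q ^ 3 - q := by
    have h3 : q ^ 3 - q = q * (q - 1) * (q + 1) := by ring
    rw [h3]
    rcases U4c_la_mod q with h | h | h
    · exact (h.mul_right _).mul_right _
    · exact (h.mul_left _).mul_right _
    · exact h.mul_left _
  have h3 : d = (q ^ 3 - q) + la * (⟨1, 1⟩ * q ^ 2 + e * q) -
      (q ^ 3 + la * ⟨1, 1⟩ * q ^ 2 + ⟨1, 1⟩ * q + -d) := by
    linear_combination q * he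
  rw [h3]
  exact dvd_sub (dvd_add h2 (dvd_mul_right _ _)) h

/-- the value of `r`, `r³ + 3 r² + 3 r = λ^n d`, `n = 1, 2` -/
theorem U4c_r (hB : B.valuation (emb la) < 1) {r : ℂ} {n : ℕ} {d : Eis} (hn : n = 1 ∨ n = 2)
    (hd : B.valuation (emb d) = 1) (hr : r ^ 3 + 3 * r ^ 2 + 3 * r = emb la ^ n * emb d) :
    B.valuation r ^ 3 = B.valuation (emb la) ^ n := by
  have hL0 : 0 < B.valuation (emb la) := U4a_pos CUL.la_prime
  have hr1 : B.valuation r ≤ 1 := by
    refine U4b_int (a := 3) (b := 3) (c := -(la ^ n * d)) ?_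
    rw [map_neg, map_mul, map_pow, map_ofNat]
    linear_combination hr
  have h3 : B.valuation 3 = B.valuation (emb la) ^ 2 := by
    rw [← map_pow, CUL.la_sq, map_mul, CUL.w_w, mul_one, Valuation.map_neg]
  have hle : B.valuation (3 * r ^ 2 + 3 * r) ≤ B.valuation (emb la) ^ 2 * B.valuation r := by
    have e : 3 * r ^ 2 + 3 * r = 3 * r * (r + 1) := by ring
    rw [e, map_mul, map_mul, h3]
    have h4 : B.valuation (r + 1) ≤ 1 :=
      (B.valuation.map_add _ _).trans (max_le hr1 (by rw [map_one]))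
    exact (mul_le_mul' le_rfl h4).trans (mul_one _).le
  have hmain : B.valuation (emb la ^ n * emb d) = B.valuation (emb la) ^ n := by
    rw [map_mul, map_pow, hd, mul_one]
  have e3 : r ^ 3 = emb la ^ n * emb d - (3 * r ^ 2 + 3 * r) := by linear_combination hr
  have hfin : B.valuation (3 * r ^ 2 + 3 * r) < B.valuation (emb la) ^ n →
      B.valuation r ^ 3 = B.valuation (emb la) ^ n := by
    intro hlt
    rw [← map_pow, e3, sub_eq_add_neg, Valuation.map_add_eq_of_lt_left, hmain]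
    rw [Valuation.map_neg, hmain]
    exact hlt
  rcases hn with rfl | rfl
  · apply hfin
    refine lt_of_le_of_lt hle ?_
    rw [pow_one, pow_two]
    have h5 : B.valuation (emb la) * B.valuation (emb la) * B.valuation r ≤
        B.valuation (emb la) * B.valuation (emb la) := (mul_le_mul' le_rfl hr1).trans (mul_one _).le
    refine lt_of_le_of_lt h5 ?_
    exact mul_lt_of_lt_one_right hL0 hB
  · have hlt1 : B.valuation r < 1 := by
      by_contra hcon
      push Not at hcon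
      have h6 : B.valuation r ^ 3 ≤ B.valuation (emb la) ^ 2 := by
        rw [← map_pow, e3]
        refine (B.valuation.map_sub _ _).trans (max_le hmain.le ?_)
        exact hle.trans ((mul_le_mul' le_rfl hr1).trans (mul_one _).le)
      have h7 : (1 : B.ValueGroup) ≤ B.valuation r ^ 3 := one_le_pow₀ hcon
      have h8 : B.valuation (emb la) ^ 2 < 1 := pow_lt_one₀ hL0.le hB (by norm_num)
      exact absurd (h7.trans h6) (not_le.mpr h8)
    apply hfin
    refine lt_of_le_of_lt hle ?_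
    exact mul_lt_of_lt_one_right (pow_pos hL0 2) hlt1

theorem U4c_one (hB : B.valuation (emb la) < 1) {c : Eis} (h1 : la ∣ c - 1) (h4 : ¬ la ^ 4 ∣ c - 1) {r r' : ℂ}
    (hr : (r + 1) ^ 3 = emb c) (hr' : (r' + 1) ^ 3 = emb c) {v₀ v₁ v₂ : ℂ} (k0 : v₀ ∈ CF.KK) (k1 : v₁ ∈ CF.KK)
    (k2 : v₂ ∈ CF.KK) : B.valuation (v₀ + v₁ * r + v₂ * r ^ 2) = B.valuation (v₀ + v₁ * r' + v₂ * r' ^ 2) := by
  have := eis_isDomain
  have := eis_pid
  have hla := CUL.la_prime
  have hc0 : c - 1 ≠ 0 := fun h0 => h4 (by rw [h0]; exact dvd_zero _)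
  obtain ⟨d, hd, hnd⟩ := (FiniteMultiplicity.of_prime_left hla hc0).exists_eq_pow_mul_and_not_dvd
  generalize multiplicity la (c - 1) = n at hd
  have hn1 : n ≠ 0 := by
    rintro rfl
    rw [pow_zero, one_mul] at hd
    exact hnd (hd ▸ h1)
  have hn4 : n < 4 := by
    by_contra hcon
    push Not at hcon
    apply h4
    rw [hd]
    exact (pow_dvd_pow la hcon).mul_right d
  have hdv : B.valuation (emb d) = 1 := U4a_unit hla hB hnd
  have heq : ∀ {x : ℂ}, (x + 1) ^ 3 = emb c → x ^ 3 + 3 * x ^ 2 + 3 * x = emb la ^ n * emb d := by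
    intro x hx
    have h5 : emb (c - 1) = emb la ^ n * emb d := by rw [hd, map_mul, map_pow]
    rw [map_sub, map_one] at h5
    linear_combination hx + h5
  by_cases hn3 : n = 3
  · subst hn3
    have hl0 : emb la ≠ 0 := U4a_emb_ne hla.ne_zero
    have h3 : (3 : ℂ) = emb la ^ 2 * emb ⟨1, 1⟩ := by
      rw [← map_pow, ← map_mul, ← U4c_three, map_ofNat]
    have hq : ∀ {x : ℂ}, (x + 1) ^ 3 = emb c → B.valuation (v₀ + v₁ * x + v₂ * x ^ 2) =
        max (B.valuation v₀) (max (B.valuation (v₁ * emb la)) (B.valuation (v₂ * emb la ^ 2))) := by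
      intro x hx
      have h5 := heq hx
      have hroot : (x / emb la) ^ 3 + emb (la * ⟨1, 1⟩) * (x / emb la) ^ 2 + emb ⟨1, 1⟩ * (x / emb la) +
          emb (-d) = 0 := by
        rw [map_neg, map_mul]
        have h6 : (x / emb la) ^ 3 + emb la * emb ⟨1, 1⟩ * (x / emb la) ^ 2 + emb ⟨1, 1⟩ * (x / emb la) +
          -emb d = (x ^ 3 + emb la ^ 2 * emb ⟨1, 1⟩ * x ^ 2 + emb la ^ 2 * emb ⟨1, 1⟩ * x -
            emb la ^ 3 * emb d) / emb la ^ 3 := by
          field_simp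
          ring
        rw [h6, ← h3, h5, sub_self, zero_div]
      have hK : emb la ∈ CF.KK := by
        rw [← CU.eE_coe]
        exact ((CU.eE la : NumberField.RingOfIntegers CF.KK) : CF.KK).2
      have h7 := inert_val hla hB hroot (fun y => U4c_root hnd) k0 (mul_mem k1 hK) (mul_mem k2 (pow_mem hK 2))
      rw [← h7]
      congr 1
      field_simp
    rw [hq hr, hq hr']
  · have hn12 : n = 1 ∨ n = 2 := by omega
    have e1 := U4c_r hB hn12 hdv (heq hr)
    have e2 := U4c_r hB hn12 hdv (heq hr')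
    have hnd3 : ¬ 3 ∣ n := by omega
    rw [ram_val hla hB hnd3 e1 k0 k1 k2, ram_val hla hB hnd3 e2 k0 k1 k2]
    have e3 : B.valuation r = B.valuation r' := by
      have : B.valuation r ^ 3 = B.valuation r' ^ 3 := by rw [e1, e2]
      exact (pow_left_inj₀ zero_le zero_le (by norm_num)).1 this
    rw [e3]

theorem U4c_two {D p : Eis} (hp : Prime p) (hD0 : D ≠ 0) (hD : Loc D p) (hB : B.valuation (emb p) < 1) {s s' : ℂ}
    (hs : s ^ 3 = emb D) (hs' : s' ^ 3 = emb D) {u₀ u₁ u₂ : ℂ} (h0 : u₀ ∈ CF.KK) (h1 : u₁ ∈ CF.KK)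
    (h2 : u₂ ∈ CF.KK) : B.valuation (u₀ + u₁ * s + u₂ * s ^ 2) = B.valuation (u₀ + u₁ * s' + u₂ * s' ^ 2) := by
  have := eis_isDomain
  have := eis_pid
  have hK : ∀ a : Eis, emb a ∈ CF.KK := fun a => by
    rw [← CU.eE_coe]
    exact ((CU.eE a : NumberField.RingOfIntegers CF.KK) : CF.KK).2
  rcases hD with ⟨v, c, hv, hc, rfl⟩ | ⟨m, c, hc, rfl, hD⟩
  · have hval : ∀ {x : ℂ}, x ^ 3 = emb (p ^ v * c) → B.valuation x ^ 3 = B.valuation (emb p) ^ v := by
      intro x hx
      rw [← map_pow, hx, map_mul, map_pow, map_mul, map_pow, U4a_unit hp hB hc, mul_one]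
    rw [ram_val hp hB hv (hval hs) h0 h1 h2, ram_val hp hB hv (hval hs') h0 h1 h2]
    have e3 : B.valuation s = B.valuation s' := by
      have : B.valuation s ^ 3 = B.valuation s' ^ 3 := by rw [hval hs, hval hs']
      exact (pow_left_inj₀ zero_le zero_le (by norm_num)).1 this
    rw [e3]
  · have hp0 : emb p ≠ 0 := U4a_emb_ne hp.ne_zero
    have hpm : emb p ^ m ≠ 0 := pow_ne_zero _ hp0
    -- scale
    have hsc : ∀ {x : ℂ}, x ^ 3 = emb (p ^ (3 * m) * c) → (x / emb p ^ m) ^ 3 = emb c := by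
      intro x hx
      rw [div_pow, hx, map_mul, map_pow, ← pow_mul, mul_comm m 3, mul_div_cancel_left₀]
      exact pow_ne_zero _ hp0
    have hex : ∀ x : ℂ, u₀ + u₁ * x + u₂ * x ^ 2 = u₀ + (u₁ * emb p ^ m) * (x / emb p ^ m) +
        (u₂ * (emb p ^ m) ^ 2) * (x / emb p ^ m) ^ 2 := by
      intro x
      field_simp
    have k1 : u₁ * emb p ^ m ∈ CF.KK := mul_mem h1 (pow_mem (hK p) m)
    have k2 : u₂ * (emb p ^ m) ^ 2 ∈ CF.KK := mul_mem h2 (pow_mem (pow_mem (hK p) m) 2)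
    rw [hex s, hex s']
    have ht := hsc hs
    have ht' := hsc hs'
    generalize s / emb p ^ m = t at ht
    generalize s' / emb p ^ m = t' at ht'
    generalize u₁ * emb p ^ m = U₁ at k1
    generalize u₂ * (emb p ^ m) ^ 2 = U₂ at k2
    rcases hD with ⟨hp3, hno⟩ | ⟨hp3, hno⟩
    · have hroot : ∀ {x : ℂ}, x ^ 3 = emb c → x ^ 3 + emb 0 * x ^ 2 + emb 0 * x + emb (-c) = 0 := by
        intro x hx
        rw [hx, map_zero, map_neg]
        ring
      have hno' : ∀ x : Eis, ¬ p ∣ x ^ 3 + 0 * x ^ 2 + 0 * x + -c := by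
        intro x hx
        apply hno x
        have e : c - x ^ 3 = -(x ^ 3 + 0 * x ^ 2 + 0 * x + -c) := by ring
        rw [e]
        exact (dvd_neg).mpr hx
      rw [inert_val hp hB (hroot ht) hno' h0 k1 k2, inert_val hp hB (hroot ht') hno' h0 k1 k2]
    · -- `p` is associated to `λ`
      have hunit : IsUnit (⟨1, 1⟩ : Eis) := by
        refine IsUnit.of_mul_eq_one ⟨0, -1⟩ ?_
        decide
      have hpla : p ∣ la := by
        rw [U4c_three] at hp3
        rcases hp.dvd_or_dvd hp3 with h | h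
        · exact hp.dvd_of_dvd_pow h
        · exact absurd (isUnit_of_dvd_unit h hunit) hp.not_isUnit
      have hass : Associated p la := hp.associated_of_dvd CUL.la_prime hpla
      have hlB : B.valuation (emb la) < 1 := by
        obtain ⟨e, he⟩ := hpla
        rw [he, map_mul, map_mul]
        exact lt_of_le_of_lt (mul_le_of_le_one_right' (i2_emb_le e)) hB
      have hlc : ¬ la ∣ c := fun h => hc (hass.dvd.trans h)
      obtain ⟨η, hη, hη2, hηc⟩ : ∃ η : Eis, (η = 1 ∨ η = -1) ∧ η * η = 1 ∧ la ∣ η * c - 1 := by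
        rcases U4c_la_mod c with h | h | h
        · exact absurd h hlc
        · exact ⟨1, Or.inl rfl, by ring, by rwa [one_mul]⟩
        · refine ⟨-1, Or.inr rfl, by ring, ?_⟩
          have e : (-1 : Eis) * c - 1 = -(c + 1) := by ring
          rw [e]
          exact (dvd_neg).mpr h
      have hη4 : ¬ la ^ 4 ∣ η * c - 1 := by
        intro h
        apply hno η hη
        have e : c - η = η * (η * c - 1) := by linear_combination (-c) * hη2
        rw [e]
        exact h.mul_left η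
      have hηC : emb η * emb η = 1 := by rw [← map_mul, hη2, map_one]
      have hcube : ∀ {x : ℂ}, x ^ 3 = emb c → ((emb η * x - 1) + 1) ^ 3 = emb (η * c) := by
        intro x hx
        rw [map_mul, ← hx]
        linear_combination (emb η * x ^ 3) * hηC
      have hexp : ∀ x : ℂ, u₀ + U₁ * x + U₂ * x ^ 2 = (u₀ + U₁ * emb η + U₂) +
          (U₁ * emb η + 2 * U₂) * (emb η * x - 1) + U₂ * (emb η * x - 1) ^ 2 := by
        intro x
        linear_combination (-U₁ * x - U₂ * x ^ 2) * hηC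
      have h2K : (2 : ℂ) ∈ CF.KK := by
        have := hK 2
        rwa [map_ofNat] at this
      rw [hexp t, hexp t']
      exact U4c_one hlB hηc hη4 (hcube ht) (hcube ht')
        (add_mem (add_mem h0 (mul_mem k1 (hK η))) k2) (add_mem (mul_mem k1 (hK η)) (mul_mem h2K k2)) k2

theorem Loc_val {D p : Eis} (hp : Prime p) (hD0 : D ≠ 0) (hD : Loc D p) (hB : B.valuation (emb p) < 1) {s : ℂ}
    (hs : s ^ 3 = emb D) {z₀ z₁ z₂ : ℂ} (h : C3 s z₀ z₁ z₂) :
    B.valuation z₀ = B.valuation z₁ ∧ B.valuation z₁ = B.valuation z₂ := by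
  obtain ⟨u₀, u₁, u₂, h0, h1, h2, rfl, rfl, rfl⟩ := h
  have e1 : (w * s) ^ 3 = emb D := by rw [mul_pow, CUL.w3, one_mul, hs]
  have e2 : (w ^ 2 * s) ^ 3 = emb D := by
    rw [mul_pow, ← pow_mul, mul_comm 2 3, pow_mul, CUL.w3, one_pow, one_mul, hs]
  exact ⟨U4c_two hp hD0 hD hB hs e1 h0 h1 h2, U4c_two hp hD0 hD hB e1 e2 h0 h1 h2⟩

end J2E
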