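import Pool.Agent.J2E.U1
import Pool.Agent.J2E.U2
import Pool.Agent.J2E.U3a
import Pool.Agent.J2E.U3b
import Pool.Agent.J2E.U3c
import Pool.Agent.J2E.U4c

/-!
# [J2E-U5] the elliptic unit is a unit

PROOF. `isIntegral_iff`: an element of `ℂ` is integral over `ℤ` iff it is in every valuation ring of `ℂ` (used in JGL/U3, JL/I4, CUL: look there). Let `B` be a valuation ring of `ℂ`. If no prime of `ℤ[ω]` is in its maximal ideal, all non zero `emb a` have valuation one, and `e_i` is algebraic over `ℚ(ω)` (`C3`, `s³ = D`), so `|e_i| = 1`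
(the valuation is trivial on `ℚ(ω)`, so on algebraic elements). Otherwise let `p` be a prime with `B.valuation (emb p) < 1`. `p ∤ f`: `B.valuation (Φ c)` does not depend on `c` (U3a, U3b, U3c; `p ∣ 2` iff `B.valuation 2 < 1`, `p ∣ 3` iff `p ~ λ`), so `|g_i| = |g_{i+1}|`, `|e_i| = 1`.
`p ∣ f`: `Loc_val`: `|e_0| = |e_1| = |e_2|`, and the product is `± 1` (`ei_prod`), so `|e_i|³ = 1`.
It suffices to prove `|e_0| = |e_1| = |e_2| = 1` for every `B`.
-/

set_option autoImplicit false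

open MeasureTheory Set Filter Topology
open scoped Classical ComplexConjugate

namespace J2E

open CM27 JZ
open CU (la eE)
open CUL (Nl ta rp IsRep zw GalU)
open JGL (GalP)

variable {f c₁ D : Eis} {k κ : Eis → ℂ} {R : Finset Eis} {s : ℂ}

theorem U5_int {z : ℂ} (h : ∀ B : ValuationSubring ℂ, B.valuation z ≤ 1) : IsIntegral ℤ z := by
  by_contra hz
  have hcl : IsIntegrallyClosedIn (integralClosure ℤ ℂ).toSubring ℂ :=
    inferInstanceAs (IsIntegrallyClosedIn (integralClosure ℤ ℂ) ℂ)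
  obtain ⟨V, -, hV2⟩ := Subring.exists_le_valuationSubring_of_isIntegrallyClosedIn
    (R := (integralClosure ℤ ℂ).toSubring) (x := z) hz
  exact hV2 ((V.valuation_le_one_iff _).1 (h V))

theorem U5_k1 {f : Eis} {k : Eis → ℂ} (h : Ch f k) : k 1 = 1 := by
  have h1 := h.cube 1 isCoprime_one_left
  have h2 := h.mul 1 1
  rw [mul_one] at h2
  have h0 : k 1 ≠ 0 := by
    intro h0
    rw [h0] at h1
    norm_num at h1
  exact (mul_eq_left₀ h0).1 h2.symm

theorem U5_nonunit {f : Eis} {k : Eis → ℂ} (h : Ch f k) : ¬ IsUnit f := by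
  intro hf
  obtain ⟨x, -, hx⟩ := h.non
  apply hx
  rw [h.per x 1 hf.dvd, U5_k1 h]

theorem U5_Nl {f : Eis} {k : Eis → ℂ} (h : Ch f k) {c : Eis} (hc : IsCoprime c f) : Nl (emb c / emb f) := by
  have hf0 : emb f ≠ 0 := U4a_emb_ne h.F0
  rintro ⟨b, hb⟩
  apply U5_nonunit h
  have h1 : c = f * b := by
    apply emb_injective
    rw [map_mul, hb]
    field_simp
  exact hc.isUnit_of_dvd' ⟨b, h1⟩ dvd_rfl

theorem U5_mul {f : Eis} {k : Eis → ℂ} (h : Ch f k) (c : Eis) : emb f * (emb c / emb f) ∈ Set.range emb := by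
  have hf0 : emb f ≠ 0 := U4a_emb_ne h.F0
  exact ⟨c, by field_simp⟩

/-- a prime of `ℤ[ω]` in the maximal ideal, or the valuation is trivial on `ℤ[ω]` -/
theorem U5_prime (B : ValuationSubring ℂ) (a : Eis) :
    a ≠ 0 → B.valuation (emb a) < 1 → ∃ p : Eis, Prime p ∧ B.valuation (emb p) < 1 := by
  have := eis_isDomain
  have := eis_pid
  induction a using UniqueFactorizationMonoid.induction_on_prime with
  | h₁ => intro h; exact absurd rfl h
  | h₂ u hu =>
    intro _ hlt
    exfalso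
    obtain ⟨v, hv⟩ := hu.exists_right_inv
    have h1 : B.valuation (emb u) * B.valuation (emb v) = 1 := by rw [← map_mul, ← map_mul, hv, map_one, map_one]
    have h2 : B.valuation (emb u) * B.valuation (emb v) < 1 :=
      lt_of_le_of_lt (mul_le_of_le_one_right' (i2_emb_le v)) hlt
    rw [h1] at h2
    exact lt_irrefl _ h2
  | h₃ a p ha hp ih =>
    intro _ hlt
    by_cases h1 : B.valuation (emb p) < 1
    · exact ⟨p, hp, h1⟩
    · apply ih ha
      have h2 : B.valuation (emb p) = 1 := le_antisymm (i2_emb_le p) (not_lt.1 h1)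
      rwa [map_mul, map_mul, h2, one_mul] at hlt

theorem U5_three {B : ValuationSubring ℂ} {x y z : ℂ} (hx : B.valuation x ≤ 1) (hy : B.valuation y ≤ 1)
    (hz : B.valuation z ≤ 1) (h : x * y * z = 1 ∨ x * y * z = -1) :
    B.valuation x = 1 ∧ B.valuation y = 1 ∧ B.valuation z = 1 := by
  have h1 : B.valuation x * B.valuation y * B.valuation z = 1 := by
    rw [← map_mul, ← map_mul]
    rcases h with h | h
    · rw [h, map_one]
    · rw [h, Valuation.map_neg, map_one]
  have aux : ∀ {a b : B.ValueGroup}, a ≤ 1 → b ≤ 1 → a * b = 1 → a = 1 := by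
    intro a b ha hb hab
    refine le_antisymm ha ?_
    rw [← hab]
    exact (mul_le_mul' le_rfl hb).trans (mul_one _).le
  have e1 : B.valuation x * B.valuation y = 1 := aux (mul_le_one' hx hy) hz h1
  have e2 : B.valuation x = 1 := aux hx hy e1
  rw [e2, one_mul] at e1
  rw [e2, e1, one_mul, one_mul] at h1
  exact ⟨e2, e1, h1⟩

theorem U5_main {Φ : Eis → ℂ} (h : Ch f k) (hR : IsR0 f k R) (hc : IsCoprime c₁ f) (hc1 : k c₁ = w)
    (hΦ : GD f k κ Φ) (hD0 : D ≠ 0) (hs : s ^ 3 = emb D) (hG : GalP fun σ g => σ s = κ g * s)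
    (hloc : ∀ p, Prime p → p ∣ f → Loc D p)
    (hval : ∀ (B : ValuationSubring ℂ) (p : Eis), Prime p → ¬ p ∣ f → B.valuation (emb p) < 1 →
      ∀ c c' : Eis, IsCoprime c f → IsCoprime c' f → B.valuation (Φ c) = B.valuation (Φ c'))
    {i : ℕ} (hi : i < 3) : IsIntegral ℤ (ei Φ R c₁ i) ∧ IsIntegral ℤ (ei Φ R c₁ i)⁻¹ := by
  have hs0 : s ≠ 0 := by
    rintro rfl
    have h1 := U4a_emb_ne hD0
    apply h1
    rw [← hs]
    norm_num
  have hC := ei_C3 h hR hc hc1 hΦ hs0 hG
  have hP := ei_prod h hR hc hc1 hΦ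
  have key : ∀ B : ValuationSubring ℂ, B.valuation (ei Φ R c₁ 0) = 1 ∧ B.valuation (ei Φ R c₁ 1) = 1 ∧
      B.valuation (ei Φ R c₁ 2) = 1 := by
    intro B
    by_cases hex : ∃ p : Eis, Prime p ∧ B.valuation (emb p) < 1
    · obtain ⟨p, hp, hB⟩ := hex
      by_cases hpf : p ∣ f
      · obtain ⟨h1, h2⟩ := Loc_val hp hD0 (hloc p hp hpf) hB hs hC
        have h3 : B.valuation (ei Φ R c₁ 0) ^ 3 = 1 := by
          have h4 : B.valuation (ei Φ R c₁ 0) * B.valuation (ei Φ R c₁ 1) * B.valuation (ei Φ R c₁ 2) = 1 := by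
            rw [← map_mul, ← map_mul]
            rcases hP with h | h
            · rw [h, map_one]
            · rw [h, Valuation.map_neg, map_one]
          rw [← h2, ← h1] at h4
          rw [pow_three', h4]
        have h5 : B.valuation (ei Φ R c₁ 0) = 1 := (pow_eq_one_iff.1 h3).resolve_right (by norm_num)
        exact ⟨h5, by rw [← h1, h5], by rw [← h2, ← h1, h5]⟩
      · have hcop : ∀ j : ℕ, ∀ c ∈ R, IsCoprime (c₁ ^ j * c) f := fun j c hcR =>
          (hc.pow_left).mul_left (hR.1 c hcR).1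
        have hg : ∀ j : ℕ, B.valuation (gi Φ R c₁ j) = B.valuation (gi Φ R c₁ (j + 1)) := by
          intro j
          rw [gi, gi, map_prod, map_prod]
          exact Finset.prod_congr rfl fun c hcR => hval B p hp hpf hB _ _ (hcop _ _ hcR) (hcop _ _ hcR)
        have he : ∀ j : ℕ, B.valuation (ei Φ R c₁ j) = 1 := by
          intro j
          rw [ei, map_div₀, ← hg j]
          exact div_self ((Valuation.ne_zero_iff _).mpr (gi_ne h hR hc hΦ j))
        exact ⟨he 0, he 1, he 2⟩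
    · -- the valuation is trivial on `ℚ(ω)`
      have htriv : ∀ a : Eis, a ≠ 0 → B.valuation (emb a) = 1 := by
        intro a ha
        refine le_antisymm (i2_emb_le a) ?_
        by_contra hlt
        exact hex (U5_prime B a ha (not_le.1 hlt))
      have hK : ∀ u : ℂ, u ∈ CF.KK → B.valuation u ≤ 1 := by
        intro u hu
        obtain ⟨b, a, hb, hab⟩ := U4a_repr hu
        have h1 : B.valuation (emb b) * B.valuation u = B.valuation (emb a) := by rw [← map_mul, hab]
        rw [htriv b hb, one_mul] at h1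
        rw [h1]
        exact i2_emb_le a
      have hsv : B.valuation s = 1 := by
        have h1 : B.valuation s ^ 3 = 1 := by rw [← map_pow, hs, htriv D hD0]
        exact (pow_eq_one_iff.1 h1).resolve_right (by norm_num)
      have hle : ∀ {u₀ u₁ u₂ x : ℂ}, u₀ ∈ CF.KK → u₁ ∈ CF.KK → u₂ ∈ CF.KK → B.valuation x ≤ 1 →
          B.valuation (u₀ + u₁ * x + u₂ * x ^ 2) ≤ 1 := by
        intro u₀ u₁ u₂ x h0 h1 h2 hx
        refine (B.valuation.map_add _ _).trans (max_le ((B.valuation.map_add _ _).trans (max_le ?_ ?_)) ?_)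
        · exact hK _ h0
        · rw [map_mul]
          exact mul_le_one' (hK _ h1) hx
        · rw [map_mul, map_pow]
          exact mul_le_one' (hK _ h2) (pow_le_one' hx 2)
      obtain ⟨u₀, u₁, u₂, h0, h1, h2, e0, e1, e2⟩ := hC
      refine U5_three ?_ ?_ ?_ hP
      · rw [e0]
        exact hle h0 h1 h2 hsv.le
      · rw [e1]
        refine hle h0 h1 h2 ?_
        rw [map_mul, CUL.w_w, one_mul]
        exact hsv.le
      · rw [e2]
        refine hle h0 h1 h2 ?_
        rw [map_mul, map_pow, CUL.w_w, one_pow, one_mul]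
        exact hsv.le
  have hall : ∀ B : ValuationSubring ℂ, B.valuation (ei Φ R c₁ i) = 1 := by
    intro B
    obtain ⟨h0, h1, h2⟩ := key B
    interval_cases i
    · exact h0
    · exact h1
    · exact h2
  refine ⟨U5_int fun B => (hall B).le, U5_int fun B => ?_⟩
  rw [map_inv₀, hall B, inv_one]

theorem U5_OT {f : Eis} {k : Eis → ℂ} (h : Ch f k) {c : Eis} (hc : IsCoprime c f) (hl : ¬ la ∣ f) :
    CUL.OT (emb c / emb f) := by
  have hf0 : emb f ≠ 0 := U4a_emb_ne h.F0
  obtain ⟨u, hu, hp⟩ := CUL.l6_prim hl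
  refine ⟨U5_Nl h hc, u * f, hp, u * c, ?_⟩
  rw [map_mul, map_mul]
  field_simp

/-- the three cases -/
theorem U5_cases {f p : Eis} {B : ValuationSubring ℂ} (hp : Prime p) (hpf : ¬ p ∣ f) (hB : B.valuation (emb p) < 1) :
    (¬ p ∣ 6 ∧ IsCoprime f p) ∨ B.valuation 2 < 1 ∨ (B.valuation 3 < 1 ∧ ¬ la ∣ f) := by
  have := eis_isDomain
  have := eis_pid
  have hlt : ∀ n : Eis, p ∣ n → B.valuation (emb n) < 1 := by
    rintro n ⟨e, rfl⟩
    rw [map_mul, map_mul]
    exact lt_of_le_of_lt (mul_le_of_le_one_right' (i2_emb_le e)) hB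
  by_cases h6 : p ∣ 6
  · right
    have e : (6 : Eis) = 2 * 3 := by norm_num
    rw [e] at h6
    rcases hp.dvd_or_dvd h6 with h2 | h3
    · left
      have := hlt 2 h2
      rwa [map_ofNat] at this
    · right
      refine ⟨?_, ?_⟩
      · have := hlt 3 h3
        rwa [map_ofNat] at this
      · intro hlf
        apply hpf
        refine dvd_trans ?_ hlf
        have hunit : IsUnit (⟨1, 1⟩ : Eis) := by
          refine IsUnit.of_mul_eq_one ⟨0, -1⟩ ?_
          decide
        rw [U4c_three] at h3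
        rcases hp.dvd_or_dvd h3 with h | h
        · exact hp.dvd_of_dvd_pow h
        · exact absurd (isUnit_of_dvd_unit h hunit) hp.not_isUnit
  · left
    exact ⟨h6, ((hp.irreducible.coprime_iff_not_dvd).2 hpf).symm⟩

theorem U5_pow {B : ValuationSubring ℂ} {x y : ℂ} {n : ℕ} (hn : n ≠ 0) (h : B.valuation x ^ n = B.valuation y ^ n) :
    B.valuation x = B.valuation y :=
  (pow_left_inj₀ zero_le zero_le hn).1 h

theorem unit_y (h : Cu f k) (h2 : IsCoprime f 2) (hR : IsR0 f k R) (hc : IsCoprime c₁ f) (hc1 : k c₁ = w)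
    (hD0 : D ≠ 0) (hs : s ^ 3 = emb D) (hG : GalP fun σ g => σ s = k g * s) (hloc : ∀ p, Prime p → p ∣ f → Loc D p)
    {i : ℕ} (hi : i < 3) : IsIntegral ℤ (ei (fun c => yw (emb c / emb f)) R c₁ i) ∧
      IsIntegral ℤ (ei (fun c => yw (emb c / emb f)) R c₁ i)⁻¹ := by
  refine U5_main h.toCh hR hc hc1 (GD_y h h2) hD0 hs hG hloc ?_ hi
  intro B p hp hpf hB c c' hcf hcf'
  change B.valuation (yw (emb c / emb f)) = B.valuation (yw (emb c' / emb f))
  have hN := U5_Nl h.toCh hcf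
  have hN' := U5_Nl h.toCh hcf'
  have hm := U5_mul h.toCh c
  have hm' := U5_mul h.toCh c'
  rcases U5_cases hp hpf hB with ⟨h6, hco⟩ | hB2 | ⟨hB3, hl⟩
  · rw [u3a_y hp h6 hB hN hm hco h2, u3a_y hp h6 hB hN' hm' hco h2]
  · rw [u3b_y hB2 hN hm h2, u3b_y hB2 hN' hm' h2]
  · refine U5_pow (n := 4) (by norm_num) ?_
    rw [u3c_y hB3 (U5_OT h.toCh hcf hl) hm hl h2, u3c_y hB3 (U5_OT h.toCh hcf' hl) hm' hl h2]

theorem unit_h (h : Ch f k) (h2 : IsCoprime f 2) (h' : Cu (2 * f) κ)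
    (hκ : ∀ x, IsCoprime x (2 * f) → (2 : Eis) ∣ x - 1 → κ x = k x) (hR : IsR0 f k R) (hc : IsCoprime c₁ f) (hc1 : k c₁ = w)
    (hD0 : D ≠ 0) (hs : s ^ 3 = emb D) (hG : GalP fun σ g => σ s = κ g * s) (hloc : ∀ p, Prime p → p ∣ f → Loc D p)
    {i : ℕ} (hi : i < 3) : IsIntegral ℤ (ei (fun c => hT (emb c / emb f)) R c₁ i) ∧
      IsIntegral ℤ (ei (fun c => hT (emb c / emb f)) R c₁ i)⁻¹ := by
  refine U5_main h hR hc hc1 (GD_h h h2 h' hκ) hD0 hs hG hloc ?_ hi
  intro B p hp hpf hB c c' hcf hcf'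
  change B.valuation (hT (emb c / emb f)) = B.valuation (hT (emb c' / emb f))
  have hN := U5_Nl h hcf
  have hN' := U5_Nl h hcf'
  have hm := U5_mul h c
  have hm' := U5_mul h c'
  rcases U5_cases hp hpf hB with ⟨h6, hco⟩ | hB2 | ⟨hB3, hl⟩
  · rw [u3a_h hp h6 hB hN hm hco h2, u3a_h hp h6 hB hN' hm' hco h2]
  · refine U5_pow (n := 2) (by norm_num) ?_
    rw [u3b_h hB2 hN hm h2, u3b_h hB2 hN' hm' h2]
  · refine U5_pow (n := 4) (by norm_num) ?_
    rw [u3c_h hB3 (U5_OT h hcf hl) hm hl h2, u3c_h hB3 (U5_OT h hcf' hl) hm' hl h2]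

end J2E
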