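import Pool.Agent.J2E.Z
import Pool.Agent.J2L.Defs
import Pool.Agent.CUL.X1

/-!
# [J2E-W] the elliptic unit for the data of `D`
-/

set_option autoImplicit false

open MeasureTheory Set Filter Topology
open scoped Classical ComplexConjugate

namespace J2E

open CM27 JZ
open CU (la eE)
open CUL (Nl ta rp IsRep zw cr GalU)
open JGL (GalP)
open J2L (Lv Cub Dt LC IsU Ph IsA gE uE Lam)

variable {D : Eis}

/-- the conjugate of `L.k` -/
noncomputable def kd (L : Lv) (x : Eis) : ℂ := conj (L.k x)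

theorem w_zw3 (i : ZMod 3) : zw i ^ 3 = 1 := by
  unfold zw
  rw [← pow_mul, mul_comm, pow_mul, CUL.w3, one_pow]

theorem kd_ch (L : Lv) : Ch L.f (kd L) := by
  refine ⟨L.hf, fun x hx => ?_, fun x hx => ?_, fun x y => ?_, fun x y h => ?_, ?_⟩
  · show conj (L.k x) = 0
    rw [L.k_zero x hx, map_zero]
  · obtain ⟨i, hi⟩ := L.k_cube x hx
    show conj (L.k x) ^ 3 = 1
    rw [hi, CUL.zw_conj, w_zw3]
  · show conj (L.k (x * y)) = conj (L.k x) * conj (L.k y)
    rw [L.k_mul, map_mul]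
  · show conj (L.k x) = conj (L.k y)
    rw [L.k_per x y h]
  · obtain ⟨x, hx, hx1⟩ := L.k_non
    refine ⟨x, hx, fun h => hx1 ?_⟩
    have h1 : conj (conj (L.k x)) = conj 1 := congrArg _ h
    rwa [Complex.conj_conj, map_one] at h1

theorem w_cub (C : Cub D) : Cu C.g C.kp where
  F0 := C.hg
  zero := C.kp_zero
  cube x hx := by
    obtain ⟨i, hi⟩ := C.kp_cube x hx
    rw [hi, w_zw3]
  mul := C.kp_mul
  per := C.kp_per
  non := C.kp_non
  unit := C.kp_unit

theorem w_two (L : Lv) : IsCoprime L.f 2 := by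
  have hpid := eis_pid
  have hdom := eis_isDomain
  exact ((Q3.prime_two.irreducible.coprime_iff_not_dvd).2 L.hf2).symm

theorem w_primary_two : Primary (-2 : Eis) := ⟨-1, by norm_num⟩

theorem w_prime_two : Prime (-2 : Eis) := Q3.prime_two.neg

theorem w_kd_om (L : Lv) : kd L CU.om = zw (L.j - 1) := by
  show conj (L.k CU.om) = _
  rw [L.k_om, CUL.zw_conj]
  congr 1
  ring

theorem w_kd_unit (L : Lv) (hj : L.j = 1) {u : Eis} (hu : IsUnit u) : kd L u = 1 := by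
  have h := kd_ch L
  have h1 : kd L CU.om = 1 := by rw [w_kd_om, hj, sub_self, CUL.zw_zero]
  have h2 : ∀ n : ℕ, kd L (CU.om ^ n) = 1 := by
    intro n
    induction n with
    | zero => rw [pow_zero, h.one]
    | succ n ih => rw [pow_succ, h.mul, ih, h1, one_mul]
  obtain ⟨n, hn | hn⟩ := Q3L.unit_cases hu
  · rw [hn]; exact h2 n
  · rw [hn, h.neg]; exact h2 n

/-- `kp = kd` for `j = 1` -/
theorem w_kp (d : Dt D) (hj : d.L.j = 1) {x : Eis} (hx : IsCoprime x d.L.f) : kd d.L x = d.C.kp x := by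
  have hg : d.C.g ∣ d.L.f := by
    have := d.gdvd
    rwa [if_pos hj] at this
  have h0 : ∀ y : Eis, IsCoprime y (2 * d.L.f) → kd d.L y = d.C.kp y := by
    intro y hy
    rw [d.kpk y hy, hj, sub_self, ZMod.val_zero, pow_zero, mul_one]
    rfl
  by_cases h2 : (2 : Eis) ∣ x
  · have h3 : ¬ (2 : Eis) ∣ x + d.L.f := fun h => d.L.hf2 ((dvd_add_right h2).1 h)
    have hpid := eis_pid
    have hdom := eis_isDomain
    have h4 : IsCoprime (x + d.L.f) (2 * d.L.f) := by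
      refine IsCoprime.mul_right ((Q3.prime_two.irreducible.coprime_iff_not_dvd).2 h3).symm ?_
      have := (IsCoprime.add_mul_left_left_iff (x := x) (y := d.L.f) (z := 1)).2 hx
      rwa [mul_one] at this
    have h5 := h0 _ h4
    rw [(kd_ch d.L).per (x + d.L.f) x ⟨1, by ring⟩, (w_cub d.C).per (x + d.L.f) x (by
      rw [add_sub_cancel_left]; exact hg)] at h5
    exact h5
  · have hpid := eis_pid
    have hdom := eis_isDomain
    exact h0 x (IsCoprime.mul_right ((Q3.prime_two.irreducible.coprime_iff_not_dvd).2 h2).symm hx)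

theorem w_cu (d : Dt D) (hj : d.L.j = 1) : Cu d.L.f (kd d.L) :=
  { kd_ch d.L with unit := fun _ hu => w_kd_unit d.L hj hu }

/-- the character modulo `2 f` -/
noncomputable def k2 (d : Dt D) (x : Eis) : ℂ := if IsCoprime x (2 * d.L.f) then d.C.kp x else 0

theorem w_odd {x f : Eis} (h : IsCoprime x (2 * f)) : ¬ (2 : Eis) ∣ x :=
  fun h2 => Q3.prime_two.not_isUnit ((h.of_mul_right_left).isUnit_of_dvd' h2 dvd_rfl)

theorem w_k2 (d : Dt D) {x : Eis} (hx : IsCoprime x (2 * d.L.f)) (h1 : (2 : Eis) ∣ x - 1) : k2 d x = kd d.L x := by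
  have h2 : cr (-2) x = 1 := by
    rw [CUL.cr_congr w_prime_two w_primary_two (a := x) (b := 1) (by rwa [neg_dvd]), CUL.cr_one w_prime_two w_primary_two]
  unfold k2
  rw [if_pos hx, d.kpk x hx, h2, one_pow, mul_one]
  rfl

theorem w_cu2 (d : Dt D) (hj : d.L.j ≠ 1) : Cu (2 * d.L.f) (k2 d) := by
  have hdom := eis_isDomain
  have hg : d.C.g ∣ 2 * d.L.f := by
    have := d.gdvd
    rwa [if_neg hj] at this
  have hc := w_cub d.C
  refine ⟨⟨mul_ne_zero two_ne_zero d.L.hf, fun x hx => if_neg hx, fun x hx => ?_, fun x y => ?_, fun x y hxy => ?_, ?_⟩,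
    fun u hu => ?_⟩
  · unfold k2
    rw [if_pos hx]
    exact hc.cube x (hx.of_isCoprime_of_dvd_right hg)
  · unfold k2
    by_cases hx : IsCoprime x (2 * d.L.f)
    · by_cases hy : IsCoprime y (2 * d.L.f)
      · rw [if_pos (hx.mul_left hy), if_pos hx, if_pos hy, hc.mul]
      · rw [if_neg hy, if_neg (fun hc => hy hc.of_mul_left_right), mul_zero]
    · rw [if_neg hx, if_neg (fun hc => hx hc.of_mul_left_left), zero_mul]
  · have h1 : IsCoprime x (2 * d.L.f) ↔ IsCoprime y (2 * d.L.f) := by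
      obtain ⟨t, ht⟩ := hxy
      have e : x = y + t * (2 * d.L.f) := by linear_combination ht
      rw [e]
      exact IsCoprime.add_mul_right_left_iff
    unfold k2
    rw [hc.per x y (hg.trans hxy)]
    simp only [h1]
  · obtain ⟨x, hx, hx1⟩ := (kd_ch d.L).non
    obtain ⟨a, b, hab⟩ := w_two d.L
    -- `x' = x * (2 b) + f a`
    have e1 : d.L.f ∣ x * (2 * b) + d.L.f * a - x := ⟨-(a * x) + a, by linear_combination x * hab⟩
    have e2 : (2 : Eis) ∣ x * (2 * b) + d.L.f * a - 1 := ⟨x * b - b, by linear_combination hab⟩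
    have h2 : IsCoprime (x * (2 * b) + d.L.f * a) (2 * d.L.f) := by
      refine IsCoprime.mul_right ?_ ?_
      · obtain ⟨t, ht⟩ := e2
        exact ⟨1, -t, by linear_combination ht⟩
      · obtain ⟨t, ht⟩ := e1
        have e : x * (2 * b) + d.L.f * a = x + t * d.L.f := by linear_combination ht
        rw [e]
        exact IsCoprime.add_mul_right_left_iff.2 hx
    refine ⟨_, h2, ?_⟩
    rw [w_k2 d h2 e2, (kd_ch d.L).per _ x e1]
    exact hx1
  · unfold k2
    have h1 : IsCoprime u (2 * d.L.f) := by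
      obtain ⟨v, hv⟩ := hu.exists_left_inv
      exact ⟨v, 0, by rw [zero_mul, add_zero]; exact hv⟩
    rw [if_pos h1, hc.unit u hu]

theorem w_loc (d : Dt D) {p : Eis} (hp : Prime p) (hpf : p ∣ d.L.f) (hD0 : D ≠ 0) : Loc D p := by
  have hdom := eis_isDomain
  have ht := d.tam p hp hpf
  have hfin : FiniteMultiplicity p D := by
    have hpid := eis_pid
    exact FiniteMultiplicity.of_prime_left hp hD0
  obtain ⟨c, hc, hpc⟩ := hfin.exists_eq_pow_mul_and_not_dvd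
  by_cases h3 : 3 ∣ multiplicity p D
  swap
  · exact Or.inl ⟨_, c, h3, hpc, hc⟩
  right
  obtain ⟨m, hm⟩ := h3
  rw [hm] at hc
  refine ⟨m, c, hpc, hc, ?_⟩
  by_cases hp3 : p ∣ 3
  · right
    refine ⟨hp3, fun η hη h4 => ht ?_⟩
    have hla : la ∣ p ∧ p ∣ la := by
      have e : (3 : Eis) = la * la * (-CU.om ^ 2) := by decide
      have h5 : p ∣ la * la * (-CU.om ^ 2) := by rw [← e]; exact hp3
      have h6 : p ∣ la := by
        rcases hp.dvd_or_dvd h5 with h | h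
        · exact (hp.dvd_or_dvd h).elim id id
        · exfalso
          apply hp.not_isUnit
          refine isUnit_of_dvd_unit h ?_
          exact IsUnit.of_mul_eq_one (-CU.om) (by decide)
      exact ⟨(hp.associated_of_dvd CUL.la_prime h6).symm.dvd, h6⟩
    obtain ⟨u, hu⟩ := hp.associated_of_dvd CUL.la_prime hla.2
    -- `la = p u`
    have hla2 : ¬ la ∣ c := fun h => hpc (hla.2.trans h)
    have hD2 : D = la ^ (3 * m) * ((↑(u⁻¹) : Eis) ^ (3 * m) * c) := by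
      rw [hc, ← hu, mul_pow]
      have e : (u : Eis) ^ (3 * m) * (↑(u⁻¹) : Eis) ^ (3 * m) = 1 := by
        rw [← mul_pow, Units.mul_inv, one_pow]
      linear_combination -(p ^ (3 * m) * c) * e
    have hu3 : ((↑(u⁻¹) : Eis) ^ 3 = 1 ∨ (↑(u⁻¹) : Eis) ^ 3 = -1) := by
      obtain ⟨n, hn | hn⟩ := Q3L.unit_cases (u⁻¹).isUnit
      · left
        rw [hn, ← pow_mul, mul_comm, pow_mul]
        have : (Q3.om : Eis) ^ 3 = 1 := by decide
        rw [this, one_pow]
      · right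
        rw [hn, neg_pow, ← pow_mul, mul_comm n, pow_mul]
        have : (Q3.om : Eis) ^ 3 = 1 := by decide
        rw [this, one_pow]
        norm_num
    have hu4 : ((↑(u⁻¹) : Eis) ^ (3 * m) = 1 ∨ (↑(u⁻¹) : Eis) ^ (3 * m) = -1) := by
      rw [pow_mul]
      rcases hu3 with h | h
      · left; rw [h, one_pow]
      · rw [h]; exact neg_one_pow_eq_or _ _
    obtain ⟨ε, hε, hεe⟩ : ∃ ε : Eis, (ε = 1 ∨ ε = -1) ∧ ε = (↑(u⁻¹) : Eis) ^ (3 * m) := ⟨_, hu4, rfl⟩
    rw [← hεe] at hD2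
    have hεη : ε * η = 1 ∨ ε * η = -1 := by
      rcases hε with rfl | rfl <;> rcases hη with rfl | rfl <;> simp
    have h7 : la ^ 4 ∣ ε * c - ε * η := by
      rw [← mul_sub]
      exact h4.mul_left _
    have h8 := d.C.ramL (ε * c) (3 * m) hD2 (by
      intro h
      rcases hε with rfl | rfl
      · exact hla2 (by rwa [one_mul] at h)
      · exact hla2 (by rwa [neg_one_mul, dvd_neg] at h))
    have h9 := (h8.2 (dvd_mul_right 3 m) ⟨ε * η, hεη, (pow_dvd_pow la (by norm_num : 3 ≤ 4)).trans h7⟩).2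
      ⟨ε * η, hεη, h7⟩
    have h10 : d.C.kp la = d.C.kp p := by
      rw [← hu, (w_cub d.C).mul, (w_cub d.C).unit _ u.isUnit, mul_one]
    rw [← h10]
    exact h9
  · left
    refine ⟨hp3, fun x hx => ht ?_⟩
    have h4 := (d.C.ram p c (3 * m) hp hp3 hc hpc).2 (dvd_mul_right 3 m)
    refine h4.2 ⟨x, ?_⟩
    rw [← dvd_neg, neg_sub]
    exact hx

theorem w_kp2 (d : Dt D) (hj : d.L.j ≠ 1) : d.C.kp 2 ≠ 1 := by
  have h23 : ¬ (2 : Eis) ∣ 3 := by
    rintro ⟨t, ht⟩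
    apply Q3.prime_two.not_isUnit
    exact IsUnit.of_mul_eq_one (t - 1) (by linear_combination -ht)
  have h1 := (d.C.ram 2 d.D₀ d.v Q3.prime_two h23 d.hD d.hD₀).1.2 (fun h => hj (by
    rw [d.hj]
    obtain ⟨t, ht⟩ := h
    rw [ht]
    push_cast
    have : (3 : ZMod 3) = 0 := rfl
    rw [this, zero_mul, sub_zero]))
  have h2 : ¬ IsCoprime (2 : Eis) d.C.g := fun hc => Q3.prime_two.not_isUnit (hc.isUnit_of_dvd' dvd_rfl h1)
  rw [d.C.kp_zero 2 h2]
  exact zero_ne_one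

theorem w_D0 (d : Dt D) : D ≠ 0 := by
  have hdom := eis_isDomain
  intro h
  rw [d.hD] at h
  rcases mul_eq_zero.1 h with h1 | h1
  · exact pow_ne_zero _ (two_ne_zero : (2 : Eis) ≠ 0) h1
  · exact d.hD₀ (by rw [h1]; exact dvd_zero _)

theorem w_gal1 (d : Dt D) (hj : d.L.j = 1) : GalP fun σ g => σ (JT.cD D) = kd d.L g * JT.cD D := by
  have hdom := eis_isDomain
  obtain ⟨M₀, h0, h1⟩ := d.gal
  refine ⟨M₀ * d.L.f, mul_ne_zero h0 d.L.hf, fun σ hσ M g hM hd hG => ?_⟩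
  have h2 := h1 σ hσ M g hM (dvd_of_mul_right_dvd hd) hG
  have h3 : IsCoprime g d.L.f := (hG.dvd hM (M' := d.L.f) (dvd_of_mul_left_dvd hd)).2.1
  show σ (JT.cD D) = kd d.L g * JT.cD D
  rw [w_kp d hj h3]
  exact h2

theorem w_gal2 (d : Dt D) : GalP fun σ g => σ (JT.cD D) = k2 d g * JT.cD D := by
  have hdom := eis_isDomain
  obtain ⟨M₀, h0, h1⟩ := d.gal
  have h2f : (2 : Eis) * d.L.f ≠ 0 := mul_ne_zero two_ne_zero d.L.hf
  refine ⟨M₀ * (2 * d.L.f), mul_ne_zero h0 h2f, fun σ hσ M g hM hd hG => ?_⟩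
  have h2 := h1 σ hσ M g hM (dvd_of_mul_right_dvd hd) hG
  have h3 : IsCoprime g (2 * d.L.f) := (hG.dvd hM (M' := 2 * d.L.f) (dvd_of_mul_left_dvd hd)).2.1
  show σ (JT.cD D) = k2 d g * JT.cD D
  unfold k2
  rw [if_pos h3]
  exact h2

theorem w_R {L : Lv} {R : Finset Eis} (hR : J2L.IsR L R) : IsR0 L.f (kd L) R := by
  have key : ∀ x, kd L x = 1 ↔ L.k x = 1 := by
    intro x
    constructor
    · intro h
      have h1 : conj (conj (L.k x)) = conj 1 := congrArg _ h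
      rwa [Complex.conj_conj, map_one] at h1
    · intro h
      show conj (L.k x) = 1
      rw [h, map_one]
  exact ⟨fun c hc => ⟨(hR.1 c hc).1, (key c).2 (hR.1 c hc).2⟩, fun α hα h => hR.2 α hα ((key α).1 h)⟩

/-- the existence of the representatives -/
theorem exists_RA (L : Lv) : ∃ (R : Finset Eis) (a : Eis), J2L.IsR L R ∧ IsA L a := by
  have key : ∀ x, kd L x = 1 ↔ L.k x = 1 := by
    intro x
    constructor
    · intro h
      have h1 : conj (conj (L.k x)) = conj 1 := congrArg _ h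
      rwa [Complex.conj_conj, map_one] at h1
    · intro h
      show conj (L.k x) = 1
      rw [h, map_one]
  obtain ⟨R, hR⟩ := exists_R0 (kd_ch L) (w_two L)
  obtain ⟨c, hc, hc1⟩ := (kd_ch L).exists_w
  refine ⟨R, c ^ 4, ⟨fun x hx => ⟨(hR.1 x hx).1, (key x).1 (hR.1 x hx).2⟩, fun α hα h => hR.2 α hα ((key α).2 h)⟩, ?_⟩
  have h1 : L.k c = w ^ 2 := by
    have h2 : conj (conj (L.k c)) = conj w := congrArg _ hc1
    rwa [Complex.conj_conj, CUL.conj_w] at h2
  have h3 : ∀ x y, L.k (x * y) = L.k x * L.k y := L.k_mul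
  have h4 : L.k (c ^ 4) = L.k c ^ 4 := by
    rw [pow_succ, pow_succ, pow_succ, pow_one, h3, h3, h3]; ring
  have h5 : L.q (c ^ 4) = L.q c ^ 4 := by
    rw [pow_succ, pow_succ, pow_succ, pow_one, L.q_mul, L.q_mul, L.q_mul]; ring
  refine ⟨hc.pow_left, ?_, ?_⟩
  · rw [h4, h1, CUL.zw_two]
    have hw3 := CUL.w3
    linear_combination (w ^ 5 + w ^ 2) * hw3
  · rw [h5]
    rcases L.q_pm c hc with h | h <;> rw [h] <;> norm_num

theorem w_a {L : Lv} {a : Eis} (ha : IsA L a) : kd L a = w := by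
  show conj (L.k a) = w
  rw [ha.2.1, CUL.zw_conj]
  exact CUL.zw_one

theorem w_ph1 {L : Lv} (hj : L.j = 1) : Ph L = fun c => yw (emb c / emb L.f) := by
  funext c
  unfold Ph
  rw [if_pos hj]
  rfl

theorem w_ph2 {L : Lv} (hj : L.j ≠ 1) : Ph L = fun c => hT (emb c / emb L.f) := by
  funext c
  unfold Ph
  rw [if_neg hj]
  rfl

/-- the elliptic unit `e₀ = uE`, its conjugates `e₁`, `e₂` and the limit formula -/
structure Res (d : Dt D) (R : Finset Eis) (a : Eis) : Prop where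
  c3 : C3 (JT.cD D) (uE d.L R a) (gE d.L R a 1 / gE d.L R a 2) (gE d.L R a 2 / gE d.L R a 3)
  prod : gE d.L R a 3 = gE d.L R a 0 ∨ gE d.L R a 3 = -gE d.L R a 0
  ne : ∀ i, gE d.L R a i ≠ 0
  int : ∀ i < 3, IsIntegral ℤ (gE d.L R a i / gE d.L R a (i + 1)) ∧ IsIntegral ℤ (gE d.L R a i / gE d.L R a (i + 1))⁻¹
  log : ∀ L₁ : ℂ, Tendsto (LC d.C) (𝓝[>] 1) (𝓝 L₁) → ∃ A : ℕ, Odd A ∧
    16 * Real.pi ^ 2 * ‖Lam d.L R a‖ ^ 2 = A * (d.C.g.norm : ℝ) * ‖L₁‖ ^ 2

theorem w_norm_sq (x y z : ℝ) : ‖(x : ℂ) + w * y + w ^ 2 * z‖ ^ 2 = (x - y) ^ 2 + (x - y) * (y - z) + (y - z) ^ 2 := by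
  have h1 : ((‖(x : ℂ) + w * y + w ^ 2 * z‖ ^ 2 : ℝ) : ℂ) =
      (((x - y) ^ 2 + (x - y) * (y - z) + (y - z) ^ 2 : ℝ) : ℂ) := by
    rw [← Complex.normSq_eq_norm_sq, ← Complex.mul_conj]
    have hw := CUL.conj_w
    have hw2 := CUL.w2
    have hw3 := CUL.w3
    rw [map_add, map_add, map_mul, map_mul, map_pow, hw, Complex.conj_ofReal, Complex.conj_ofReal, Complex.conj_ofReal]
    push_cast
    linear_combination ((x : ℂ) * y + x * z + y * z) * hw2 + (x * z * w + y ^ 2 + z ^ 2 * (w ^ 3 + 1) + y * z * w + y * z * w ^ 2) * hw3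
  exact_mod_cast h1

theorem w_Lam {k' κ' : Eis → ℂ} (d : Dt D) {R : Finset Eis} {a : Eis} (hR : IsR0 d.L.f k' R) (ha : IsCoprime a d.L.f)
    (hΦ : GD d.L.f k' κ' (Ph d.L)) : ‖Lam d.L R a‖ ^ 2 =
      Real.log ‖ei (Ph d.L) R a 0‖ ^ 2 + Real.log ‖ei (Ph d.L) R a 0‖ * Real.log ‖ei (Ph d.L) R a 1‖ +
        Real.log ‖ei (Ph d.L) R a 1‖ ^ 2 := by
  have hne : ∀ i : ℕ, ∀ c ∈ R, Ph d.L (a ^ i * c) ≠ 0 := fun i c hc =>
    hΦ.ne _ (ha.pow_left.mul_left (hR.1 c hc).1)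
  have hg : ∀ i : ℕ, gi (Ph d.L) R a i ≠ 0 := fun i => Finset.prod_ne_zero_iff.2 (hne i)
  have hlog : ∀ i : ℕ, Real.log ‖gi (Ph d.L) R a i‖ = ∑ c ∈ R, Real.log ‖Ph d.L (a ^ i * c)‖ := by
    intro i
    unfold gi
    rw [norm_prod, Real.log_prod fun c hc => norm_ne_zero_iff.2 (hne i c hc)]
  have he : ∀ i : ℕ, Real.log ‖ei (Ph d.L) R a i‖ =
      Real.log ‖gi (Ph d.L) R a i‖ - Real.log ‖gi (Ph d.L) R a (i + 1)‖ := by
    intro i
    unfold ei
    rw [norm_div, Real.log_div (norm_ne_zero_iff.2 (hg i)) (norm_ne_zero_iff.2 (hg (i + 1)))]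
  rw [he 0, he 1, ← w_norm_sq]
  congr 2
  unfold Lam
  rw [Finset.sum_range_succ, Finset.sum_range_succ, Finset.sum_range_succ, Finset.sum_range_zero, hlog, hlog, hlog]
  push_cast
  ring

theorem main (d : Dt D) {R : Finset Eis} {a : Eis} (hR : J2L.IsR d.L R) (ha : IsA d.L a) : Res d R a := by
  have hD0 := w_D0 d
  have hR' := w_R hR
  have ha' := w_a ha
  have h2 := w_two d.L
  have hs := JT.cD_cube D
  have hpr : Prim d.C.g d.C.kp := d.C.prim
  have hs0 : JT.cD D ≠ 0 := by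
    intro h
    rw [h, zero_pow (by norm_num)] at hs
    exact hD0 (emb_injective (by rw [← hs, map_zero]))
  have hl : ∀ p, Prime p → p ∣ d.L.f → Loc D p ∧ d.C.kp p ≠ 1 := fun p hp hpf => ⟨w_loc d hp hpf hD0, d.tam p hp hpf⟩
  by_cases hj : d.L.j = 1
  · have hcu := w_cu d hj
    have hΦ : GD d.L.f (kd d.L) (kd d.L) (Ph d.L) := by rw [w_ph1 hj]; exact GD_y hcu h2
    have hg : d.C.g ∣ d.L.f := by
      have := d.gdvd
      rwa [if_pos hj] at this
    have hG := w_gal1 d hj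
    have hprod := ei_prod hcu.toCh hR' ha.1 ha' hΦ
    have hne := gi_ne hcu.toCh hR' ha.1 hΦ
    refine ⟨ei_C3 hcu.toCh hR' ha.1 ha' hΦ hs0 hG, ?_, hne, ?_, ?_⟩
    · obtain ⟨ε, hε, he⟩ := gi_add3 hcu.toCh hR' ha.1 ha' hΦ
      have h3 := he 0
      rcases hε with rfl | rfl
      · left; rw [one_mul] at h3; exact h3
      · right; rw [neg_one_mul] at h3; exact h3
    · intro i hi
      have h3 := unit_y hcu h2 hR' ha.1 ha' hD0 hs hG (fun p hp hpf => (hl p hp hpf).1) hi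
      rw [← w_ph1 hj] at h3
      exact h3
    · intro L₁ hL
      obtain ⟨r, n, hn, hE⟩ := main_y hcu h2 hR' ha.1 ha' (w_cub d.C) hpr hg (fun x hx => w_kp d hj hx) hD0 hs hG hl hL
      have h3 := hE.log
      rw [← w_ph1 hj] at h3
      refine ⟨27 * (n * 3 ^ r), ?_, ?_⟩
      · rcases hn with rfl | rfl
        · exact Odd.mul (by decide) (Odd.mul (by decide) (Odd.pow (by decide)))
        · exact Odd.mul (by decide) (Odd.mul (by decide) (Odd.pow (by decide)))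
      · rw [w_Lam d hR' ha.1 hΦ, h3]
        push_cast
        have := Real.pi_ne_zero
        field_simp
        try ring
  · have hcu := w_cu2 d hj
    have hch := kd_ch d.L
    have hκ : ∀ x, IsCoprime x (2 * d.L.f) → (2 : Eis) ∣ x - 1 → k2 d x = kd d.L x := fun x hx h1 => w_k2 d hx h1
    have hΦ : GD d.L.f (kd d.L) (k2 d) (Ph d.L) := by rw [w_ph2 hj]; exact GD_h hch h2 hcu hκ
    have hg : d.C.g ∣ 2 * d.L.f := by
      have := d.gdvd
      rwa [if_neg hj] at this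
    have hG := w_gal2 d
    have hw : kd d.L CU.om ≠ 1 := by
      rw [w_kd_om]
      intro h
      have h3 : zw (d.L.j - 1) = zw 0 := by rw [h, CUL.zw_zero]
      exact hj (sub_eq_zero.1 (CUL.zw_inj h3))
    have hne := gi_ne hch hR' ha.1 hΦ
    refine ⟨ei_C3 hch hR' ha.1 ha' hΦ hs0 hG, ?_, hne, ?_, ?_⟩
    · obtain ⟨ε, hε, he⟩ := gi_add3 hch hR' ha.1 ha' hΦ
      have h3 := he 0
      rcases hε with rfl | rfl
      · left; rw [one_mul] at h3; exact h3
      · right; rw [neg_one_mul] at h3; exact h3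
    · intro i hi
      have h3 := unit_h hch h2 hcu hκ hR' ha.1 ha' hD0 hs hG (fun p hp hpf => (hl p hp hpf).1) hi
      rw [← w_ph2 hj] at h3
      exact h3
    · intro L₁ hL
      have hk : ∀ x, IsCoprime x (2 * d.L.f) → k2 d x = d.C.kp x := fun x hx => if_pos hx
      obtain ⟨r, hE⟩ := main_h hch h2 hw hcu hκ hR' ha.1 ha' (w_cub d.C) hpr hg hk hD0 hs hG hl (w_kp2 d hj) hL
      have h3 := hE.log
      rw [← w_ph2 hj] at h3
      refine ⟨3 * 3 ^ r, Odd.mul (by decide) (Odd.pow (by decide)), ?_⟩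
      rw [w_Lam d hR' ha.1 hΦ, h3]
      push_cast
      have := Real.pi_ne_zero
      field_simp
      try ring

theorem w_mem {s z₀ z₁ z₂ : ℂ} (h : C3 s z₀ z₁ z₂) {F : IntermediateField ℚ ℂ} (hw : w ∈ F) (hs : s ∈ F) :
    z₀ ∈ F ∧ z₁ ∈ F ∧ z₂ ∈ F := by
  obtain ⟨u₀, u₁, u₂, h0, h1, h2, rfl, rfl, rfl⟩ := h
  have hK : ∀ u ∈ CF.KK, u ∈ F := fun u hu => CF.KK_le F hw hu
  have a0 := hK _ h0
  have a1 := hK _ h1
  have a2 := hK _ h2
  exact ⟨add_mem (add_mem a0 (mul_mem a1 hs)) (mul_mem a2 (pow_mem hs 2)),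
    add_mem (add_mem a0 (mul_mem a1 (mul_mem hw hs))) (mul_mem a2 (pow_mem (mul_mem hw hs) 2)),
    add_mem (add_mem a0 (mul_mem a1 (mul_mem (pow_mem hw 2) hs))) (mul_mem a2 (pow_mem (mul_mem (pow_mem hw 2) hs) 2))⟩

theorem w_KM (D : Eis) : w ∈ JT.KM D ∧ JT.cD D ∈ JT.KM D := by
  unfold JT.KM
  exact ⟨IntermediateField.subset_adjoin ℚ _ (by simp), IntermediateField.subset_adjoin ℚ _ (by simp)⟩

/-- the elliptic unit and its conjugates are units of `ℚ(ω, ∛D)` -/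
theorem isU (d : Dt D) {R : Finset Eis} {a : Eis} (hR : J2L.IsR d.L R) (ha : IsA d.L a) {i : ℕ} (hi : i < 3) :
    IsU D (gE d.L R a i / gE d.L R a (i + 1)) := by
  have h := main d hR ha
  obtain ⟨h0, h1, h2⟩ := w_mem h.c3 (w_KM D).1 (w_KM D).2
  obtain ⟨h3, h4⟩ := h.int i hi
  refine ⟨?_, div_ne_zero (h.ne i) (h.ne (i + 1)), h3, h4⟩
  interval_cases i
  · exact h0
  · exact h1
  · exact h2

end J2E
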