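import Pool.Agent.J2E.W
import Pool.Agent.J2N.Z2

/-!
# [J2E-X] the elliptic unit and the class number of `ℚ(ω, ∛D)`
-/

set_option autoImplicit false

open MeasureTheory Set Filter Topology NumberField
open scoped Classical ComplexConjugate

namespace J2E

open CM27 JZ
open CU (la eE)
open CUL (Nl ta rp IsRep zw cr GalU)
open JT (KM cD)
open J2L (Lv Cub Dt LC IsU Ph IsA gE uE Lam)

variable {D : Eis}

/-- The class number is odd: the units are generated, up to odd exponents and roots of unity, by the elliptic unit `e = uE` and its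
conjugate `e' = g₁/g₂`. The class number is even: `e` is a square up to a root of unity. -/
theorem clg (hc : ¬ ∃ x : Eis, x ^ 3 = D) (d : Dt D) {R : Finset Eis} {a : Eis} (hR : J2L.IsR d.L R) (ha : IsA d.L a) :
    (Odd (classNumber (KM D)) → ∀ v : ℂ, IsU D v → ∃ (n m : ℕ) (i j : ℤ) (z : ℂ), Odd n ∧ Odd m ∧ z ^ (2 * m) = 1 ∧
      v ^ n = z * (uE d.L R a) ^ i * (gE d.L R a 1 / gE d.L R a 2) ^ j) ∧
    (¬ Odd (classNumber (KM D)) → ∃ (y z : ℂ) (m : ℕ), IsU D y ∧ Odd m ∧ z ^ (2 * m) = 1 ∧ uE d.L R a = z * y ^ 2) := by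
  have hM := main d hR ha
  obtain ⟨u₀, u₁, u₂, h0, h1, h2, e0, e1, -⟩ := hM.c3
  obtain ⟨L₁, hL⟩ := J2N.exists_L1 d.C
  obtain ⟨A, hA, hK⟩ := hM.log L₁ hL
  have hU : IsU D (uE d.L R a) := isU d hR ha (i := 0) (by norm_num)
  have hlog := hK
  have hl : ‖Lam d.L R a‖ ^ 2 = Real.log ‖uE d.L R a‖ ^ 2 +
      Real.log ‖uE d.L R a‖ * Real.log ‖gE d.L R a 1 / gE d.L R a 2‖ + Real.log ‖gE d.L R a 1 / gE d.L R a 2‖ ^ 2 := by
    have hR' := w_R hR
    by_cases hj : d.L.j = 1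
    · have hΦ : GD d.L.f (kd d.L) (kd d.L) (Ph d.L) := by rw [w_ph1 hj]; exact GD_y (w_cu d hj) (w_two d.L)
      exact w_Lam d hR' ha.1 hΦ
    · have hΦ : GD d.L.f (kd d.L) (k2 d) (Ph d.L) := by
        rw [w_ph2 hj]
        exact GD_h (kd_ch d.L) (w_two d.L) (w_cu2 d hj) fun x hx h1 => w_k2 d hx h1
      exact w_Lam d hR' ha.1 hΦ
  rw [hl, e0, e1] at hlog
  rw [e0] at hU
  have h := J2N.main hc d.C h0 h1 h2 hU hL hA hlog
  rw [e0, e1]
  exact h

end J2E
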