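import Pool.Agent.J2E.A3
import Pool.Agent.J2E.A5
import Pool.Agent.J2E.B2
import Pool.Agent.J2E.B3
import Pool.Agent.J2E.U5

/-!
# [J2E-Z] the elliptic unit: final statements
-/

set_option autoImplicit false

open MeasureTheory Set Filter Topology
open scoped Classical ComplexConjugate

namespace J2E

open CM27 JZ
open CU (la eE)
open CUL (Nl ta rp IsRep zw GalU)
open JGL (GalP)

variable {f g c₁ D : Eis} {k κ kp : Eis → ℂ} {R : Finset Eis} {s : ℂ}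

/-- The elliptic unit `e = e₀` of `M = ℚ(ω, s)`, its conjugates, its logarithm. -/
structure EU (g : Eis) (s : ℂ) (e₀ e₁ e₂ : ℂ) (A : ℝ) (L₁ : ℂ) : Prop where
  c3 : C3 s e₀ e₁ e₂
  prod : e₀ * e₁ * e₂ = 1 ∨ e₀ * e₁ * e₂ = -1
  int0 : IsIntegral ℤ e₀ ∧ IsIntegral ℤ e₀⁻¹
  int1 : IsIntegral ℤ e₁ ∧ IsIntegral ℤ e₁⁻¹
  int2 : IsIntegral ℤ e₂ ∧ IsIntegral ℤ e₂⁻¹
  log : Real.log ‖e₀‖ ^ 2 + Real.log ‖e₀‖ * Real.log ‖e₁‖ + Real.log ‖e₁‖ ^ 2 =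
    A * (27 / (16 * Real.pi ^ 2)) * (g.norm : ℝ) * ‖L₁‖ ^ 2

theorem main_y (h : Cu f k) (h2 : IsCoprime f 2) (hR : IsR0 f k R) (hc : IsCoprime c₁ f) (hc1 : k c₁ = w)
    (hg : Cu g kp) (hpr : Prim g kp) (hd : g ∣ f) (hk : ∀ x, IsCoprime x f → k x = kp x)
    (hD0 : D ≠ 0) (hs : s ^ 3 = emb D) (hG : GalP fun σ g => σ s = k g * s)
    (hloc : ∀ p, Prime p → p ∣ f → Loc D p ∧ kp p ≠ 1) {L₁ : ℂ} (hL : Tendsto (LK kp) (𝓝[>] 1) (𝓝 L₁)) :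
    ∃ r n : ℕ, (n = 9 ∨ n = 21) ∧ EU g s (ei (fun c => yw (emb c / emb f)) R c₁ 0) (ei (fun c => yw (emb c / emb f)) R c₁ 1)
      (ei (fun c => yw (emb c / emb f)) R c₁ 2) (n * 3 ^ r) L₁ := by
  obtain ⟨r, hr⟩ := IF_level hg.toCh h.toCh hd hk fun p hp hpf => (hloc p hp hpf).2
  obtain ⟨n, hn, hn'⟩ := log_y_norm h h2
  have hΦ := GD_y h h2
  have hl : ∀ p, Prime p → p ∣ f → Loc D p := fun p hp hpf => (hloc p hp hpf).1
  have hs0 : s ≠ 0 := by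
    rintro rfl
    rw [zero_pow (by norm_num)] at hs
    exact hD0 (emb_injective (by rw [← hs, map_zero]))
  refine ⟨r, n, hn, ei_C3 h.toCh hR hc hc1 hΦ hs0 hG, ei_prod h.toCh hR hc hc1 hΦ,
    unit_y h h2 hR hc hc1 hD0 hs hG hl (by norm_num), unit_y h h2 hR hc hc1 hD0 hs hG hl (by norm_num),
    unit_y h h2 hR hc hc1 hD0 hs hG hl (by norm_num), ?_⟩
  rw [ei_log h.toCh h2 hR hc hc1 hΦ, hn', hr, IF_prim hg.toCh hpr hL]
  ring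

theorem main_h (h : Ch f k) (h2 : IsCoprime f 2) (hw : k CU.om ≠ 1) (h' : Cu (2 * f) κ)
    (hκ : ∀ x, IsCoprime x (2 * f) → (2 : Eis) ∣ x - 1 → κ x = k x) (hR : IsR0 f k R) (hc : IsCoprime c₁ f) (hc1 : k c₁ = w)
    (hg : Cu g kp) (hpr : Prim g kp) (hd : g ∣ 2 * f) (hk : ∀ x, IsCoprime x (2 * f) → κ x = kp x)
    (hD0 : D ≠ 0) (hs : s ^ 3 = emb D) (hG : GalP fun σ g => σ s = κ g * s)
    (hloc : ∀ p, Prime p → p ∣ f → Loc D p ∧ kp p ≠ 1) (hkp2 : kp 2 ≠ 1) {L₁ : ℂ} (hL : Tendsto (LK kp) (𝓝[>] 1) (𝓝 L₁)) :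
    ∃ r : ℕ, EU g s (ei (fun c => hT (emb c / emb f)) R c₁ 0) (ei (fun c => hT (emb c / emb f)) R c₁ 1)
      (ei (fun c => hT (emb c / emb f)) R c₁ 2) (3 ^ r / 9) L₁ := by
  have hkp : ∀ p : Eis, Prime p → p ∣ 2 * f → kp p ≠ 1 := by
    intro p hp hpf
    rcases hp.dvd_or_dvd hpf with h1 | h1
    · have hdom : IsDomain Eis := eis_isDomain
      obtain ⟨u, hu⟩ := (hp.associated_of_dvd Q3.prime_two h1)
      have h3 : kp 2 = kp p := by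
        rw [← hu, hg.mul, hg.unit _ u.isUnit, mul_one]
      rw [← h3]
      exact hkp2
    · exact (hloc p hp h1).2
  obtain ⟨r, hr⟩ := IF_level hg.toCh h'.toCh hd hk hkp
  have hn' := log_h_norm h h2 hw h' hκ
  have hΦ := GD_h h h2 h' hκ
  have hl : ∀ p, Prime p → p ∣ f → Loc D p := fun p hp hpf => (hloc p hp hpf).1
  have hs0 : s ≠ 0 := by
    rintro rfl
    rw [zero_pow (by norm_num)] at hs
    exact hD0 (emb_injective (by rw [← hs, map_zero]))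
  refine ⟨r, ei_C3 h hR hc hc1 hΦ hs0 hG, ei_prod h hR hc hc1 hΦ,
    unit_h h h2 h' hκ hR hc hc1 hD0 hs hG hl (by norm_num), unit_h h h2 h' hκ hR hc hc1 hD0 hs hG hl (by norm_num),
    unit_h h h2 h' hκ hR hc hc1 hD0 hs hG hl (by norm_num), ?_⟩
  rw [ei_log h h2 hR hc hc1 hΦ, hn', hr, IF_prim hg.toCh hpr hL]
  ring

end J2E
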